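import Mathlib

/-!
A uniform random access machine over exact complex numbers with unit cost.
-/

namespace Pool.Agent.Lib.MP_26b317_lc

/-- Index expressions (natural numbers): constants, index registers, sums. -/
inductive NExp where
  | lit (k : ℕ)
  | var (v : ℕ)
  | add (a b : NExp)

/-- Numerical expressions (exact complex numbers): natural number constants, the imaginary unit,
array entries, the four arithmetic operations, complex conjugation. -/
inductive CExp where
  | lit (k : ℕ)
  | imag
  | get (a : ℕ) (i j : NExp)
  | add (x y : CExp)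
  | sub (x y : CExp)
  | mul (x y : CExp)
  | div (x y : CExp)
  | conj (x : CExp)

/-- Programs. -/
inductive Cmd where
  | skip
  | setN (v : ℕ) (e : NExp)
  | setC (a : ℕ) (i j : NExp) (e : CExp)
  | seq (p q : Cmd)
  | ifN (x y : NExp) (p q : Cmd)
  | ifC (x y : CExp) (p q : Cmd)
  | loop (v : ℕ) (b : NExp) (p : Cmd)

/-- Memory: index registers and two-dimensional arrays of exact complex numbers. -/
structure Mem where
  nat : ℕ → ℕ
  num : ℕ → ℕ → ℕ → ℂ

/-- Write an index register. -/
def Mem.setNat (σ : Mem) (v k : ℕ) : Mem := ⟨Function.update σ.nat v k, σ.num⟩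

/-- Write an array entry. -/
noncomputable def Mem.setNum (σ : Mem) (a i j : ℕ) (z : ℂ) : Mem :=
  ⟨σ.nat, fun a' i' j' => if a' = a ∧ i' = i ∧ j' = j then z else σ.num a' i' j'⟩

/-- Value of an index expression: `lit k` has value `k`, `var v` the content of register `v`,
`add a b` the sum of the values of `a` and `b`. -/
noncomputable def NExp.val (ρ : ℕ → ℕ) (e : NExp) : ℕ :=
  NExp.rec (motive := fun _ => ℕ) (fun k => k) (fun v => ρ v) (fun _ _ x y => x + y) e

/-- Number of steps to evaluate an index expression: one for every node. -/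
noncomputable def NExp.steps (e : NExp) : ℕ :=
  NExp.rec (motive := fun _ => ℕ) (fun _ => 1) (fun _ => 1) (fun _ _ x y => x + y + 1) e

/-- Value of a numerical expression: the constant `k`, the imaginary unit, the entry
`(i, j)` of the array `a`, sum, difference, product, quotient, complex conjugate. -/
noncomputable def CExp.val (σ : Mem) (e : CExp) : ℂ :=
  CExp.rec (motive := fun _ => ℂ) (fun k => (k : ℂ)) Complex.I
    (fun a i j => σ.num a (i.val σ.nat) (j.val σ.nat))
    (fun _ _ x y => x + y) (fun _ _ x y => x - y) (fun _ _ x y => x * y) (fun _ _ x y => x / y)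
    (fun _ x => (starRingEnd ℂ) x) e

/-- Number of steps to evaluate a numerical expression: one for every node. -/
noncomputable def CExp.steps (e : CExp) : ℕ :=
  CExp.rec (motive := fun _ => ℕ) (fun _ => 1) 1 (fun _ i j => i.steps + j.steps + 1)
    (fun _ _ x y => x + y + 1) (fun _ _ x y => x + y + 1) (fun _ _ x y => x + y + 1)
    (fun _ _ x y => x + y + 1) (fun _ x => x + 1) e

open Classical in
/-- Run a program: final memory and number of steps. Every constant, register access, array
access, arithmetic operation, comparison, assignment and every pass of a loop is counted.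
The loop `loop v b p` evaluates `b` once, then executes `p` for the values `0, 1, …, b - 1` of
the register `v`, which is local: its old value is put back at the end of every pass. -/
noncomputable def Cmd.exec (c : Cmd) : Mem → Mem × ℕ :=
  Cmd.rec (motive := fun _ => Mem → Mem × ℕ)
    (fun σ => (σ, 1))
    (fun v e σ => (σ.setNat v (e.val σ.nat), e.steps + 1))
    (fun a i j e σ => (σ.setNum a (i.val σ.nat) (j.val σ.nat) (e.val σ),
      i.steps + j.steps + e.steps + 1))
    (fun _ _ f g σ => ((g (f σ).1).1, (f σ).2 + (g (f σ).1).2))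
    (fun x y _ _ f g σ => if x.val σ.nat < y.val σ.nat
      then ((f σ).1, x.steps + y.steps + 1 + (f σ).2)
      else ((g σ).1, x.steps + y.steps + 1 + (g σ).2))
    (fun x y _ _ f g σ => if (x.val σ).re < (y.val σ).re
      then ((f σ).1, x.steps + y.steps + 1 + (f σ).2)
      else ((g σ).1, x.steps + y.steps + 1 + (g σ).2))
    (fun v b _ f σ => Nat.rec (motive := fun _ => Mem × ℕ) (σ, b.steps + 1)
      (fun k s => (((f (s.1.setNat v k)).1).setNat v (s.1.nat v),
        s.2 + (f (s.1.setNat v k)).2 + 1))
      (b.val σ.nat))
    c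

/-- Tridiagonal matrices: `T i j = 0` whenever `|i - j| > 1`. -/
def IsTri {R : Type*} [Zero R] {n : ℕ} (T : Matrix (Fin n) (Fin n) R) : Prop :=
  ∀ i j : Fin n, ((i : ℕ) + 1 < (j : ℕ) ∨ (j : ℕ) + 1 < (i : ℕ)) → T i j = 0

/-- Input memory: index register `0` holds `n`, the entries `(i, j)`, `i, j < n`, of array `0`
hold `A i j`, entry `(0, 0)` of array `1` holds `δ`, everything else is `0`. -/
noncomputable def input {n : ℕ} (A : Matrix (Fin n) (Fin n) ℂ) (δ : ℝ) : Mem :=
  ⟨fun v => if v = 0 then n else 0,
   fun a i j => if a = 0 then (if h : i < n ∧ j < n then A ⟨i, h.1⟩ ⟨j, h.2⟩ else 0)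
     else if a = 1 ∧ i = 0 ∧ j = 0 then (δ : ℂ) else 0⟩

end Pool.Agent.Lib.MP_26b317_lc
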