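import Mathlib
import Pool.Agent.Lib.MP_26b317_lc.Model

/-!
Core linear algebra for tridiagonal matrices `A + z X`, `X = diag(0,1,…,n-1)`.
-/

open Matrix

namespace Pool.Agent.Lib.MP_26b317_lc

/-- pairs `x < y` of indices -/
abbrev Pr (n : ℕ) := {p : Fin n × Fin n // p.1 < p.2}

/-- strictly upper triangular part -/
def up {R : Type*} {n : ℕ} (M : Matrix (Fin n) (Fin n) R) : Pr n → R := fun q => M q.1.1 q.1.2

/-- compression of the commutator with `T` to the strictly upper triangle -/
def KD {R : Type*} [Ring R] {n : ℕ} (T : Matrix (Fin n) (Fin n) R) : Matrix (Pr n) (Pr n) R :=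
  fun p q => (if p.1.2 = q.1.2 then T p.1.1 q.1.1 else 0)
    - (if p.1.1 = q.1.1 then T q.1.2 p.1.2 else 0)

lemma sum_Pr {M : Type*} [AddCommMonoid M] {n : ℕ} (f : Fin n → Fin n → M) :
    ∑ q : Pr n, f q.1.1 q.1.2 = ∑ x : Fin n, ∑ y : Fin n, if x < y then f x y else 0 := by
  classical
  rw [← Finset.sum_product', Finset.univ_product_univ]
  rw [← Finset.sum_filter]
  rw [Finset.sum_subtype (p := fun q : Fin n × Fin n => q.1 < q.2)]
  intro x
  simp

lemma KD_mulVec_up {R : Type*} [CommRing R] {n : ℕ} {T M : Matrix (Fin n) (Fin n) R}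
    (hT : IsTri T) (hM : ∀ x, M x x = 0) : KD T *ᵥ up M = up (T * M - M * T) := by
  classical
  funext p
  obtain ⟨⟨x, y⟩, hxy⟩ := p
  have hxy' : (x : ℕ) < (y : ℕ) := hxy
  have h1 : (KD T *ᵥ up M) ⟨(x, y), hxy⟩
      = ∑ q : Pr n, (((if y = q.1.2 then T x q.1.1 else 0)
        - (if x = q.1.1 then T q.1.2 y else 0)) * M q.1.1 q.1.2) := by
    rfl
  rw [h1]
  have h2 := sum_Pr (fun a b : Fin n => ((if y = b then T x a else 0)
        - (if x = a then T b y else 0)) * M a b)
  rw [h2]
  have h3 : ∀ a b : Fin n, (if a < b then (((if y = b then T x a else 0)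
        - (if x = a then T b y else 0)) * M a b) else 0)
      = (if y = b then (if a < y then T x a * M a y else 0) else 0)
        - (if x = a then (if x < b then T b y * M x b else 0) else 0) := by
    intro a b
    by_cases hy : y = b
    · subst hy
      by_cases hx : x = a
      · subst hx
        simp only [if_true, sub_mul]
        split_ifs <;> simp
      · simp [hx]
    · by_cases hx : x = a
      · subst hx
        simp only [hy, if_false, if_true, zero_sub, neg_mul]
        split_ifs <;> simp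
      · simp [hx, hy]
  simp_rw [h3, Finset.sum_sub_distrib]
  simp only [up, Matrix.sub_apply, Matrix.mul_apply]
  congr 1
  · apply Finset.sum_congr rfl
    intro a _
    rw [Finset.sum_ite_eq]
    simp only [Finset.mem_univ, if_true]
    by_cases ha : a < y
    · simp [ha]
    · simp only [ha, if_false]
      rcases eq_or_lt_of_le (not_lt.mp ha) with h | h
      · subst h; simp [hM]
      · have h' : (y : ℕ) < (a : ℕ) := h
        rw [hT x a (Or.inl (by omega))]
        simp
  · rw [Finset.sum_comm]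
    apply Finset.sum_congr rfl
    intro b _
    rw [Finset.sum_ite_eq]
    simp only [Finset.mem_univ, if_true]
    by_cases hb : x < b
    · simp [hb, mul_comm]
    · simp only [hb, if_false]
      rcases eq_or_lt_of_le (not_lt.mp hb) with h | h
      · subst h; simp [hM]
      · have h' : (b : ℕ) < (x : ℕ) := h
        rw [hT b y (Or.inl (by omega))]
        simp

/-- antisymmetric extension -/
def anti {R : Type*} [Ring R] {n : ℕ} (u : Pr n → R) : Matrix (Fin n) (Fin n) R :=
  fun x y => if h : x < y then u ⟨(x, y), h⟩ else if h : y < x then - u ⟨(y, x), h⟩ else 0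

lemma up_anti {R : Type*} [Ring R] {n : ℕ} (u : Pr n → R) : up (anti u) = u := by
  funext p
  obtain ⟨⟨x, y⟩, hxy⟩ := p
  have : x < y := hxy
  simp [up, anti, this]

lemma anti_diag {R : Type*} [Ring R] {n : ℕ} (u : Pr n → R) (x : Fin n) : anti u x x = 0 := by
  simp [anti]

lemma anti_transpose {R : Type*} [Ring R] {n : ℕ} (u : Pr n → R) : (anti u)ᵀ = - anti u := by
  ext x y
  simp only [Matrix.transpose_apply, Matrix.neg_apply, anti]
  rcases lt_trichotomy x y with h | h | h
  · simp [h, not_lt.mpr h.le]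
  · subst h; simp
  · simp [h, not_lt.mpr h.le]

section cyclic

variable {F : Type*} [Field F] {n : ℕ} {T : Matrix (Fin n) (Fin n) F}

lemma pow_col_zero (hT : IsTri T) (h0 : 0 < n) (k : ℕ) :
    ∀ i : Fin n, k < (i : ℕ) → (T ^ k) i ⟨0, h0⟩ = 0 := by
  induction k with
  | zero =>
    intro i hi
    have : i ≠ ⟨0, h0⟩ := by
      intro h; rw [h] at hi; simp at hi
    simp [this]
  | succ k ih =>
    intro i hi
    rw [pow_succ', Matrix.mul_apply]
    apply Finset.sum_eq_zero
    intro j _
    by_cases hj : k < (j : ℕ)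
    · rw [ih j hj, mul_zero]
    · rw [hT i j (Or.inr (by omega)), zero_mul]

lemma pow_col_ne (hT : IsTri T) (hne : ∀ i j : Fin n, (i : ℕ) = (j : ℕ) + 1 → T i j ≠ 0)
    (h0 : 0 < n) (k : ℕ) (hk : k < n) : (T ^ k) ⟨k, hk⟩ ⟨0, h0⟩ ≠ 0 := by
  induction k with
  | zero => simp
  | succ k ih =>
    have hk' : k < n := by omega
    rw [pow_succ', Matrix.mul_apply]
    rw [Finset.sum_eq_single (⟨k, hk'⟩ : Fin n)]
    · exact mul_ne_zero (hne _ _ rfl) (ih hk')
    · intro j _ hj
      by_cases hj' : k < (j : ℕ)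
      · rw [pow_col_zero hT h0 k j hj', mul_zero]
      · have : (j : ℕ) ≠ k := fun h => hj (Fin.ext h)
        rw [hT _ j (Or.inr (by simp only; omega)), zero_mul]
    · intro h; exact absurd (Finset.mem_univ _) h

lemma cyclic_eq_zero (hT : IsTri T) (hne : ∀ i j : Fin n, (i : ℕ) = (j : ℕ) + 1 → T i j ≠ 0)
    (h0 : 0 < n) (w : Fin n → F) (hw : ∀ k, ∑ j, w j * (T ^ k) j ⟨0, h0⟩ = 0) : w = 0 := by
  have key : ∀ m : ℕ, ∀ hm : m < n, w ⟨m, hm⟩ = 0 := by
    intro m
    induction m using Nat.strong_induction_on with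
    | _ m ih =>
      intro hm
      have h := hw m
      rw [Finset.sum_eq_single (⟨m, hm⟩ : Fin n)] at h
      · rcases mul_eq_zero.mp h with h | h
        · exact h
        · exact absurd h (pow_col_ne hT hne h0 m hm)
      · intro j _ hj
        by_cases hj' : m < (j : ℕ)
        · rw [pow_col_zero hT h0 m j hj', mul_zero]
        · have hjm : (j : ℕ) < m := by
            have : (j : ℕ) ≠ m := fun h => hj (Fin.ext h)
            omega
          have := ih j hjm j.isLt
          rw [show w j = w ⟨(j : ℕ), j.isLt⟩ from rfl, this, zero_mul]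
      · intro h; exact absurd (Finset.mem_univ _) h
  funext j
  exact key j j.isLt

lemma comb_ne_zero (hT : IsTri T) (hne : ∀ i j : Fin n, (i : ℕ) = (j : ℕ) + 1 → T i j ≠ 0)
    (h0 : 0 < n) (c : Fin n → F) (hc : ∑ k : Fin n, c k • T ^ (k : ℕ) = 0) : c = 0 := by
  have hrow : ∀ i : Fin n, ∑ k : Fin n, c k * (T ^ (k : ℕ)) i ⟨0, h0⟩ = 0 := by
    intro i
    have := congrFun (congrFun hc i) ⟨0, h0⟩
    simpa [Matrix.sum_apply, Matrix.smul_apply] using this
  have key : ∀ m : ℕ, ∀ j : Fin n, n - (j : ℕ) ≤ m → c j = 0 := by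
    intro m
    induction m with
    | zero =>
      intro j hj
      have := j.isLt
      omega
    | succ m ih =>
      intro j hj
      have h := hrow j
      rw [Finset.sum_eq_single j] at h
      · rcases mul_eq_zero.mp h with h | h
        · exact h
        · exact absurd h (pow_col_ne hT hne h0 j j.isLt)
      · intro k _ hk
        by_cases hk' : (k : ℕ) < (j : ℕ)
        · rw [pow_col_zero hT h0 k j hk', mul_zero]
        · have : (k : ℕ) ≠ (j : ℕ) := fun h => hk (Fin.ext h)
          rw [ih k (by have := k.isLt; omega), zero_mul]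
      · intro h; exact absurd (Finset.mem_univ _) h
  funext j
  exact key n j (by omega)

lemma comm_antisymm_eq_zero [CharZero F] (hT : IsTri T) (hs : Tᵀ = T)
    (hne : ∀ i j : Fin n, (i : ℕ) = (j : ℕ) + 1 → T i j ≠ 0)
    (U : Matrix (Fin n) (Fin n) F) (hU : Uᵀ = - U) (hc : T * U = U * T) : U = 0 := by
  rcases Nat.eq_zero_or_pos n with h0 | h0
  · subst h0; ext i; exact i.elim0
  have hcomm : ∀ k, T ^ k * U = U * T ^ k := by
    intro k
    exact (Commute.pow_left hc k)
  have hTk : ∀ k, (T ^ k)ᵀ = T ^ k := by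
    intro k; rw [Matrix.transpose_pow, hs]
  have h1 : ∀ k, (U * T ^ k) ⟨0, h0⟩ ⟨0, h0⟩ = 0 := by
    intro k
    have e1 : (U * T ^ k)ᵀ = - (U * T ^ k) := by
      rw [Matrix.transpose_mul, hTk, hU, mul_neg, hcomm]
    have e2 := congrFun (congrFun e1 ⟨0, h0⟩) ⟨0, h0⟩
    simp only [Matrix.transpose_apply, Matrix.neg_apply] at e2
    have e3 : (2 : F) * (U * T ^ k) ⟨0, h0⟩ ⟨0, h0⟩ = 0 := by
      rw [two_mul]; nth_rewrite 1 [e2]; simp
    rcases mul_eq_zero.mp e3 with h | h
    · exact absurd h two_ne_zero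
    · exact h
  have hrow0 : (fun j => U ⟨0, h0⟩ j) = 0 := by
    apply cyclic_eq_zero hT hne h0
    intro k
    have := h1 k
    rwa [Matrix.mul_apply] at this
  have hcol0 : ∀ i, U i ⟨0, h0⟩ = 0 := by
    intro i
    have e1 := congrFun (congrFun hU ⟨0, h0⟩) i
    simp only [Matrix.transpose_apply, Matrix.neg_apply] at e1
    rw [e1, show U ⟨0, h0⟩ i = 0 from congrFun hrow0 i, neg_zero]
  have hall : ∀ i, (fun j => U i j) = 0 := by
    intro i
    apply cyclic_eq_zero hT hne h0
    intro k
    have e1 := congrFun (congrFun (hcomm k) i) ⟨0, h0⟩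
    rw [Matrix.mul_apply, Matrix.mul_apply] at e1
    rw [← e1]
    apply Finset.sum_eq_zero
    intro j _
    rw [hcol0 j, mul_zero]
  ext i j
  exact congrFun (hall i) j

/-- matrix of diagonals of powers -/
def diagPow {R : Type*} [CommRing R] {n : ℕ} (T : Matrix (Fin n) (Fin n) R) :
    Matrix (Fin n) (Fin n) R := fun k x => (T ^ (k : ℕ)) x x

lemma exists_ker_of_det (hT : IsTri T) (hs : Tᵀ = T)
    (hne : ∀ i j : Fin n, (i : ℕ) = (j : ℕ) + 1 → T i j ≠ 0)
    (hdet : (diagPow T).det = 0) : ∃ u : Pr n → F, u ≠ 0 ∧ KD T *ᵥ u = 0 := by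
  classical
  obtain ⟨c, hc0, hc⟩ := Matrix.exists_vecMul_eq_zero_iff.mpr hdet
  have hn : 0 < n := by
    rcases Nat.eq_zero_or_pos n with h | h
    · subst h
      exact absurd (funext fun i => i.elim0) hc0
    · exact h
  set S : Matrix (Fin n) (Fin n) F := ∑ k : Fin n, c k • T ^ (k : ℕ) with hS
  have hSne : S ≠ 0 := fun h => hc0 (comb_ne_zero hT hne hn c h)
  have hSdiag : ∀ x, S x x = 0 := by
    intro x
    have := congrFun hc x
    simp only [Matrix.vecMul, dotProduct, diagPow, Pi.zero_apply] at this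
    rw [hS]
    simpa [Matrix.sum_apply, Matrix.smul_apply] using this
  have hSsym : Sᵀ = S := by
    rw [hS, Matrix.transpose_sum]
    apply Finset.sum_congr rfl
    intro k _
    rw [Matrix.transpose_smul, Matrix.transpose_pow, hs]
  have hScomm : T * S - S * T = 0 := by
    rw [hS, Finset.mul_sum, Finset.sum_mul, ← Finset.sum_sub_distrib]
    apply Finset.sum_eq_zero
    intro k _
    rw [Matrix.mul_smul, Matrix.smul_mul, ← pow_succ', ← pow_succ, sub_self]
  refine ⟨up S, ?_, ?_⟩
  · intro h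
    apply hSne
    ext x y
    rcases lt_trichotomy x y with hxy | hxy | hxy
    · exact congrFun h ⟨(x, y), hxy⟩
    · subst hxy; exact hSdiag x
    · have e := congrFun (congrFun hSsym y) x
      simp only [Matrix.transpose_apply] at e
      rw [e]
      exact congrFun h ⟨(y, x), hxy⟩
  · rw [KD_mulVec_up hT hSdiag, hScomm]
    rfl

lemma det_eq_zero_of_ker [CharZero F] (hT : IsTri T) (hs : Tᵀ = T)
    (hne : ∀ i j : Fin n, (i : ℕ) = (j : ℕ) + 1 → T i j ≠ 0)
    (u : Pr n → F) (hu : u ≠ 0) (hK : KD T *ᵥ u = 0) : (diagPow T).det = 0 := by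
  classical
  set U := anti u with hU
  have hUt : Uᵀ = - U := anti_transpose u
  have hUup : up U = u := up_anti u
  have hUne : U ≠ 0 := by
    intro h
    apply hu
    rw [← hUup, h]
    rfl
  set Γ := T * U - U * T with hΓ
  have hΓt : Γᵀ = Γ := by
    rw [hΓ, Matrix.transpose_sub, Matrix.transpose_mul, Matrix.transpose_mul, hs, hUt]
    rw [neg_mul, mul_neg]
    abel
  have hΓup : up Γ = 0 := by
    rw [hΓ, ← KD_mulVec_up hT (anti_diag u), hUup, hK]
  have hΓoff : ∀ x y, x ≠ y → Γ x y = 0 := by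
    intro x y hxy
    rcases lt_or_gt_of_ne hxy with h | h
    · exact congrFun hΓup ⟨(x, y), h⟩
    · have e := congrFun (congrFun hΓt y) x
      simp only [Matrix.transpose_apply] at e
      rw [e]
      exact congrFun hΓup ⟨(y, x), h⟩
  set γ : Fin n → F := fun x => Γ x x with hγ
  have hΓd : Γ = Matrix.diagonal γ := by
    ext x y
    by_cases h : x = y
    · subst h; simp [hγ]
    · rw [hΓoff x y h, Matrix.diagonal_apply_ne _ h]
  have hγne : γ ≠ 0 := by
    intro h
    apply hUne
    apply comm_antisymm_eq_zero hT hs hne U hUt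
    have : Γ = 0 := by rw [hΓd, h]; simp
    rw [hΓ] at this
    exact sub_eq_zero.mp this
  apply Matrix.exists_mulVec_eq_zero_iff.mp
  refine ⟨γ, hγne, ?_⟩
  funext k
  have htr : (Γ * T ^ (k : ℕ)).trace = 0 := by
    rw [hΓ, sub_mul, Matrix.trace_sub, mul_assoc, Matrix.trace_mul_comm, mul_assoc, mul_assoc,
      ← pow_succ, ← pow_succ', sub_self]
  rw [hΓd] at htr
  simp only [Matrix.mulVec, dotProduct, diagPow, Pi.zero_apply]
  rw [← htr, Matrix.trace]
  apply Finset.sum_congr rfl
  intro x _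
  rw [Matrix.diag_apply, Matrix.diagonal_mul, mul_comm]

end cyclic

end Pool.Agent.Lib.MP_26b317_lc
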