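import Mathlib

/-!
Descent on scales: finding a point far from all roots of a real-rooted polynomial, given only
values of the modulus of the polynomial at complex points.
-/

namespace Pool.Agent.Lib.MP_26b317_lc

/-- Poisson weight of a root at scale `y` -/
noncomputable def wt (s y r : ℝ) : ℝ := y ^ 2 / ((s - r) ^ 2 + y ^ 2)

lemma wt_pos {s y r : ℝ} (hy : 0 < y) : 0 < wt s y r := by
  unfold wt; positivity

lemma wt_le_one {s y r : ℝ} (hy : 0 < y) : wt s y r ≤ 1 := by
  unfold wt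
  rw [div_le_one (by positivity)]
  nlinarith [sq_nonneg (s - r)]

/-- averaging inequality from scale `2 h` to scale `h` -/
lemma wt_avg {s h r : ℝ} (hh : 0 < h) :
    wt (s - h) h r + wt (s + h) h r ≤ 8 / 5 * wt s (2 * h) r := by
  unfold wt
  set t := s - r with ht
  have e1 : s - h - r = t - h := by rw [ht]; ring
  have e2 : s + h - r = t + h := by rw [ht]; ring
  rw [e1, e2]
  have p1 : 0 < (t - h) ^ 2 + h ^ 2 := by positivity
  have p2 : 0 < (t + h) ^ 2 + h ^ 2 := by positivity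
  have p3 : 0 < t ^ 2 + (2 * h) ^ 2 := by positivity
  rw [div_add_div _ _ p1.ne' p2.ne', mul_div_assoc', div_le_div_iff₀ (by positivity) p3]
  have hh2 : 0 < h ^ 2 := by positivity
  nlinarith [mul_nonneg hh2.le (sq_nonneg (11 * t ^ 2 - 15 * h ^ 2)), mul_pos hh2 hh2,
    mul_nonneg hh2.le (sq_nonneg (t ^ 2)), mul_nonneg (mul_nonneg hh2.le hh2.le) (sq_nonneg t),
    mul_pos (mul_pos hh2 hh2) hh2]

/-- the constant `κ² - 1` with `κ = 21/20` -/
noncomputable def c0 : ℝ := 41 / 400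

/-- logarithmic potential -/
noncomputable def pot (R : Multiset ℝ) (s y : ℝ) : ℝ :=
  (R.map (fun r => Real.log (1 + c0 * wt s y r))).sum

/-- Poisson potential -/
noncomputable def poi (R : Multiset ℝ) (s y : ℝ) : ℝ := (R.map (fun r => wt s y r)).sum

lemma log_c0 : 2 / 21 ≤ Real.log (1 + c0) := by
  have h1 : (1 : ℝ) + c0 = (21 / 20) ^ 2 := by unfold c0; norm_num
  rw [h1, Real.log_pow]
  have h2 := Real.one_sub_inv_le_log_of_pos (show (0 : ℝ) < 21 / 20 by norm_num)
  norm_num at h2 ⊢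
  linarith

lemma log_c0_pos : 0 < Real.log (1 + c0) := lt_of_lt_of_le (by norm_num) log_c0

lemma log_upper {x : ℝ} (hx : 0 ≤ x) : Real.log (1 + c0 * x) ≤ c0 * x := by
  have h : 0 < 1 + c0 * x := by unfold c0; positivity
  have := Real.log_le_sub_one_of_pos h
  linarith

lemma log_lower {x : ℝ} (hx : 0 ≤ x) (hx1 : x ≤ 1) :
    x * Real.log (1 + c0) ≤ Real.log (1 + c0 * x) := by
  have hc : (0 : ℝ) < 1 + c0 := by unfold c0; norm_num
  have h2 : 0 < 1 + c0 * x := by unfold c0; positivity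
  rw [← Real.log_rpow hc, Real.log_le_log_iff (Real.rpow_pos_of_pos hc _) h2]
  have h3 := rpow_one_add_le_one_add_mul_self (show -1 ≤ c0 by unfold c0; norm_num) hx hx1
  linarith [mul_comm x c0]

lemma pot_le_poi (R : Multiset ℝ) {s y : ℝ} (hy : 0 < y) : pot R s y ≤ c0 * poi R s y := by
  unfold pot poi
  rw [← Multiset.sum_map_mul_left]
  apply Multiset.sum_map_le_sum_map
  intro r _
  exact log_upper (wt_pos hy).le

lemma poi_le_pot (R : Multiset ℝ) {s y : ℝ} (hy : 0 < y) :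
    Real.log (1 + c0) * poi R s y ≤ pot R s y := by
  unfold pot poi
  rw [← Multiset.sum_map_mul_left]
  apply Multiset.sum_map_le_sum_map
  intro r _
  have := log_lower (wt_pos (s := s) (r := r) hy).le (wt_le_one hy)
  linarith [mul_comm (wt s y r) (Real.log (1 + c0))]

lemma poi_avg (R : Multiset ℝ) {s h : ℝ} (hh : 0 < h) :
    poi R (s - h) h + poi R (s + h) h ≤ 8 / 5 * poi R s (2 * h) := by
  unfold poi
  rw [← Multiset.sum_map_add, ← Multiset.sum_map_mul_left]
  apply Multiset.sum_map_le_sum_map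
  intro r _
  exact wt_avg hh

lemma poi_nonneg (R : Multiset ℝ) {s y : ℝ} (hy : 0 < y) : 0 ≤ poi R s y := by
  unfold poi
  apply Multiset.sum_nonneg
  intro x hx
  obtain ⟨r, _, rfl⟩ := Multiset.mem_map.mp hx
  exact (wt_pos hy).le

lemma pot_step (R : Multiset ℝ) {s h : ℝ} (hh : 0 < h) :
    min (pot R (s - h) h) (pot R (s + h) h) ≤ 7 / 8 * pot R s (2 * h) := by
  have h1 := pot_le_poi R (s := s - h) hh
  have h2 := pot_le_poi R (s := s + h) hh
  have h3 := poi_avg R (s := s) hh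
  have h4 := poi_le_pot R (s := s) (y := 2 * h) (by positivity)
  have h5 := poi_nonneg R (s := s) (y := 2 * h) (by positivity)
  have h6 := log_c0
  have h7 : 2 * min (pot R (s - h) h) (pot R (s + h) h)
      ≤ pot R (s - h) h + pot R (s + h) h := by
    have := min_le_left (pot R (s - h) h) (pot R (s + h) h)
    have := min_le_right (pot R (s - h) h) (pot R (s + h) h)
    linarith
  have h8 : c0 = 41 / 400 := rfl
  have h9 : 2 / 21 * poi R s (2 * h) ≤ pot R s (2 * h) := by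
    refine le_trans ?_ h4
    exact mul_le_mul_of_nonneg_right h6 h5
  rw [h8] at h1 h2
  nlinarith

lemma ratio_eq_exp (R : Multiset ℝ) {c s y : ℝ} (hc : 0 < c) (hy : 0 < y) :
    (c * (R.map (fun r => (s - r) ^ 2 + (21 / 20 * y) ^ 2)).prod)
      / (c * (R.map (fun r => (s - r) ^ 2 + y ^ 2)).prod) = Real.exp (pot R s y) := by
  rw [mul_div_mul_left _ _ hc.ne', ← Multiset.prod_map_div, pot, Real.exp_multiset_sum,
    Multiset.map_map]
  congr 1
  apply Multiset.map_congr rfl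
  intro r _
  have h1 : 0 < 1 + c0 * wt s y r := by
    have := wt_pos (s := s) (r := r) hy
    unfold c0; positivity
  rw [Function.comp_apply, Real.exp_log h1]
  unfold wt c0
  have : (s - r) ^ 2 + y ^ 2 ≠ 0 := by positivity
  field_simp
  ring

/-- one step of the descent -/
noncomputable def dstep (q : ℝ → ℝ → ℝ) (p : ℝ × ℝ) : ℝ × ℝ :=
  if q (p.1 - p.2 / 2) (21 / 20 * (p.2 / 2)) / q (p.1 - p.2 / 2) (p.2 / 2)
      < q (p.1 + p.2 / 2) (21 / 20 * (p.2 / 2)) / q (p.1 + p.2 / 2) (p.2 / 2)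
  then (p.1 - p.2 / 2, p.2 / 2) else (p.1 + p.2 / 2, p.2 / 2)

lemma dstep_spec {q : ℝ → ℝ → ℝ} {R : Multiset ℝ} {c : ℝ} (hc : 0 < c)
    (hq : ∀ s y : ℝ, q s y = c * (R.map (fun r => (s - r) ^ 2 + y ^ 2)).prod)
    (p : ℝ × ℝ) (hp : 0 < p.2) :
    (dstep q p).2 = p.2 / 2 ∧ |(dstep q p).1 - p.1| ≤ p.2 / 2 ∧
      pot R (dstep q p).1 (p.2 / 2) ≤ 7 / 8 * pot R p.1 p.2 := by
  have hh : 0 < p.2 / 2 := by positivity
  have hmain := pot_step R (s := p.1) hh
  rw [mul_div_cancel₀ p.2 (two_ne_zero)] at hmain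
  have hr : ∀ s, q s (21 / 20 * (p.2 / 2)) / q s (p.2 / 2) = Real.exp (pot R s (p.2 / 2)) := by
    intro s
    rw [hq, hq]
    exact ratio_eq_exp R hc hh
  unfold dstep
  rw [hr, hr]
  split_ifs with hcond
  · refine ⟨rfl, ?_, ?_⟩
    · simp only
      rw [show p.1 - p.2 / 2 - p.1 = -(p.2 / 2) by ring, abs_neg, abs_of_pos hh]
    · simp only
      rw [Real.exp_lt_exp] at hcond
      rwa [min_eq_left hcond.le] at hmain
  · refine ⟨rfl, ?_, ?_⟩
    · simp only
      rw [show p.1 + p.2 / 2 - p.1 = (p.2 / 2) by ring, abs_of_pos hh]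
    · simp only
      rw [Real.exp_lt_exp, not_lt] at hcond
      rwa [min_eq_right hcond] at hmain

lemma dstep_iter {q : ℝ → ℝ → ℝ} {R : Multiset ℝ} {c : ℝ} (hc : 0 < c)
    (hq : ∀ s y : ℝ, q s y = c * (R.map (fun r => (s - r) ^ 2 + y ^ 2)).prod)
    (η0 : ℝ) (hη : 0 < η0) (K : ℕ) :
    ((dstep q)^[K] (0, η0)).2 = η0 / 2 ^ K ∧
      |((dstep q)^[K] (0, η0)).1| ≤ η0 - η0 / 2 ^ K ∧
      pot R ((dstep q)^[K] (0, η0)).1 (η0 / 2 ^ K) ≤ (7 / 8) ^ K * pot R 0 η0 := by
  induction K with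
  | zero => simp
  | succ K ih =>
    obtain ⟨h1, h2, h3⟩ := ih
    rw [Function.iterate_succ_apply']
    set p := (dstep q)^[K] (0, η0) with hp
    have hp2 : 0 < p.2 := by rw [h1]; positivity
    obtain ⟨g1, g2, g3⟩ := dstep_spec hc hq p hp2
    have e : p.2 / 2 = η0 / 2 ^ (K + 1) := by rw [h1, pow_succ]; field_simp
    refine ⟨by rw [g1, e], ?_, ?_⟩
    · have h4 : |(dstep q p).1| ≤ |p.1| + |(dstep q p).1 - p.1| := by
        have := abs_add_le p.1 ((dstep q p).1 - p.1)
        rwa [add_sub_cancel] at this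
      have h5 : η0 / 2 ^ K = 2 * (η0 / 2 ^ (K + 1)) := by rw [pow_succ]; field_simp
      rw [e] at g2
      linarith
    · rw [← e]
      refine g3.trans ?_
      rw [h1] at *
      rw [pow_succ]
      nlinarith

lemma far_of_pot {R : Multiset ℝ} {s y : ℝ} (hy : 0 < y)
    (h : pot R s y < Real.log (1 + c0) / 2) : ∀ r ∈ R, y ≤ |s - r| := by
  intro r hr
  by_contra hlt
  push Not at hlt
  have h1 : 1 / 2 ≤ wt s y r := by
    unfold wt
    rw [div_le_div_iff₀ (by norm_num) (by positivity)]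
    have : (s - r) ^ 2 ≤ y ^ 2 := by
      rw [← sq_abs (s - r)]
      have := abs_nonneg (s - r)
      gcongr
    linarith
  have h2 := log_lower (wt_pos (s := s) (r := r) hy).le (wt_le_one hy)
  have h3 : Real.log (1 + c0 * wt s y r) ≤ pot R s y := by
    unfold pot
    obtain ⟨R', rfl⟩ := Multiset.exists_cons_of_mem hr
    rw [Multiset.map_cons, Multiset.sum_cons]
    have : 0 ≤ (R'.map (fun r => Real.log (1 + c0 * wt s y r))).sum := by
      apply Multiset.sum_nonneg
      intro x hx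
      obtain ⟨r', _, rfl⟩ := Multiset.mem_map.mp hx
      apply Real.log_nonneg
      have := wt_pos (s := s) (r := r') hy
      unfold c0
      nlinarith
    linarith
  have h4 := log_c0_pos
  nlinarith

lemma pot_init (R : Multiset ℝ) {s y : ℝ} (hy : 0 < y) :
    pot R s y ≤ R.card * Real.log (1 + c0) := by
  unfold pot
  have : ∀ x ∈ R.map (fun r => Real.log (1 + c0 * wt s y r)), x ≤ Real.log (1 + c0) := by
    intro x hx
    obtain ⟨r, _, rfl⟩ := Multiset.mem_map.mp hx
    have h1 := wt_pos (s := s) (r := r) hy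
    have h2 := wt_le_one (s := s) (r := r) hy
    apply Real.log_le_log
    · unfold c0; positivity
    · unfold c0; nlinarith
  have h3 := Multiset.sum_le_card_nsmul _ _ this
  rwa [Multiset.card_map, nsmul_eq_mul] at h3

/-- The descent finds a point far from all roots. -/
theorem descent {q : ℝ → ℝ → ℝ} {R : Multiset ℝ} {c : ℝ} (hc : 0 < c)
    (hq : ∀ s y : ℝ, q s y = c * (R.map (fun r => (s - r) ^ 2 + y ^ 2)).prod)
    (η0 : ℝ) (hη : 0 < η0) (n L : ℕ) (hn : 0 < n) (hcard : R.card ≤ n * n) (hL : n ≤ 2 ^ L) :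
    ((dstep q)^[12 * L + 6] (0, η0)).2 = η0 / 2 ^ (12 * L + 6) ∧
      |((dstep q)^[12 * L + 6] (0, η0)).1| ≤ η0 ∧
      ∀ r ∈ R, η0 / 2 ^ (12 * L + 6) ≤ |((dstep q)^[12 * L + 6] (0, η0)).1 - r| := by
  obtain ⟨h1, h2, h3⟩ := dstep_iter hc hq η0 hη (12 * L + 6)
  refine ⟨h1, ?_, ?_⟩
  · have : 0 < η0 / 2 ^ (12 * L + 6) := by positivity
    linarith
  · apply far_of_pot (by positivity)
    refine lt_of_le_of_lt h3 ?_
    have h4 := pot_init R (s := 0) hη
    have h5 : ((7 : ℝ) / 8) ^ (12 * L + 6) * (n * n) < 1 / 2 := by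
      have e1 : ((7 : ℝ) / 8) ^ (12 * L + 6) = (((7 : ℝ) / 8) ^ 6) ^ (2 * L + 1) := by
        rw [← pow_mul]; congr 1; ring
      have e2 : (((7 : ℝ) / 8) ^ 6) ^ (2 * L + 1) < (1 / 2) ^ (2 * L + 1) := by
        apply pow_lt_pow_left₀ (by norm_num) (by positivity) (by omega)
      have e3 : ((1 : ℝ) / 2) ^ (2 * L + 1) = 1 / 2 * (1 / (2 ^ L * 2 ^ L)) := by
        rw [pow_succ, two_mul, pow_add]
        simp only [one_div, inv_pow]
        rw [mul_inv]
        ring
      have e4 : (n : ℝ) ≤ 2 ^ L := by exact_mod_cast hL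
      have e5 : (n : ℝ) * n ≤ 2 ^ L * 2 ^ L := by gcongr
      have e6 : (0 : ℝ) < n * n := by positivity
      rw [e1]
      calc _ < (1 / 2 : ℝ) ^ (2 * L + 1) * (n * n) := by gcongr
        _ = 1 / 2 * ((n * n) / (2 ^ L * 2 ^ L)) := by rw [e3]; ring
        _ ≤ 1 / 2 * 1 := by
            apply mul_le_mul_of_nonneg_left _ (by norm_num)
            rw [div_le_one (by positivity)]
            exact e5
        _ = 1 / 2 := by norm_num
    have h6 : (R.card : ℝ) ≤ n * n := by exact_mod_cast hcard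
    have h7 := log_c0_pos
    have h8 : (0 : ℝ) ≤ (7 / 8) ^ (12 * L + 6) := by positivity
    calc (7 / 8) ^ (12 * L + 6) * pot R 0 η0
        ≤ (7 / 8) ^ (12 * L + 6) * ((n * n) * Real.log (1 + c0)) := by
          apply mul_le_mul_of_nonneg_left _ h8
          refine h4.trans ?_
          exact mul_le_mul_of_nonneg_right h6 h7.le
      _ = ((7 / 8) ^ (12 * L + 6) * (n * n)) * Real.log (1 + c0) := by ring
      _ < 1 / 2 * Real.log (1 + c0) := by
          apply mul_lt_mul_of_pos_right h5 h7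
      _ = Real.log (1 + c0) / 2 := by ring

end Pool.Agent.Lib.MP_26b317_lc
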