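import Mathlib

/-!
Gaussian elimination without pivoting on a Gram matrix.
-/

open Matrix
open scoped ComplexOrder

namespace Pool.Agent.Lib.MP_26b317_lc

variable {n : ℕ}

lemma gram_pivot {G : Matrix (Fin n) (Fin n) ℂ} (hG : G.det ≠ 0) (ℓ : Fin n → ℂ) (j : Fin n)
    (hj : ℓ j = 1) (hz : ∀ k, j < k → ℓ k = 0) : ∃ k, k ≤ j ∧ (ℓ ᵥ* (Gᴴ * G)) k ≠ 0 := by
  by_contra hcon
  push Not at hcon
  have h1 : (ℓ ᵥ* (Gᴴ * G)) ⬝ᵥ star ℓ = 0 := by
    rw [dotProduct]
    apply Finset.sum_eq_zero
    intro k _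
    by_cases hk : k ≤ j
    · rw [hcon k hk, zero_mul]
    · rw [Pi.star_apply, hz k (not_le.mp hk), star_zero, mul_zero]
  have h2 : (ℓ ᵥ* (Gᴴ * G)) ⬝ᵥ star ℓ = star (G *ᵥ star ℓ) ⬝ᵥ (G *ᵥ star ℓ) := by
    rw [Matrix.star_mulVec, star_star, ← Matrix.dotProduct_mulVec, ← Matrix.dotProduct_mulVec,
      Matrix.mulVec_mulVec]
  rw [h2] at h1
  have h3 : G *ᵥ star ℓ = 0 := dotProduct_star_self_eq_zero.mp h1
  have h4 : star ℓ = 0 := by
    by_contra h5
    exact hG (Matrix.exists_mulVec_eq_zero_iff.mp ⟨_, h5, h3⟩)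
  have h6 := congrFun h4 j
  rw [Pi.star_apply, hj, star_one] at h6
  exact one_ne_zero h6

theorem elim_correct {G : Matrix (Fin n) (Fin n) ℂ} (hG : G.det ≠ 0)
    (W : ℕ → Matrix (Fin n) (Fin n) ℂ) (h0 : W 0 = Gᴴ * G)
    (hs : ∀ j : Fin n, ∀ i k, W ((j : ℕ) + 1) i k
      = W j i k - (if j < i then W j i j / W j j j else 0) * W j j k) :
    ∏ i, W n i i = (Complex.normSq G.det : ℂ) := by
  have inv : ∀ j : ℕ, j ≤ n → ∃ L : Matrix (Fin n) (Fin n) ℂ, (∀ i, L i i = 1) ∧
      (∀ i k, i < k → L i k = 0) ∧ W j = L * W 0 ∧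
      (∀ i k : Fin n, (k : ℕ) < j → k < i → W j i k = 0) := by
    intro j
    induction j with
    | zero =>
      intro _
      refine ⟨1, by simp, ?_, by simp, ?_⟩
      · intro i k hik
        exact Matrix.one_apply_ne hik.ne
      · intro i k hk; omega
    | succ j ih =>
      intro hj
      obtain ⟨L, hL1, hL2, hL3, hL4⟩ := ih (by omega)
      set J : Fin n := ⟨j, by omega⟩ with hJ
      have hstep : ∀ i k, W (j + 1) i k
          = W j i k - (if J < i then W j i J / W j J J else 0) * W j J k := hs J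
      have hpiv : W j J J ≠ 0 := by
        intro hpz
        obtain ⟨k, hk1, hk2⟩ := gram_pivot hG (fun k => L J k) J (hL1 J) (fun k hk => hL2 J k hk)
        apply hk2
        have e1 : ((fun k => L J k) ᵥ* (Gᴴ * G)) k = W j J k := by
          rw [hL3, h0]; rfl
        rw [e1]
        rcases eq_or_lt_of_le hk1 with h | h
        · rw [h]; exact hpz
        · exact hL4 J k h h
      refine ⟨Matrix.of fun i k => L i k - (if J < i then W j i J / W j J J else 0) * L J k,
        ?_, ?_, ?_, ?_⟩
      · intro i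
        rw [Matrix.of_apply]
        by_cases h : J < i
        · simp [h, hL1, hL2 J i h]
        · simp [h, hL1]
      · intro i k hik
        rw [Matrix.of_apply]
        by_cases h : J < i
        · simp only [h, if_true]
          rw [hL2 i k hik, hL2 J k (h.trans hik)]; ring
        · simp [h, hL2 i k hik]
      · ext i k
        rw [hstep, Matrix.mul_apply]
        have e1 : W j i k = ∑ m, L i m * W 0 m k := by rw [hL3, Matrix.mul_apply]
        have e2 : W j J k = ∑ m, L J m * W 0 m k := by rw [hL3, Matrix.mul_apply]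
        rw [e1, e2, Finset.mul_sum, ← Finset.sum_sub_distrib]
        apply Finset.sum_congr rfl
        intro m _
        rw [Matrix.of_apply, sub_mul, mul_assoc]
      · intro i k hk hki
        rw [hstep]
        rcases Nat.lt_succ_iff_lt_or_eq.mp hk with h | h
        · have h1 : k < J := h
          rw [hL4 i k h hki, hL4 J k h h1]; ring
        · have h1 : k = J := Fin.ext h
          subst h1
          rw [if_pos hki]
          field_simp
          ring
  obtain ⟨L, hL1, hL2, hL3, hL4⟩ := inv n le_rfl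
  have hdetL : L.det = 1 := by
    rw [Matrix.det_of_isLowerTriangular]
    · simp [hL1]
    · intro i k hik
      exact hL2 i k hik
  have hdetW : (W n).det = ∏ i, W n i i := by
    apply Matrix.det_of_isUpperTriangular
    intro i k hik
    exact hL4 i k k.isLt hik
  rw [← hdetW, hL3, Matrix.det_mul, hdetL, one_mul, h0, Matrix.det_mul, Matrix.det_conjTranspose,
    Complex.star_def, Complex.normSq_eq_conj_mul_self]

end Pool.Agent.Lib.MP_26b317_lc
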