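import Mathlib
import Pool.Agent.Lib.MP_26b317_lc.Model

/-!
Working form (structural recursion) of the semantics of the machine, and its equality with the
definition of `Model`.
-/

namespace Pool.Agent.Lib.MP_26b317_lc

/-- Value of an index expression. -/
def NExp.eval : NExp → (ℕ → ℕ) → ℕ
  | .lit k, _ => k
  | .var v, ρ => ρ v
  | .add a b, ρ => a.eval ρ + b.eval ρ

/-- Number of steps to evaluate an index expression. -/
def NExp.cost : NExp → ℕ
  | .lit _ => 1
  | .var _ => 1
  | .add a b => a.cost + b.cost + 1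

/-- Value of a numerical expression. -/
noncomputable def CExp.eval : CExp → Mem → ℂ
  | .lit k, _ => (k : ℂ)
  | .imag, _ => Complex.I
  | .get a i j, σ => σ.num a (i.eval σ.nat) (j.eval σ.nat)
  | .add x y, σ => x.eval σ + y.eval σ
  | .sub x y, σ => x.eval σ - y.eval σ
  | .mul x y, σ => x.eval σ * y.eval σ
  | .div x y, σ => x.eval σ / y.eval σ
  | .conj x, σ => star (x.eval σ)

/-- Number of steps to evaluate a numerical expression. -/
def CExp.cost : CExp → ℕ
  | .lit _ => 1
  | .imag => 1
  | .get _ i j => i.cost + j.cost + 1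
  | .add x y => x.cost + y.cost + 1
  | .sub x y => x.cost + y.cost + 1
  | .mul x y => x.cost + y.cost + 1
  | .div x y => x.cost + y.cost + 1
  | .conj x => x.cost + 1

/-- `iter f m σ` applies `f 0`, `f 1`, …, `f (m-1)` in this order. -/
def iter (f : ℕ → Mem → Mem) : ℕ → Mem → Mem
  | 0, σ => σ
  | k + 1, σ => f k (iter f k σ)

/-- One pass of a loop with local index register `v` holding `k`: the old value of the
register is put back at the end of the pass. -/
def pass (v : ℕ) (f : Mem → Mem) (k : ℕ) (σ : Mem) : Mem := (f (σ.setNat v k)).setNat v (σ.nat v)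

open Classical in
/-- Semantics of programs. -/
noncomputable def Cmd.run : Cmd → Mem → Mem
  | .skip, σ => σ
  | .setN v e, σ => σ.setNat v (e.eval σ.nat)
  | .setC a i j e, σ => σ.setNum a (i.eval σ.nat) (j.eval σ.nat) (e.eval σ)
  | .seq p q, σ => q.run (p.run σ)
  | .ifN x y p q, σ => if x.eval σ.nat < y.eval σ.nat then p.run σ else q.run σ
  | .ifC x y p q, σ => if (x.eval σ).re < (y.eval σ).re then p.run σ else q.run σ
  | .loop v b p, σ => iter (pass v p.run) (b.eval σ.nat) σ

open Classical in
/-- Number of steps of the run of a program: every constant, register access, array access,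
arithmetic operation, comparison, assignment and every pass of a loop is counted. -/
noncomputable def Cmd.cost : Cmd → Mem → ℕ
  | .skip, _ => 1
  | .setN _ e, _ => e.cost + 1
  | .setC _ i j e, _ => i.cost + j.cost + e.cost + 1
  | .seq p q, σ => p.cost σ + q.cost (p.run σ)
  | .ifN x y p q, σ => x.cost + y.cost + 1 +
      (if x.eval σ.nat < y.eval σ.nat then p.cost σ else q.cost σ)
  | .ifC x y p q, σ => x.cost + y.cost + 1 +
      (if (x.eval σ).re < (y.eval σ).re then p.cost σ else q.cost σ)
  | .loop v b p, σ => b.cost + 1 + ∑ k ∈ Finset.range (b.eval σ.nat),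
      (p.cost ((iter (pass v p.run) k σ).setNat v k) + 1)


lemma NExp.val_eq (ρ : ℕ → ℕ) (e : NExp) : e.val ρ = e.eval ρ := by
  induction e with
  | lit k => rfl
  | var v => rfl
  | add a b iha ihb => change a.val ρ + b.val ρ = a.eval ρ + b.eval ρ; rw [iha, ihb]

lemma NExp.steps_eq (e : NExp) : e.steps = e.cost := by
  induction e with
  | lit k => rfl
  | var v => rfl
  | add a b iha ihb => change a.steps + b.steps + 1 = a.cost + b.cost + 1; rw [iha, ihb]

lemma CExp.val_eq (σ : Mem) (e : CExp) : e.val σ = e.eval σ := by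
  induction e with
  | lit k => rfl
  | imag => rfl
  | get a i j =>
    change σ.num a (i.val σ.nat) (j.val σ.nat) = σ.num a (i.eval σ.nat) (j.eval σ.nat)
    rw [NExp.val_eq, NExp.val_eq]
  | add x y ihx ihy => change x.val σ + y.val σ = x.eval σ + y.eval σ; rw [ihx, ihy]
  | sub x y ihx ihy => change x.val σ - y.val σ = x.eval σ - y.eval σ; rw [ihx, ihy]
  | mul x y ihx ihy => change x.val σ * y.val σ = x.eval σ * y.eval σ; rw [ihx, ihy]
  | div x y ihx ihy => change x.val σ / y.val σ = x.eval σ / y.eval σ; rw [ihx, ihy]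
  | conj x ihx => change (starRingEnd ℂ) (x.val σ) = star (x.eval σ); rw [ihx]; rfl

lemma CExp.steps_eq (e : CExp) : e.steps = e.cost := by
  induction e with
  | lit k => rfl
  | imag => rfl
  | get a i j =>
    change i.steps + j.steps + 1 = i.cost + j.cost + 1
    rw [NExp.steps_eq, NExp.steps_eq]
  | add x y ihx ihy => change x.steps + y.steps + 1 = x.cost + y.cost + 1; rw [ihx, ihy]
  | sub x y ihx ihy => change x.steps + y.steps + 1 = x.cost + y.cost + 1; rw [ihx, ihy]
  | mul x y ihx ihy => change x.steps + y.steps + 1 = x.cost + y.cost + 1; rw [ihx, ihy]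
  | div x y ihx ihy => change x.steps + y.steps + 1 = x.cost + y.cost + 1; rw [ihx, ihy]
  | conj x ihx => change x.steps + 1 = x.cost + 1; rw [ihx]

lemma Cmd.exec_eq (c : Cmd) : ∀ σ : Mem, c.exec σ = (c.run σ, c.cost σ) := by
  induction c with
  | skip => intro σ; rfl
  | setN v e =>
    intro σ
    change (σ.setNat v (e.val σ.nat), e.steps + 1) = (σ.setNat v (e.eval σ.nat), e.cost + 1)
    rw [NExp.val_eq, NExp.steps_eq]
  | setC a i j e =>
    intro σ
    change (σ.setNum a (i.val σ.nat) (j.val σ.nat) (e.val σ), i.steps + j.steps + e.steps + 1)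
      = (σ.setNum a (i.eval σ.nat) (j.eval σ.nat) (e.eval σ), i.cost + j.cost + e.cost + 1)
    rw [NExp.val_eq, NExp.val_eq, CExp.val_eq, NExp.steps_eq, NExp.steps_eq, CExp.steps_eq]
  | seq p q ihp ihq =>
    intro σ
    change ((q.exec (p.exec σ).1).1, (p.exec σ).2 + (q.exec (p.exec σ).1).2)
      = (q.run (p.run σ), p.cost σ + q.cost (p.run σ))
    rw [ihp, ihq]
  | ifN x y p q ihp ihq =>
    intro σ
    change (if x.val σ.nat < y.val σ.nat then ((p.exec σ).1, x.steps + y.steps + 1 + (p.exec σ).2)
      else ((q.exec σ).1, x.steps + y.steps + 1 + (q.exec σ).2))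
      = ((if x.eval σ.nat < y.eval σ.nat then p.run σ else q.run σ), x.cost + y.cost + 1 +
      (if x.eval σ.nat < y.eval σ.nat then p.cost σ else q.cost σ))
    rw [NExp.val_eq, NExp.val_eq, NExp.steps_eq, NExp.steps_eq, ihp, ihq]
    by_cases h : x.eval σ.nat < y.eval σ.nat
    · rw [if_pos h, if_pos h, if_pos h]
    · rw [if_neg h, if_neg h, if_neg h]
  | ifC x y p q ihp ihq =>
    intro σ
    have h1 : (Cmd.ifC x y p q).exec σ = if (x.val σ).re < (y.val σ).re
      then ((p.exec σ).1, x.steps + y.steps + 1 + (p.exec σ).2)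
      else ((q.exec σ).1, x.steps + y.steps + 1 + (q.exec σ).2) := rfl
    have h2 : (Cmd.ifC x y p q).run σ = if (x.eval σ).re < (y.eval σ).re then p.run σ
      else q.run σ := rfl
    have h3 : (Cmd.ifC x y p q).cost σ = x.cost + y.cost + 1 +
      (if (x.eval σ).re < (y.eval σ).re then p.cost σ else q.cost σ) := rfl
    rw [h1, h2, h3, CExp.val_eq, CExp.val_eq, CExp.steps_eq, CExp.steps_eq, ihp, ihq]
    by_cases h : (x.eval σ).re < (y.eval σ).re
    · rw [if_pos h, if_pos h, if_pos h]
    · rw [if_neg h, if_neg h, if_neg h]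
  | loop v b p ih =>
    intro σ
    set F : ℕ → Mem × ℕ → Mem × ℕ := fun k s => (((p.exec (s.1.setNat v k)).1).setNat v (s.1.nat v),
          s.2 + (p.exec (s.1.setNat v k)).2 + 1) with hF
    have hF2 : ∀ k s, F k s = (pass v p.run k s.1, s.2 + p.cost (s.1.setNat v k) + 1) := by
      intro k s
      simp only [hF, ih]
      rfl
    have key : ∀ m : ℕ, (Nat.rec (motive := fun _ => Mem × ℕ) (σ, b.steps + 1) F m : Mem × ℕ)
        = (iter (pass v p.run) m σ, b.cost + 1 + ∑ k ∈ Finset.range m,
          (p.cost ((iter (pass v p.run) k σ).setNat v k) + 1)) := by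
      intro m
      induction m with
      | zero => simp [iter, NExp.steps_eq]
      | succ m ihm =>
        rw [Finset.sum_range_succ]
        change F m (Nat.rec (motive := fun _ => Mem × ℕ) (σ, b.steps + 1) F m : Mem × ℕ) = _
        rw [ihm, hF2]
        refine Prod.ext rfl ?_
        change b.cost + 1 + _ + _ + 1 = b.cost + 1 + (_ + (_ + 1))
        ring
    have h1 : (Cmd.loop v b p).exec σ = Nat.rec (motive := fun _ => Mem × ℕ) (σ, b.steps + 1)
        F (b.val σ.nat) := rfl
    rw [h1, key, NExp.val_eq]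
    rfl

end Pool.Agent.Lib.MP_26b317_lc
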