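import Mathlib
import Pool.Agent.Lib.MP_26b317_lc.Work

/-!
Lemmas on the machine.
-/

namespace Pool.Agent.Lib.MP_26b317_lc

/-! ### basic lemmas -/

/-- Overwrite a whole array. -/
def Mem.setArr (σ : Mem) (a : ℕ) (f : ℕ → ℕ → ℂ) : Mem :=
  ⟨σ.nat, fun a' => if a' = a then f else σ.num a'⟩

@[simp] lemma setNat_num (σ : Mem) (v k : ℕ) : (σ.setNat v k).num = σ.num := rfl
@[simp] lemma setNat_nat (σ : Mem) (v k : ℕ) : (σ.setNat v k).nat = Function.update σ.nat v k := rfl
@[simp] lemma setNum_nat (σ : Mem) (a i j : ℕ) (z : ℂ) : (σ.setNum a i j z).nat = σ.nat := rfl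
@[simp] lemma setArr_nat (σ : Mem) (a : ℕ) (f : ℕ → ℕ → ℂ) : (σ.setArr a f).nat = σ.nat := rfl

@[ext] lemma Mem.ext' {σ τ : Mem} (h1 : σ.nat = τ.nat) (h2 : σ.num = τ.num) : σ = τ := by
  cases σ; cases τ; simp_all

lemma setNum_eq_setArr (σ : Mem) (a i j : ℕ) (z : ℂ) :
    σ.setNum a i j z = σ.setArr a (fun i' j' => if i' = i ∧ j' = j then z else σ.num a i' j') := by
  refine Mem.ext' (by rfl) ?_
  funext a' i' j'
  simp only [Mem.setNum, Mem.setArr]
  by_cases h : a' = a
  · subst h; simp
  · simp [h]

@[simp] lemma setArr_num_same (σ : Mem) (a : ℕ) (f : ℕ → ℕ → ℂ) : (σ.setArr a f).num a = f := by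
  simp [Mem.setArr]

lemma setArr_num_ne (σ : Mem) {a a' : ℕ} (h : a' ≠ a) (f : ℕ → ℕ → ℂ) :
    (σ.setArr a f).num a' = σ.num a' := by
  simp [Mem.setArr, h]

lemma setArr_self (σ : Mem) (a : ℕ) : σ.setArr a (σ.num a) = σ := by
  refine Mem.ext' (by rfl) ?_
  funext a'
  simp only [Mem.setArr]
  by_cases h : a' = a
  · subst h; simp
  · simp [h]

lemma setArr_setArr (σ : Mem) (a : ℕ) (f g : ℕ → ℕ → ℂ) :
    (σ.setArr a f).setArr a g = σ.setArr a g := by
  refine Mem.ext' (by rfl) ?_
  funext a'
  simp only [Mem.setArr]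
  by_cases h : a' = a
  · simp [h]
  · simp [h]

lemma iter_inv {f : ℕ → Mem → Mem} {P : ℕ → Mem → Prop} {m : ℕ} {σ : Mem} (h0 : P 0 σ)
    (hs : ∀ k < m, ∀ τ, P k τ → P (k + 1) (f k τ)) : ∀ k ≤ m, P k (iter f k σ) := by
  intro k hk
  induction k with
  | zero => exact h0
  | succ k ih => exact hs k (by omega) _ (ih (by omega))

lemma loop_inv {P : ℕ → Mem → Prop} {v : ℕ} {b : NExp} {p : Cmd} {σ : Mem} {m : ℕ}
    (hm : b.eval σ.nat = m) (h0 : P 0 σ)
    (hs : ∀ k < m, ∀ τ, P k τ → P (k + 1) (pass v p.run k τ)) : P m ((Cmd.loop v b p).run σ) := by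
  have := iter_inv (f := pass v p.run) h0 hs m le_rfl
  simpa [Cmd.run, hm] using this

/-- loop whose pass `i` rewrites row `i` of the array `a` only -/
lemma loop_rows {v : ℕ} {b : NExp} {p : Cmd} {σ : Mem} {m : ℕ} (hm : b.eval σ.nat = m) (a : ℕ)
    (H : ℕ → ℕ → ℂ)
    (hp : ∀ i < m, ∀ τ : Mem, τ.nat = Function.update σ.nat v i →
      (∀ a', a' ≠ a → τ.num a' = σ.num a') → τ.num a i = σ.num a i →
      p.run τ = τ.setArr a (fun x => if x = i then H i else τ.num a x)) :
    (Cmd.loop v b p).run σ = σ.setArr a (fun x => if x < m then H x else σ.num a x) := by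
  have key : ∀ k ≤ m, iter (pass v p.run) k σ
      = σ.setArr a (fun x => if x < k then H x else σ.num a x) := by
    intro k hk
    induction k with
    | zero => simp [iter, setArr_self]
    | succ k ih =>
      have ih' := ih (by omega)
      simp only [iter]
      rw [ih', pass, hp k (by omega)]
      · apply Mem.ext'
        · simp
        · funext a'
          by_cases ha : a' = a
          · subst ha
            simp only [setNat_num, setArr_num_same]
            funext x
            by_cases hx : x = k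
            · subst hx
              simp
            · simp only [hx, if_false]
              by_cases hx2 : x < k
              · rw [if_pos hx2, if_pos (by omega)]
              · rw [if_neg hx2, if_neg (by omega)]
          · simp only [setNat_num, setArr_num_ne _ ha]
      · simp
      · intro a' ha
        simp only [setNat_num, setArr_num_ne _ ha]
      · simp
  rw [Cmd.run, hm, key m le_rfl]

/-- loop whose pass `j` writes the entry `(r, j + s)` of the array `a` only -/
lemma loop_cells {v : ℕ} {b : NExp} {p : Cmd} {σ : Mem} {m : ℕ} (hm : b.eval σ.nat = m)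
    (a r s : ℕ) (F : ℕ → ℂ)
    (hp : ∀ j < m, ∀ τ : Mem, τ.nat = Function.update σ.nat v j →
      (∀ a', a' ≠ a → τ.num a' = σ.num a') → (τ.num a r (j + s) = σ.num a r (j + s)) →
      p.run τ = τ.setNum a r (j + s) (F j)) :
    (Cmd.loop v b p).run σ = σ.setArr a (fun x => if x = r then
      (fun y => if s ≤ y ∧ y < m + s then F (y - s) else σ.num a x y)
      else σ.num a x) := by
  have key : ∀ k ≤ m, iter (pass v p.run) k σ
      = σ.setArr a (fun x => if x = r then
      (fun y => if s ≤ y ∧ y < k + s then F (y - s) else σ.num a x y)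
      else σ.num a x) := by
    intro k hk
    induction k with
    | zero =>
      simp only [iter]
      refine Mem.ext' (by rfl) ?_
      funext a'
      by_cases ha : a' = a
      · subst ha
        simp only [setArr_num_same]
        funext x
        by_cases hx : x = r
        · simp only [hx, if_true]
          funext y
          rw [if_neg (by omega)]
        · simp [hx]
      · rw [setArr_num_ne _ ha]
    | succ k ih =>
      have ih' := ih (by omega)
      simp only [iter]
      rw [ih', pass, hp k (by omega)]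
      · apply Mem.ext'
        · simp
        · funext a'
          by_cases ha : a' = a
          · subst ha
            simp only [setNat_num, setArr_num_same, setNum_eq_setArr]
            funext x y
            by_cases hx : x = r
            · subst hx
              simp only [true_and, if_true]
              by_cases hy : y = k + s
              · subst hy
                rw [if_pos rfl, if_pos (by omega)]
                simp
              · rw [if_neg hy]
                by_cases hy2 : s ≤ y ∧ y < k + s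
                · rw [if_pos hy2, if_pos (by omega)]
                · rw [if_neg hy2, if_neg (by omega)]
            · simp [hx]
          · simp only [setNat_num, setNum_eq_setArr, setArr_num_ne _ ha]
      · simp
      · intro a' ha
        simp only [setNat_num, setArr_num_ne _ ha]
      · simp
  rw [Cmd.run, hm, key m le_rfl]

/-- loop whose pass `i` writes the entry `(i, g i)` of the array `a` only -/
lemma loop_col {v : ℕ} {b : NExp} {p : Cmd} {σ : Mem} {m : ℕ} (hm : b.eval σ.nat = m) (a : ℕ)
    (g : ℕ → ℕ) (F : ℕ → ℂ)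
    (hp : ∀ i < m, ∀ τ : Mem, τ.nat = Function.update σ.nat v i →
      (∀ a', a' ≠ a → τ.num a' = σ.num a') → τ.num a i = σ.num a i →
      p.run τ = τ.setNum a i (g i) (F i)) :
    (Cmd.loop v b p).run σ = σ.setArr a (fun x => if x < m then
      (fun y => if y = g x then F x else σ.num a x y) else σ.num a x) := by
  apply loop_rows hm a (fun x y => if y = g x then F x else σ.num a x y)
  intro i hi τ h1 h2 h3
  rw [hp i hi τ h1 h2 h3, setNum_eq_setArr]
  congr 1
  funext x y
  by_cases hx : x = i
  · subst hx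
    simp only [true_and, if_true, h3]
  · simp [hx]

/-- double loop writing the entries `(i, j + s)` of the array `a` -/
lemma loop2 {v w : ℕ} {bn bm ie je : NExp} {e : CExp} {σ : Mem} {m1 m2 : ℕ} (a s : ℕ)
    (F : ℕ → ℕ → ℂ)
    (h1 : bn.eval σ.nat = m1) (h2 : ∀ i, bm.eval (Function.update σ.nat v i) = m2)
    (hie : ∀ i j, ie.eval (Function.update (Function.update σ.nat v i) w j) = i)
    (hje : ∀ i j, je.eval (Function.update (Function.update σ.nat v i) w j) = j + s)
    (he : ∀ i < m1, ∀ j < m2, ∀ τ : Mem,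
      τ.nat = Function.update (Function.update σ.nat v i) w j →
      (∀ a', a' ≠ a → τ.num a' = σ.num a') → τ.num a i (j + s) = σ.num a i (j + s) →
      e.eval τ = F i j) :
    (Cmd.loop v bn (Cmd.loop w bm (Cmd.setC a ie je e))).run σ
      = σ.setArr a (fun x => if x < m1 then
        (fun y => if s ≤ y ∧ y < m2 + s then F x (y - s) else σ.num a x y) else σ.num a x) := by
  apply loop_rows h1 a
  intro i hi τ g1 g2 g3
  rw [loop_cells (m := m2) (by rw [g1]; exact h2 i) a i s (F i)]
  · congr 1
    funext x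
    by_cases hx : x = i
    · subst hx
      simp only [if_true, g3]
    · simp [hx]
  · intro j hj τ' k1 k2 k3
    rw [g1] at k1
    simp only [Cmd.run]
    rw [k1, hie, hje, he i hi j hj τ' k1 (fun a' ha => by rw [k2 a' ha, g2 a' ha])
      (by rw [k3, g3])]

/-- arrays written by a program -/
def Cmd.wr : Cmd → ℕ → Prop
  | .skip, _ => False
  | .setN _ _, _ => False
  | .setC a _ _ _, a' => a' = a
  | .seq p q, a' => p.wr a' ∨ q.wr a'
  | .ifN _ _ p q, a' => p.wr a' ∨ q.wr a'
  | .ifC _ _ p q, a' => p.wr a' ∨ q.wr a'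
  | .loop _ _ p, a' => p.wr a'

lemma iter_num_frame {f : ℕ → Mem → Mem} {a : ℕ} (hf : ∀ k σ, (f k σ).num a = σ.num a) (m : ℕ)
    (σ : Mem) : (iter f m σ).num a = σ.num a := by
  induction m with
  | zero => rfl
  | succ k ih => simp only [iter]; rw [hf, ih]

lemma Cmd.frame {p : Cmd} {a : ℕ} (ha : ¬ p.wr a) : ∀ σ, (p.run σ).num a = σ.num a := by
  induction p with
  | skip => intro σ; rfl
  | setN v e => intro σ; rfl
  | setC a' i j e =>
    intro σ
    have : a ≠ a' := ha
    funext x y
    simp [Cmd.run, Mem.setNum, this]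
  | seq p q ihp ihq =>
    intro σ
    simp only [Cmd.wr, not_or] at ha
    simp only [Cmd.run]
    rw [ihq ha.2, ihp ha.1]
  | ifN x y p q ihp ihq =>
    intro σ
    simp only [Cmd.wr, not_or] at ha
    simp only [Cmd.run]
    split_ifs
    · exact ihp ha.1 σ
    · exact ihq ha.2 σ
  | ifC x y p q ihp ihq =>
    intro σ
    simp only [Cmd.wr, not_or] at ha
    simp only [Cmd.run]
    split_ifs
    · exact ihp ha.1 σ
    · exact ihq ha.2 σ
  | loop v b p ih =>
    intro σ
    simp only [Cmd.wr] at ha
    simp only [Cmd.run]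
    apply iter_num_frame
    intro k τ
    exact ih ha _

/-! ### cost -/

/-- programs without assignments to index registers -/
def Cmd.pure : Cmd → Prop
  | .skip => True
  | .setN _ _ => False
  | .setC _ _ _ _ => True
  | .seq p q => p.pure ∧ q.pure
  | .ifN _ _ p q => p.pure ∧ q.pure
  | .ifC _ _ p q => p.pure ∧ q.pure
  | .loop _ _ p => p.pure

lemma pass_nat {v : ℕ} {f : Mem → Mem} (hf : ∀ σ, (f σ).nat = σ.nat) (k : ℕ) (σ : Mem) :
    (pass v f k σ).nat = σ.nat := by
  simp only [pass, setNat_nat, hf]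
  rw [Function.update_idem, Function.update_eq_self]

lemma iter_nat {v : ℕ} {f : Mem → Mem} (hf : ∀ σ, (f σ).nat = σ.nat) (k : ℕ) (σ : Mem) :
    (iter (pass v f) k σ).nat = σ.nat := by
  induction k with
  | zero => rfl
  | succ k ih => simp only [iter]; rw [pass_nat hf, ih]

lemma Cmd.pure_nat {p : Cmd} (hp : p.pure) : ∀ σ, (p.run σ).nat = σ.nat := by
  induction p with
  | skip => intro σ; rfl
  | setN v e => exact absurd hp (by simp [Cmd.pure])
  | setC a i j e => intro σ; rfl
  | seq p q ihp ihq =>
    intro σ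
    simp only [Cmd.run]
    rw [ihq hp.2, ihp hp.1]
  | ifN x y p q ihp ihq =>
    intro σ
    simp only [Cmd.run]
    split_ifs
    · exact ihp hp.1 σ
    · exact ihq hp.2 σ
  | ifC x y p q ihp ihq =>
    intro σ
    simp only [Cmd.run]
    split_ifs
    · exact ihp hp.1 σ
    · exact ihq hp.2 σ
  | loop v b p ih =>
    intro σ
    simp only [Cmd.run]
    exact iter_nat (ih hp) _ σ

/-- static upper bound for the cost of a pure program -/
def Cmd.ub : Cmd → (ℕ → ℕ) → ℕ
  | .skip, _ => 1
  | .setN _ e, _ => e.cost + 1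
  | .setC _ i j e, _ => i.cost + j.cost + e.cost + 1
  | .seq p q, ρ => p.ub ρ + q.ub ρ
  | .ifN x y p q, ρ => x.cost + y.cost + 1 + (p.ub ρ + q.ub ρ)
  | .ifC x y p q, ρ => x.cost + y.cost + 1 + (p.ub ρ + q.ub ρ)
  | .loop v b p, ρ => b.cost + 1 + ∑ k ∈ Finset.range (b.eval ρ), (p.ub (Function.update ρ v k) + 1)

lemma Cmd.cost_le_ub {p : Cmd} (hp : p.pure) : ∀ σ, p.cost σ ≤ p.ub σ.nat := by
  induction p with
  | skip => intro σ; exact le_rfl
  | setN v e => exact absurd hp (by simp [Cmd.pure])
  | setC a i j e => intro σ; exact le_rfl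
  | seq p q ihp ihq =>
    intro σ
    simp only [Cmd.cost, Cmd.ub]
    have h1 := ihp hp.1 σ
    have h2 := ihq hp.2 (p.run σ)
    rw [Cmd.pure_nat hp.1] at h2
    omega
  | ifN x y p q ihp ihq =>
    intro σ
    simp only [Cmd.cost, Cmd.ub]
    have h1 := ihp hp.1 σ
    have h2 := ihq hp.2 σ
    split_ifs <;> omega
  | ifC x y p q ihp ihq =>
    intro σ
    simp only [Cmd.cost, Cmd.ub]
    have h1 := ihp hp.1 σ
    have h2 := ihq hp.2 σ
    split_ifs <;> omega
  | loop v b p ih =>
    intro σ
    simp only [Cmd.cost, Cmd.ub]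
    apply Nat.add_le_add_left
    apply Finset.sum_le_sum
    intro k _
    apply Nat.add_le_add_right
    have h1 := ih hp ((iter (pass v p.run) k σ).setNat v k)
    rwa [setNat_nat, iter_nat (Cmd.pure_nat (p := p) hp)] at h1

lemma Cmd.cost_loop_le {v : ℕ} {b : NExp} {p : Cmd} {B : ℕ} (hB : ∀ τ, p.cost τ ≤ B) (σ : Mem) :
    (Cmd.loop v b p).cost σ ≤ b.cost + 1 + b.eval σ.nat * (B + 1) := by
  simp only [Cmd.cost]
  apply Nat.add_le_add_left
  calc _ ≤ ∑ _k ∈ Finset.range (b.eval σ.nat), (B + 1) := by
        apply Finset.sum_le_sum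
        intro k _
        exact Nat.add_le_add_right (hB _) 1
    _ = _ := by simp

end Pool.Agent.Lib.MP_26b317_lc
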