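import Mathlib
import Pool.Agent.Lib.MP_26b317_lc.RAM
import Pool.Agent.Lib.MP_26b317_lc.Elim
import Pool.Agent.Lib.MP_26b317_lc.Core

/-!
The program computing the squared modulus of the determinant of diagonals of powers of a
tridiagonal matrix, and its correctness.
-/

open Matrix

namespace Pool.Agent.Lib.MP_26b317_lc

/-- entry `(0,0)` of array `a`, used as a numerical register -/
def sc (a : ℕ) : CExp := .get a (.lit 0) (.lit 0)

/-- assignment to the numerical register `a` -/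
def setS (a : ℕ) (e : CExp) : Cmd := .setC a (.lit 0) (.lit 0) e

/-- `dd[i] := A[i][i] + z X[i]` -/
def D1 : Cmd := .loop 4 (.var 0) (.setC 12 (.var 4) (.lit 0)
  (.add (.get 0 (.var 4) (.var 4)) (.mul (sc 23) (.get 3 (.var 4) (.lit 0)))))

/-- `P := 0` -/
def D2a : Cmd := .loop 4 (.var 0) (.loop 5 (.add (.var 0) (.lit 2))
  (.setC 6 (.var 4) (.var 5) (.lit 0)))

/-- diagonal of `P := 1` (columns are shifted by one) -/
def D2b : Cmd := .loop 4 (.var 0) (.setC 6 (.var 4) (.add (.var 4) (.lit 1)) (.lit 1))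

/-- `G[k][i] := P[i][i]` -/
def D3a : Cmd := .loop 4 (.var 0) (.setC 8 (.var 6) (.var 4)
  (.get 6 (.var 4) (.add (.var 4) (.lit 1))))

/-- `Q := P N` -/
def D3b : Cmd := .loop 4 (.var 0) (.loop 5 (.var 0) (.setC 7 (.var 4) (.add (.var 5) (.lit 1))
  (.add (.add (.get 6 (.var 4) (.var 5))
    (.mul (.get 6 (.var 4) (.add (.var 5) (.lit 1))) (.get 12 (.var 5) (.lit 0))))
    (.mul (.get 6 (.var 4) (.add (.var 5) (.lit 2))) (.get 4 (.var 5) (.lit 0))))))

/-- `P := Q` -/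
def D3c : Cmd := .loop 4 (.var 0) (.loop 5 (.var 0) (.setC 6 (.var 4) (.add (.var 5) (.lit 1))
  (.get 7 (.var 4) (.add (.var 5) (.lit 1)))))

def D3body : Cmd := .seq D3a (.seq D3b D3c)

/-- all powers -/
def D3 : Cmd := .loop 6 (.var 0) D3body

/-- `W := 0` -/
def D4a : Cmd := .loop 4 (.var 0) (.loop 5 (.var 0) (.setC 9 (.var 4) (.var 5) (.lit 0)))

/-- `W[i][j] := W[i][j] + conj G[k][i] G[k][j]` -/
def D4b : Cmd := .loop 4 (.var 0) (.loop 5 (.var 0) (.setC 9 (.var 4) (.var 5)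
  (.add (.get 9 (.var 4) (.var 5))
    (.mul (.conj (.get 8 (.var 6) (.var 4))) (.get 8 (.var 6) (.var 5))))))

def D4 : Cmd := .seq D4a (.loop 6 (.var 0) D4b)

/-- `R := W[j]` -/
def D5a : Cmd := .loop 4 (.var 0) (.setC 11 (.var 4) (.lit 0) (.get 9 (.var 5) (.var 4)))

/-- multipliers -/
def D5b : Cmd := .loop 4 (.var 0) (.ifN (.var 5) (.var 4)
  (.setC 10 (.var 4) (.lit 0) (.div (.get 9 (.var 4) (.var 5)) (.get 9 (.var 5) (.var 5))))
  (.setC 10 (.var 4) (.lit 0) (.lit 0)))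

/-- row operations -/
def D5c : Cmd := .loop 4 (.var 0) (.loop 6 (.var 0) (.setC 9 (.var 4) (.var 6)
  (.sub (.get 9 (.var 4) (.var 6)) (.mul (.get 10 (.var 4) (.lit 0)) (.get 11 (.var 6) (.lit 0))))))

def D5body (o : ℕ) : Cmd := .seq (setS o (.mul (sc o) (.get 9 (.var 5) (.var 5))))
  (.seq D5a (.seq D5b D5c))

def D5 (o : ℕ) : Cmd := .seq (setS o (.lit 1)) (.loop 5 (.var 0) (D5body o))

/-- register `o` becomes the squared modulus of the determinant -/
def detsq (o : ℕ) : Cmd := .seq D1 (.seq (.seq D2a D2b) (.seq D3 (.seq D4 (D5 o))))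

lemma detsq_pure (o : ℕ) : (detsq o).pure := by
  simp [detsq, D1, D2a, D2b, D3, D3body, D3a, D3b, D3c, D4, D4a, D4b, D5, D5body, D5a, D5b, D5c,
    Cmd.pure, setS]

/-! ### the nonsymmetric tridiagonal matrix -/

/-- tridiagonal matrix with diagonal `d`, superdiagonal `1`, subdiagonal `β` -/
def Nm (n : ℕ) (d β : ℕ → ℂ) : Matrix (Fin n) (Fin n) ℂ := fun i j =>
  if (j : ℕ) = i then d i else if (j : ℕ) = i + 1 then 1 else if (i : ℕ) = j + 1 then β j else 0

/-- padding by zero columns -/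
def pad {n : ℕ} (M : Matrix (Fin n) (Fin n) ℂ) (i y : ℕ) : ℂ :=
  if h : i < n ∧ 1 ≤ y ∧ y - 1 < n then M ⟨i, h.1⟩ ⟨y - 1, h.2.2⟩ else 0

lemma pad_step {n : ℕ} (M : Matrix (Fin n) (Fin n) ℂ) (d β : ℕ → ℂ) (i j : Fin n) :
    pad M i j + pad M i (j + 1) * d j + pad M i (j + 2) * β j = (M * Nm n d β) i j := by
  rw [Matrix.mul_apply]
  have h1 : ∀ l : Fin n, M i l * Nm n d β l j
      = (if (l : ℕ) + 1 = j then M i l else 0) + (if l = j then M i l * d j else 0)
        + (if (l : ℕ) = j + 1 then M i l * β j else 0) := by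
    intro l
    simp only [Nm]
    by_cases a1 : (j : ℕ) = l
    · have a2 : l = j := Fin.ext a1.symm
      subst a2
      simp
    · rw [if_neg a1]
      have a1' : l ≠ j := fun h => a1 (by rw [h])
      rw [if_neg a1']
      by_cases a3 : (j : ℕ) = l + 1
      · have b1 : (l : ℕ) + 1 = j := a3.symm
        have b2 : ¬ (l : ℕ) = j + 1 := by omega
        simp only [if_pos a3, if_pos b1, if_neg b2]; ring
      · have b1 : ¬ (l : ℕ) + 1 = j := fun h => a3 h.symm
        by_cases a4 : (l : ℕ) = j + 1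
        · simp only [if_neg a3, if_neg b1, if_pos a4]; ring
        · simp only [if_neg a3, if_neg b1, if_neg a4]; ring
  simp_rw [h1, Finset.sum_add_distrib]
  have e2 : ∑ l : Fin n, (if l = j then M i l * d j else 0) = pad M i (j + 1) * d j := by
    rw [Finset.sum_ite_eq' Finset.univ j]
    simp [pad]
  have e1 : ∑ l : Fin n, (if (l : ℕ) + 1 = j then M i l else 0) = pad M i j := by
    by_cases hj : 1 ≤ (j : ℕ)
    · rw [Finset.sum_eq_single (⟨(j : ℕ) - 1, by omega⟩ : Fin n)]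
      · have h0 : (j : ℕ) - 1 + 1 = j := by omega
        have h2 : (i : ℕ) < n ∧ 1 ≤ (j : ℕ) ∧ (j : ℕ) - 1 < n := ⟨i.isLt, hj, by omega⟩
        simp only [h0, if_true, pad, dif_pos h2]
      · intro l _ hl
        rw [if_neg]
        intro h
        apply hl
        apply Fin.ext
        simp only
        omega
      · intro h; exact absurd (Finset.mem_univ _) h
    · rw [Finset.sum_eq_zero]
      · simp [pad, hj]
      · intro l _
        rw [if_neg (by omega)]
  have e3 : ∑ l : Fin n, (if (l : ℕ) = j + 1 then M i l * β j else 0) = pad M i (j + 2) * β j := by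
    by_cases hj : (j : ℕ) + 1 < n
    · rw [Finset.sum_eq_single (⟨(j : ℕ) + 1, hj⟩ : Fin n)]
      · have h2 : (i : ℕ) < n ∧ 1 ≤ (j : ℕ) + 2 ∧ (j : ℕ) + 2 - 1 < n := ⟨i.isLt, by omega, by omega⟩
        simp only [if_true, pad, dif_pos h2]
        rfl
      · intro l _ hl
        rw [if_neg]
        intro h
        exact hl (Fin.ext h)
      · intro h; exact absurd (Finset.mem_univ _) h
    · rw [Finset.sum_eq_zero]
      · have : ¬ ((i : ℕ) < n ∧ 1 ≤ (j : ℕ) + 2 ∧ (j : ℕ) + 2 - 1 < n) := by omega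
        simp only [pad, dif_neg this, zero_mul]
      · intro l _
        rw [if_neg (by have := l.isLt; omega)]
  rw [e1, e2, e3]

/-! ### specifications of the pieces -/

lemma D1_spec (σ : Mem) (n : ℕ) (hn : σ.nat 0 = n) (x : ℕ) (hx : x < n) :
    (D1.run σ).num 12 x 0 = σ.num 0 x x + σ.num 23 0 0 * σ.num 3 x 0 := by
  rw [D1, loop_col (m := n) (by simp [NExp.eval, hn]) 12 (fun _ => 0)
    (fun i => σ.num 0 i i + σ.num 23 0 0 * σ.num 3 i 0)]
  · simp [hx]
  · intro i hi τ h1 h2 h3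
    simp [Cmd.run, CExp.eval, NExp.eval, h1, sc, h2]

lemma D2a_spec (σ : Mem) (n : ℕ) (hn : σ.nat 0 = n) :
    D2a.run σ = σ.setArr 6 (fun x => if x < n then
      (fun y => if 0 ≤ y ∧ y < (n + 2) + 0 then 0 else σ.num 6 x y) else σ.num 6 x) := by
  rw [D2a]
  apply loop2 6 0 (fun _ _ => 0)
  · simp [NExp.eval, hn]
  · intro i; simp [NExp.eval, hn]
  · intro i j; simp [NExp.eval]
  · intro i j; simp [NExp.eval]
  · intro i _ j _ τ _ _ _
    simp [CExp.eval]

lemma D2_spec (σ : Mem) (n : ℕ) (hn : σ.nat 0 = n) (x y : ℕ) (hx : x < n) (hy : y < n + 2) :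
    ((Cmd.seq D2a D2b).run σ).num 6 x y = pad (1 : Matrix (Fin n) (Fin n) ℂ) x y := by
  rw [Cmd.run, D2a_spec σ n hn, D2b, loop_col (m := n) (by simp [NExp.eval, hn]) 6
    (fun i => i + 1) (fun _ => 1)]
  · simp only [setArr_num_same, hx, if_true]
    by_cases h : y = x + 1
    · have h2 : x < n ∧ 1 ≤ y ∧ y - 1 < n := by omega
      have h3 : y - 1 = x := by omega
      have h4 : (⟨y - 1, h2.2.2⟩ : Fin n) = ⟨x, h2.1⟩ := Fin.ext h3
      rw [if_pos h, pad, dif_pos h2, h4, Matrix.one_apply_eq]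
    · rw [if_neg h, if_pos (by omega), pad]
      by_cases h2 : x < n ∧ 1 ≤ y ∧ y - 1 < n
      · rw [dif_pos h2, Matrix.one_apply_ne]
        intro h3
        have := congrArg Fin.val h3
        dsimp only at this
        omega
      · rw [dif_neg h2]
  · intro i hi τ h1 h2 h3
    simp [Cmd.run, CExp.eval, NExp.eval, h1]

lemma D3a_spec (σ : Mem) (n k : ℕ) (hn : σ.nat 0 = n) (hk : σ.nat 6 = k) :
    D3a.run σ = σ.setArr 8 (fun x => if x = k then
      (fun y => if 0 ≤ y ∧ y < n + 0 then σ.num 6 (y - 0) (y - 0 + 1) else σ.num 8 x y)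
      else σ.num 8 x) := by
  rw [D3a]
  apply loop_cells (m := n) (by simp [NExp.eval, hn]) 8 k 0 (fun j => σ.num 6 j (j + 1))
  intro j hj τ h1 h2 h3
  simp [Cmd.run, CExp.eval, NExp.eval, h1, h2, hk]

lemma D3b_spec (σ : Mem) (n : ℕ) (hn : σ.nat 0 = n) :
    D3b.run σ = σ.setArr 7 (fun x => if x < n then
      (fun y => if 1 ≤ y ∧ y < n + 1 then σ.num 6 x (y - 1) + σ.num 6 x (y - 1 + 1)
        * σ.num 12 (y - 1) 0 + σ.num 6 x (y - 1 + 2) * σ.num 4 (y - 1) 0 else σ.num 7 x y)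
      else σ.num 7 x) := by
  rw [D3b]
  apply loop2 7 1 (fun x j => σ.num 6 x j + σ.num 6 x (j + 1)
        * σ.num 12 j 0 + σ.num 6 x (j + 2) * σ.num 4 j 0)
  · simp [NExp.eval, hn]
  · intro i; simp [NExp.eval, hn]
  · intro i j; simp [NExp.eval]
  · intro i j; simp [NExp.eval]
  · intro i _ j _ τ h1 h2 h3
    simp [CExp.eval, NExp.eval, h1, h2]

lemma D3c_spec (σ : Mem) (n : ℕ) (hn : σ.nat 0 = n) :
    D3c.run σ = σ.setArr 6 (fun x => if x < n then
      (fun y => if 1 ≤ y ∧ y < n + 1 then σ.num 7 x (y - 1 + 1) else σ.num 6 x y)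
      else σ.num 6 x) := by
  rw [D3c]
  apply loop2 6 1 (fun x j => σ.num 7 x (j + 1))
  · simp [NExp.eval, hn]
  · intro i; simp [NExp.eval, hn]
  · intro i j; simp [NExp.eval]
  · intro i j; simp [NExp.eval]
  · intro i _ j _ τ h1 h2 h3
    simp [CExp.eval, NExp.eval, h1, h2]

lemma D3body_spec (σ : Mem) (n k : ℕ) (hn : σ.nat 0 = n) (hk : σ.nat 6 = k)
    (M : Matrix (Fin n) (Fin n) ℂ) (d β : ℕ → ℂ)
    (hM : ∀ x y, x < n → y < n + 2 → σ.num 6 x y = pad M x y)
    (hd : ∀ j, j < n → σ.num 12 j 0 = d j) (hβ : ∀ j, j < n → σ.num 4 j 0 = β j) :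
    (∀ x y, x < n → y < n + 2 → (D3body.run σ).num 6 x y = pad (M * Nm n d β) x y) ∧
    (∀ x (hx : x < n), (D3body.run σ).num 8 k x = M ⟨x, hx⟩ ⟨x, hx⟩) ∧
    (∀ k' x, k' ≠ k → (D3body.run σ).num 8 k' x = σ.num 8 k' x) := by
  rw [D3body, Cmd.run, Cmd.run, D3a_spec σ n k hn hk, D3b_spec _ n (by simpa using hn),
    D3c_spec _ n (by simpa using hn)]
  refine ⟨?_, ?_, ?_⟩
  · intro x y hx hy
    simp only [setArr_num_same, hx, if_true]
    by_cases h : 1 ≤ y ∧ y < n + 1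
    · rw [if_pos h]
      rw [setArr_num_ne _ (by norm_num), setArr_num_ne _ (by norm_num),
        setArr_num_ne _ (by norm_num)]
      rw [if_pos (by omega)]
      have e : y - 1 + 1 - 1 = y - 1 := by omega
      rw [e, hM x _ hx (by omega), hM x _ hx (by omega), hM x _ hx (by omega),
        hd _ (by omega), hβ _ (by omega)]
      have h4 := pad_step M d β ⟨x, hx⟩ ⟨y - 1, by omega⟩
      simp only at h4
      rw [h4]
      have h2 : x < n ∧ 1 ≤ y ∧ y - 1 < n := by omega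
      rw [pad, dif_pos h2]
    · rw [if_neg h]
      rw [setArr_num_ne _ (by norm_num), setArr_num_ne _ (by norm_num), hM x y hx hy]
      have h2 : ¬ (x < n ∧ 1 ≤ y ∧ y - 1 < n) := by omega
      rw [pad, pad, dif_neg h2, dif_neg h2]
  · intro x hx
    rw [setArr_num_ne _ (by norm_num), setArr_num_ne _ (by norm_num)]
    simp only [setArr_num_same, if_true]
    rw [if_pos (by omega), hM _ _ (by omega) (by omega)]
    have h2 : x - 0 < n ∧ 1 ≤ x - 0 + 1 ∧ x - 0 + 1 - 1 < n := by omega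
    rw [pad, dif_pos h2]
    rfl
  · intro k' x hk'
    rw [setArr_num_ne _ (by norm_num), setArr_num_ne _ (by norm_num)]
    simp only [setArr_num_same, if_neg hk']

lemma D3_spec (σ : Mem) (n : ℕ) (hn : σ.nat 0 = n) (d β : ℕ → ℂ)
    (hM : ∀ x y, x < n → y < n + 2 → σ.num 6 x y = pad (1 : Matrix (Fin n) (Fin n) ℂ) x y)
    (hd : ∀ j, j < n → σ.num 12 j 0 = d j) (hβ : ∀ j, j < n → σ.num 4 j 0 = β j) :
    ∀ k x : Fin n, (D3.run σ).num 8 k x = diagPow (Nm n d β) k x := by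
  have hpure : D3body.pure := by
    simp [D3body, D3a, D3b, D3c, Cmd.pure]
  have hwr : ∀ a, a ≠ 8 → a ≠ 7 → a ≠ 6 → ¬ D3body.wr a := by
    intro a h8 h7 h6
    simp [D3body, D3a, D3b, D3c, Cmd.wr, h8, h7, h6]
  have key := loop_inv (P := fun k τ => τ.nat = σ.nat ∧
      (∀ j, j < n → τ.num 12 j 0 = d j) ∧ (∀ j, j < n → τ.num 4 j 0 = β j) ∧
      (∀ x y, x < n → y < n + 2 → τ.num 6 x y = pad ((Nm n d β) ^ k) x y) ∧
      (∀ (k' : ℕ) (x : ℕ) (hx : x < n), k' < k →
        τ.num 8 k' x = ((Nm n d β) ^ k') ⟨x, hx⟩ ⟨x, hx⟩))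
    (v := 6) (b := .var 0) (p := D3body) (σ := σ) (m := n) (by simp [NExp.eval, hn])
    ⟨rfl, hd, hβ, by simpa using hM, by intro k' x hx h; omega⟩ (by
      intro k hk τ ⟨h1, h2, h3, h4, h5⟩
      have hf : ∀ a, a ≠ 8 → a ≠ 7 → a ≠ 6 →
          (pass 6 D3body.run k τ).num a = τ.num a := by
        intro a a8 a7 a6
        simp only [pass, setNat_num]
        rw [Cmd.frame (hwr a a8 a7 a6)]
        rfl
      obtain ⟨g1, g2, g3⟩ := D3body_spec (τ.setNat 6 k) n k (by simp [h1, hn]) (by simp)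
        ((Nm n d β) ^ k) d β h4 h2 h3
      refine ⟨?_, ?_, ?_, ?_, ?_⟩
      · rw [pass_nat (Cmd.pure_nat hpure), h1]
      · intro j hj; rw [hf 12 (by norm_num) (by norm_num) (by norm_num)]; exact h2 j hj
      · intro j hj; rw [hf 4 (by norm_num) (by norm_num) (by norm_num)]; exact h3 j hj
      · intro x y hx hy
        simp only [pass, setNat_num]
        rw [g1 x y hx hy, pow_succ]
      · intro k' x hx hk'
        simp only [pass, setNat_num]
        by_cases hkk : k' = k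
        · subst hkk
          rw [g2 x hx]
        · rw [g3 k' x hkk]
          exact h5 k' x hx (by omega))
  intro k x
  exact key.2.2.2.2 k x x.isLt k.isLt

lemma D4a_spec (σ : Mem) (n : ℕ) (hn : σ.nat 0 = n) :
    D4a.run σ = σ.setArr 9 (fun x => if x < n then
      (fun y => if 0 ≤ y ∧ y < n + 0 then 0 else σ.num 9 x y) else σ.num 9 x) := by
  rw [D4a]
  apply loop2 9 0 (fun _ _ => 0)
  · simp [NExp.eval, hn]
  · intro i; simp [NExp.eval, hn]
  · intro i j; simp [NExp.eval]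
  · intro i j; simp [NExp.eval]
  · intro i _ j _ τ _ _ _
    simp [CExp.eval]

lemma D4b_spec (σ : Mem) (n k : ℕ) (hn : σ.nat 0 = n) (hk : σ.nat 6 = k) :
    D4b.run σ = σ.setArr 9 (fun x => if x < n then
      (fun y => if 0 ≤ y ∧ y < n + 0 then σ.num 9 x (y - 0)
        + star (σ.num 8 k x) * σ.num 8 k (y - 0) else σ.num 9 x y) else σ.num 9 x) := by
  rw [D4b]
  apply loop2 9 0 (fun x j => σ.num 9 x j + star (σ.num 8 k x) * σ.num 8 k j)
  · simp [NExp.eval, hn]
  · intro i; simp [NExp.eval, hn]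
  · intro i j; simp [NExp.eval]
  · intro i j; simp [NExp.eval]
  · intro i _ j _ τ h1 h2 h3
    rw [add_zero] at h3
    simp [CExp.eval, NExp.eval, h1, h2, hk, h3]

lemma D4_spec (σ : Mem) (n : ℕ) (hn : σ.nat 0 = n) (G : Matrix (Fin n) (Fin n) ℂ)
    (hG : ∀ k x : Fin n, σ.num 8 k x = G k x) :
    ∀ x y : Fin n, (D4.run σ).num 9 x y = (Gᴴ * G) x y := by
  have hpure : D4b.pure := by simp [D4b, Cmd.pure]
  have key := loop_inv (P := fun k τ => τ.nat = σ.nat ∧ (∀ k x : Fin n, τ.num 8 k x = G k x) ∧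
      (∀ x y : Fin n, τ.num 9 x y
        = ∑ l : Fin n, if (l : ℕ) < k then star (G l x) * G l y else 0))
    (v := 6) (b := .var 0) (p := D4b) (σ := D4a.run σ) (m := n)
    (by rw [D4a_spec σ n hn]; simp [NExp.eval, hn])
    (by
      rw [D4a_spec σ n hn]
      refine ⟨by simp, ?_, ?_⟩
      · intro k x
        rw [setArr_num_ne _ (by norm_num)]
        exact hG k x
      · intro x y
        simp) (by
      intro k hk τ ⟨h1, h2, h3⟩
      have hs := D4b_spec (τ.setNat 6 k) n k (by simp [h1, hn]) (by simp)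
      refine ⟨?_, ?_, ?_⟩
      · rw [pass_nat (Cmd.pure_nat hpure), h1]
      · intro k' x
        simp only [pass, setNat_num]
        rw [hs, setArr_num_ne _ (by norm_num)]
        exact h2 k' x
      · intro x y
        simp only [pass, setNat_num]
        rw [hs]
        simp only [setArr_num_same, setNat_num, x.isLt, if_true, y.isLt, Nat.zero_le, true_and,
          add_zero, Nat.sub_zero]
        rw [h3]
        have e1 : τ.num 8 k x = G ⟨k, hk⟩ x := h2 ⟨k, hk⟩ x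
        have e2 : τ.num 8 k y = G ⟨k, hk⟩ y := h2 ⟨k, hk⟩ y
        rw [e1, e2]
        have e3 : ∀ l : Fin n, (if (l : ℕ) < k + 1 then star (G l x) * G l y else 0)
            = (if (l : ℕ) < k then star (G l x) * G l y else 0)
              + (if l = ⟨k, hk⟩ then star (G l x) * G l y else 0) := by
          intro l
          by_cases a1 : (l : ℕ) < k
          · have a2 : l ≠ ⟨k, hk⟩ := by
              intro h; rw [h] at a1; simp at a1
            rw [if_pos a1, if_pos (by omega), if_neg a2, add_zero]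
          · by_cases a2 : l = ⟨k, hk⟩
            · rw [if_neg a1, if_pos a2, zero_add, if_pos (by rw [a2]; simp)]
            · have a3 : (l : ℕ) ≠ k := fun h => a2 (Fin.ext h)
              rw [if_neg a1, if_neg a2, if_neg (by omega), add_zero]
        simp_rw [e3, Finset.sum_add_distrib]
        rw [Finset.sum_ite_eq' Finset.univ (⟨k, hk⟩ : Fin n)]
        simp)
  intro x y
  have h1 : (D4.run σ) = (Cmd.loop 6 (.var 0) D4b).run (D4a.run σ) := rfl
  rw [h1, key.2.2 x y, Matrix.mul_apply]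
  apply Finset.sum_congr rfl
  intro l _
  rw [if_pos l.isLt, Matrix.conjTranspose_apply]

lemma D5a_spec (σ : Mem) (n j : ℕ) (hn : σ.nat 0 = n) (hj : σ.nat 5 = j) :
    D5a.run σ = σ.setArr 11 (fun x => if x < n then
      (fun y => if y = 0 then σ.num 9 j x else σ.num 11 x y) else σ.num 11 x) := by
  rw [D5a]
  apply loop_col (m := n) (by simp [NExp.eval, hn]) 11 (fun _ => 0) (fun i => σ.num 9 j i)
  intro i hi τ h1 h2 h3
  simp [Cmd.run, CExp.eval, NExp.eval, h1, h2, hj]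

lemma D5b_spec (σ : Mem) (n j : ℕ) (hn : σ.nat 0 = n) (hj : σ.nat 5 = j) :
    D5b.run σ = σ.setArr 10 (fun x => if x < n then
      (fun y => if y = 0 then (if j < x then σ.num 9 x j / σ.num 9 j j else 0)
        else σ.num 10 x y) else σ.num 10 x) := by
  rw [D5b]
  apply loop_col (m := n) (by simp [NExp.eval, hn]) 10 (fun _ => 0)
    (fun i => if j < i then σ.num 9 i j / σ.num 9 j j else 0)
  intro i hi τ h1 h2 h3
  simp only [Cmd.run, CExp.eval, NExp.eval, h1]
  by_cases h : j < i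
  · simp [hj, h, h2]
  · simp [hj, h]

lemma D5c_spec (σ : Mem) (n : ℕ) (hn : σ.nat 0 = n) :
    D5c.run σ = σ.setArr 9 (fun x => if x < n then
      (fun y => if 0 ≤ y ∧ y < n + 0 then σ.num 9 x (y - 0)
        - σ.num 10 x 0 * σ.num 11 (y - 0) 0 else σ.num 9 x y) else σ.num 9 x) := by
  rw [D5c]
  apply loop2 9 0 (fun x j => σ.num 9 x j - σ.num 10 x 0 * σ.num 11 j 0)
  · simp [NExp.eval, hn]
  · intro i; simp [NExp.eval, hn]
  · intro i j; simp [NExp.eval]
  · intro i j; simp [NExp.eval]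
  · intro i _ j _ τ h1 h2 h3
    rw [add_zero] at h3
    simp [CExp.eval, NExp.eval, h1, h2, h3]

lemma D5body_spec (σ : Mem) (o n j : ℕ) (ho : o ≠ 9 ∧ o ≠ 10 ∧ o ≠ 11) (hn : σ.nat 0 = n)
    (hj : σ.nat 5 = j) (_hjn : j < n) :
    (∀ x y, x < n → y < n → ((D5body o).run σ).num 9 x y
      = σ.num 9 x y - (if j < x then σ.num 9 x j / σ.num 9 j j else 0) * σ.num 9 j y) ∧
    ((D5body o).run σ).num o 0 0 = σ.num o 0 0 * σ.num 9 j j := by
  obtain ⟨ho9, ho10, ho11⟩ := ho
  have h0 : (setS o (.mul (sc o) (.get 9 (.var 5) (.var 5)))).run σ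
      = σ.setArr o (fun x y => if x = 0 ∧ y = 0 then σ.num o 0 0 * σ.num 9 j j
        else σ.num o x y) := by
    simp only [setS, Cmd.run, CExp.eval, NExp.eval, sc, setNum_eq_setArr, hj]
  rw [D5body, Cmd.run, Cmd.run, Cmd.run, h0, D5a_spec _ n j (by simpa using hn) (by simpa using hj),
    D5b_spec _ n j (by simpa using hn) (by simpa using hj), D5c_spec _ n (by simpa using hn)]
  constructor
  · intro x y hx hy
    rw [setArr_num_same]
    simp only [hx, if_true, Nat.zero_le, true_and, add_zero, hy, Nat.sub_zero]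
    rw [setArr_num_ne _ (show (9 : ℕ) ≠ 10 by norm_num),
      setArr_num_ne _ (show (9 : ℕ) ≠ 11 by norm_num), setArr_num_ne _ (fun h => ho9 h.symm)]
    rw [setArr_num_ne _ (show (11 : ℕ) ≠ 10 by norm_num)]
    simp only [setArr_num_same, hx, hy, if_true]
  · rw [setArr_num_ne _ ho9, setArr_num_ne _ ho10, setArr_num_ne _ ho11]
    simp

lemma D5_spec (σ : Mem) (o n : ℕ) (ho : o ≠ 9 ∧ o ≠ 10 ∧ o ≠ 11) (hn : σ.nat 0 = n)
    (G : Matrix (Fin n) (Fin n) ℂ) (hG : G.det ≠ 0)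
    (hW : ∀ x y : Fin n, σ.num 9 x y = (Gᴴ * G) x y) :
    ((D5 o).run σ).num o 0 0 = (Complex.normSq G.det : ℂ) := by
  have hpure : (D5body o).pure := by simp [D5body, D5a, D5b, D5c, Cmd.pure, setS]
  -- the sequence of memories
  set σ0 : Mem := (setS o (.lit 1)).run σ with hσ0
  have hσ0' : σ0 = σ.setArr o (fun x y => if x = 0 ∧ y = 0 then 1 else σ.num o x y) := by
    rw [hσ0]
    simp only [setS, Cmd.run, CExp.eval, NExp.eval, setNum_eq_setArr, Nat.cast_one]
  set S : ℕ → Mem := fun k => iter (pass 5 (D5body o).run) k σ0 with hS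
  have hS0 : S 0 = σ0 := rfl
  have hSs : ∀ k, S (k + 1) = pass 5 (D5body o).run k (S k) := fun k => rfl
  have hSnat : ∀ k, (S k).nat = σ.nat := by
    intro k
    rw [hS]
    simp only
    rw [iter_nat (Cmd.pure_nat hpure), hσ0']
    rfl
  have hstep : ∀ k (hk : k < n), (∀ x y, x < n → y < n → (S (k + 1)).num 9 x y
      = (S k).num 9 x y - (if k < x then (S k).num 9 x k / (S k).num 9 k k else 0)
        * (S k).num 9 k y) ∧ (S (k + 1)).num o 0 0 = (S k).num o 0 0 * (S k).num 9 k k := by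
    intro k hk
    have := D5body_spec ((S k).setNat 5 k) o n k ho (by simp [hSnat, hn]) (by simp) hk
    simpa [hSs, pass] using this
  set W : ℕ → Matrix (Fin n) (Fin n) ℂ := fun k => fun x y => (S k).num 9 x y with hWdef
  have hW0 : W 0 = Gᴴ * G := by
    ext x y
    change (S 0).num 9 x y = _
    rw [hS0, hσ0', setArr_num_ne _ (fun h => ho.1 h.symm)]
    exact hW x y
  have hres := elim_correct hG W hW0 (by
    intro j i k
    exact (hstep j j.isLt).1 i k i.isLt k.isLt)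
  have hprod : ∀ k ≤ n, (S k).num o 0 0 = ∏ i ∈ Finset.range k, (S k).num 9 i i := by
    intro k
    induction k with
    | zero =>
      intro _
      rw [hS0, hσ0']
      simp
    | succ k ih =>
      intro hk
      rw [(hstep k (by omega)).2, ih (by omega), Finset.prod_range_succ]
      congr 1
      · apply Finset.prod_congr rfl
        intro i hi
        rw [Finset.mem_range] at hi
        rw [(hstep k (by omega)).1 i i (by omega) (by omega), if_neg (by omega)]
        ring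
      · rw [(hstep k (by omega)).1 k k (by omega) (by omega), if_neg (by omega)]
        ring
  have hfin : ((D5 o).run σ) = S n := by
    rw [D5, Cmd.run, ← hσ0]
    simp only [Cmd.run, NExp.eval, hS]
    congr 1
  rw [hfin, hprod n le_rfl, Finset.prod_range]
  exact hres

/-- Correctness of `detsq`. -/
theorem detsq_spec (σ : Mem) (o n : ℕ)
    (ho : o ≠ 0 ∧ o ≠ 3 ∧ o ≠ 4 ∧ o ≠ 6 ∧ o ≠ 7 ∧ o ≠ 8 ∧ o ≠ 9 ∧ o ≠ 10 ∧ o ≠ 11 ∧ o ≠ 12)
    (hn : σ.nat 0 = n)
    (hdet : (diagPow (Nm n (fun j => σ.num 0 j j + σ.num 23 0 0 * σ.num 3 j 0)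
      (fun j => σ.num 4 j 0))).det ≠ 0) :
    ((detsq o).run σ).num o 0 0
      = (Complex.normSq (diagPow (Nm n (fun j => σ.num 0 j j + σ.num 23 0 0 * σ.num 3 j 0)
      (fun j => σ.num 4 j 0))).det : ℂ) := by
  have p1 : D1.pure := by simp [D1, Cmd.pure]
  have p2 : (Cmd.seq D2a D2b).pure := by simp [D2a, D2b, Cmd.pure]
  have p3 : D3.pure := by simp [D3, D3body, D3a, D3b, D3c, Cmd.pure]
  have p4 : D4.pure := by simp [D4, D4a, D4b, Cmd.pure]
  rw [detsq, Cmd.run, Cmd.run, Cmd.run, Cmd.run]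
  set σ1 := D1.run σ with h1
  set σ2 := (Cmd.seq D2a D2b).run σ1 with h2
  set σ3 := D3.run σ2 with h3
  set σ4 := D4.run σ3 with h4
  have n1 : σ1.nat = σ.nat := by rw [h1, Cmd.pure_nat p1]
  have n2 : σ2.nat = σ.nat := by rw [h2, Cmd.pure_nat p2, n1]
  have n3 : σ3.nat = σ.nat := by rw [h3, Cmd.pure_nat p3, n2]
  have n4 : σ4.nat = σ.nat := by rw [h4, Cmd.pure_nat p4, n3]
  set d : ℕ → ℂ := fun j => σ.num 0 j j + σ.num 23 0 0 * σ.num 3 j 0 with hd
  set β : ℕ → ℂ := fun j => σ.num 4 j 0 with hβ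
  have f1 : σ1.num 4 = σ.num 4 := by
    rw [h1]; exact Cmd.frame (by simp [D1, Cmd.wr]) σ
  have f2 : σ2.num 4 = σ.num 4 := by
    rw [h2, Cmd.frame (by simp [D2a, D2b, Cmd.wr]), f1]
  have g2 : σ2.num 12 = σ1.num 12 := by
    rw [h2]; exact Cmd.frame (by simp [D2a, D2b, Cmd.wr]) _
  have hG : ∀ k x : Fin n, σ3.num 8 k x = diagPow (Nm n d β) k x := by
    rw [h3]
    apply D3_spec σ2 n (by rw [n2]; exact hn)
    · intro x y hx hy
      rw [h2]
      exact D2_spec σ1 n (by rw [n1]; exact hn) x y hx hy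
    · intro j hj
      rw [g2, h1]
      exact D1_spec σ n hn j hj
    · intro j hj
      rw [f2]
  have hW : ∀ x y : Fin n, σ4.num 9 x y = ((diagPow (Nm n d β))ᴴ * diagPow (Nm n d β)) x y := by
    rw [h4]
    exact D4_spec σ3 n (by rw [n3]; exact hn) _ hG
  exact D5_spec σ4 o n ⟨ho.2.2.2.2.2.2.1, ho.2.2.2.2.2.2.2.1, ho.2.2.2.2.2.2.2.2.1⟩
    (by rw [n4]; exact hn) _ hdet hW

lemma detsq_frame (σ : Mem) (o a : ℕ)
    (ha : a ≠ o ∧ a ≠ 6 ∧ a ≠ 7 ∧ a ≠ 8 ∧ a ≠ 9 ∧ a ≠ 10 ∧ a ≠ 11 ∧ a ≠ 12) :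
    ((detsq o).run σ).num a = σ.num a := by
  obtain ⟨h0, h1, h2, h3, h4, h5, h6, h7⟩ := ha
  apply Cmd.frame
  simp [detsq, D1, D2a, D2b, D3, D3body, D3a, D3b, D3c, D4, D4a, D4b, D5, D5body, D5a, D5b, D5c,
    Cmd.wr, setS, h0, h1, h2, h3, h4, h5, h6, h7]

lemma detsq_nat (σ : Mem) (o : ℕ) : ((detsq o).run σ).nat = σ.nat :=
  Cmd.pure_nat (detsq_pure o) σ

end Pool.Agent.Lib.MP_26b317_lc
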