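import Mathlib
import Pool.Agent.Lib.MP_26b317_lc.Core

/-!
The polynomial `z ↦ det (diagPow (A + z X))` and its real roots.
-/

open Matrix Polynomial

namespace Pool.Agent.Lib.MP_26b317_lc

/-- resolvent type bound for Hermitian matrices -/
lemma herm_lower {ι : Type*} [Fintype ι] [DecidableEq ι] {H : Matrix ι ι ℂ} (hH : H.IsHermitian)
    (s η : ℝ) (hη : 0 ≤ η) (hs : ∀ i, η ≤ |s - hH.eigenvalues i|) (v : ι → ℂ) :
    η ^ 2 * ∑ i, ‖v i‖ ^ 2 ≤ ∑ i, ‖(H *ᵥ v) i - (s : ℂ) * v i‖ ^ 2 := by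
  set x : EuclideanSpace ℂ ι := WithLp.toLp 2 v with hx
  set y : EuclideanSpace ℂ ι := WithLp.toLp 2 (fun i => (H *ᵥ v) i - (s : ℂ) * v i) with hy
  have hxn : ∑ i, ‖v i‖ ^ 2 = ‖x‖ ^ 2 := by
    rw [EuclideanSpace.norm_sq_eq]
  have hyn : ∑ i, ‖(H *ᵥ v) i - (s : ℂ) * v i‖ ^ 2 = ‖y‖ ^ 2 := by
    rw [EuclideanSpace.norm_sq_eq]
  rw [hxn, hyn, ← hH.eigenvectorBasis.sum_sq_norm_inner_right x,
    ← hH.eigenvectorBasis.sum_sq_norm_inner_right y, Finset.mul_sum]
  apply Finset.sum_le_sum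
  intro i _
  have hin : ∀ w : ι → ℂ, inner ℂ (hH.eigenvectorBasis i) (WithLp.toLp 2 w)
      = star (⇑(hH.eigenvectorBasis i)) ⬝ᵥ w := by
    intro w
    rw [EuclideanSpace.inner_eq_star_dotProduct]
    rw [dotProduct_comm]
  have key : inner ℂ (hH.eigenvectorBasis i) y
      = ((hH.eigenvalues i - s : ℝ) : ℂ) * inner ℂ (hH.eigenvectorBasis i) x := by
    rw [hx, hy, hin, hin]
    have e1 : star (⇑(hH.eigenvectorBasis i)) ⬝ᵥ (H *ᵥ v)
        = (hH.eigenvalues i : ℂ) * (star (⇑(hH.eigenvectorBasis i)) ⬝ᵥ v) := by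
      have e2 : star (⇑(hH.eigenvectorBasis i)) ⬝ᵥ (H *ᵥ v)
          = star (H *ᵥ ⇑(hH.eigenvectorBasis i)) ⬝ᵥ v := by
        rw [Matrix.star_mulVec, hH.eq, Matrix.dotProduct_mulVec]
      rw [e2, hH.mulVec_eigenvectorBasis]
      simp [dotProduct, Finset.mul_sum, mul_assoc]
    have e3 : (fun i => (H *ᵥ v) i - (s : ℂ) * v i) = H *ᵥ v - (s : ℂ) • v := by
      funext j; simp
    rw [e3, dotProduct_sub, e1, dotProduct_smul, smul_eq_mul]
    push_cast
    ring
  rw [key, norm_mul, mul_pow, Complex.norm_real, Real.norm_eq_abs]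
  apply mul_le_mul_of_nonneg_right _ (by positivity)
  have := hs i
  rw [abs_sub_comm] at this
  gcongr

variable {n : ℕ}

/-- `A + z X` over `ℂ`, `X = diag (0, 1, …, n-1)` -/
noncomputable def Tz (A : Matrix (Fin n) (Fin n) ℝ) (z : ℂ) : Matrix (Fin n) (Fin n) ℂ :=
  A.map (fun x => (x : ℂ)) + z • diagonal (fun i : Fin n => ((i : ℕ) : ℂ))

/-- distances `y - x` -/
def dist' (p : Pr n) : ℝ := ((p.1.2 : ℕ) : ℝ) - ((p.1.1 : ℕ) : ℝ)

lemma one_le_dist' (p : Pr n) : 1 ≤ dist' p := by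
  have h : (p.1.1 : ℕ) < (p.1.2 : ℕ) := p.2
  have h' : ((p.1.1 : ℕ) : ℝ) + 1 ≤ ((p.1.2 : ℕ) : ℝ) := by exact_mod_cast h
  unfold dist'
  linarith

lemma KD_Tz (A : Matrix (Fin n) (Fin n) ℝ) (z : ℂ) :
    KD (Tz A z) = (KD A).map (fun x => (x : ℂ)) - z • diagonal (fun p : Pr n => (dist' p : ℂ)) := by
  ext p q
  simp only [KD, Tz, Matrix.sub_apply, Matrix.map_apply, Matrix.add_apply, Matrix.smul_apply,
    smul_eq_mul]
  by_cases hpq : p = q
  · subst hpq
    simp [dist']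
    ring
  · rw [Matrix.diagonal_apply_ne _ hpq]
    by_cases h2 : p.1.2 = q.1.2
    · by_cases h1 : p.1.1 = q.1.1
      · exact absurd (Subtype.ext (Prod.ext h1 h2)) hpq
      · simp [h1, h2]
    · by_cases h1 : p.1.1 = q.1.1
      · have h2' : q.1.2 ≠ p.1.2 := fun h => h2 h.symm
        simp [h1, h2, Matrix.diagonal_apply_ne _ h2']
      · simp [h1, h2]

lemma Tz_tri {A : Matrix (Fin n) (Fin n) ℝ} (hA : IsTri A) (z : ℂ) : IsTri (Tz A z) := by
  intro i j hij
  have hne : i ≠ j := by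
    intro h; subst h; omega
  simp [Tz, hA i j hij, Matrix.diagonal_apply_ne _ hne]

lemma Tz_symm {A : Matrix (Fin n) (Fin n) ℝ} (hA : Aᵀ = A) (z : ℂ) : (Tz A z)ᵀ = Tz A z := by
  rw [Tz, Matrix.transpose_add, Matrix.transpose_smul, Matrix.diagonal_transpose,
    ← Matrix.transpose_map, hA]

lemma Tz_ne {A : Matrix (Fin n) (Fin n) ℝ}
    (hne : ∀ i j : Fin n, (i : ℕ) = (j : ℕ) + 1 → A i j ≠ 0) (z : ℂ) :
    ∀ i j : Fin n, (i : ℕ) = (j : ℕ) + 1 → Tz A z i j ≠ 0 := by
  intro i j hij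
  have h : i ≠ j := by
    intro h; subst h; omega
  simp [Tz, Matrix.diagonal_apply_ne _ h, hne i j hij]

lemma KD_symm {A : Matrix (Fin n) (Fin n) ℝ} (hA : Aᵀ = A) : (KD A)ᵀ = KD A := by
  have hs : ∀ x y, A x y = A y x := fun x y => by
    conv_lhs => rw [← hA]
    rfl
  ext p q
  simp only [KD, Matrix.transpose_apply]
  rw [hs q.1.1 p.1.1, hs p.1.2 q.1.2]
  congr 1
  · by_cases h : q.1.2 = p.1.2
    · rw [if_pos h, if_pos h.symm]
    · rw [if_neg h, if_neg (fun h' => h h'.symm)]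
  · by_cases h : q.1.1 = p.1.1
    · rw [if_pos h, if_pos h.symm]
    · rw [if_neg h, if_neg (fun h' => h h'.symm)]

lemma KD_herm {A : Matrix (Fin n) (Fin n) ℝ} (hA : Aᵀ = A) :
    ((KD A).map (fun x => (x : ℂ))).IsHermitian := by
  ext p q
  simp only [Matrix.conjTranspose_apply, Matrix.map_apply]
  have := congrFun (congrFun (KD_symm hA) p) q
  simp only [Matrix.transpose_apply] at this
  rw [this]
  simp

lemma im_eq_zero_of_ker {A : Matrix (Fin n) (Fin n) ℝ} (hA : Aᵀ = A) {z : ℂ} {u : Pr n → ℂ}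
    (hu : u ≠ 0) (hK : KD (Tz A z) *ᵥ u = 0) : z.im = 0 := by
  rw [KD_Tz, Matrix.sub_mulVec, sub_eq_zero] at hK
  have h1 := (KD_herm hA).im_star_dotProduct_mulVec_self u
  rw [hK] at h1
  have h2 : star u ⬝ᵥ ((z • diagonal (fun p : Pr n => (dist' p : ℂ))) *ᵥ u)
      = z * ((∑ p, dist' p * ‖u p‖ ^ 2 : ℝ) : ℂ) := by
    simp only [dotProduct, Matrix.smul_mulVec, Matrix.mulVec_diagonal, Pi.smul_apply, smul_eq_mul,
      Pi.star_apply]
    push_cast
    rw [Finset.mul_sum]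
    apply Finset.sum_congr rfl
    intro p _
    have : star (u p) * u p = (‖u p‖ : ℂ) ^ 2 := by
      rw [← Complex.conj_mul']
      rfl
    rw [← this]
    ring
  rw [h2] at h1
  have h3 : (z * ((∑ p, dist' p * ‖u p‖ ^ 2 : ℝ) : ℂ)).im
      = z.im * (∑ p, dist' p * ‖u p‖ ^ 2) := by
    rw [Complex.im_mul_ofReal]
  have h4 : z.im * (∑ p, dist' p * ‖u p‖ ^ 2) = 0 := by
    rw [← h3]; exact h1
  have hpos : 0 < ∑ p, dist' p * ‖u p‖ ^ 2 := by
    obtain ⟨p, hp⟩ := Function.ne_iff.mp hu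
    apply Finset.sum_pos'
    · intro q _
      have := one_le_dist' q
      positivity
    · refine ⟨p, Finset.mem_univ _, ?_⟩
      have h5 := one_le_dist' p
      have h6 : 0 < ‖u p‖ := norm_pos_iff.mpr hp
      positivity
  rcases mul_eq_zero.mp h4 with h | h
  · exact h
  · exact absurd h hpos.ne'

/-- the determinant of diagonals of powers -/
noncomputable def Dd (A : Matrix (Fin n) (Fin n) ℝ) (z : ℂ) : ℂ := (diagPow (Tz A z)).det

lemma Dd_im {A : Matrix (Fin n) (Fin n) ℝ} (hT : IsTri A) (hA : Aᵀ = A)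
    (hne : ∀ i j : Fin n, (i : ℕ) = (j : ℕ) + 1 → A i j ≠ 0) {z : ℂ} (hz : Dd A z = 0) :
    z.im = 0 := by
  obtain ⟨u, hu, hK⟩ := exists_ker_of_det (Tz_tri hT z) (Tz_symm hA z) (Tz_ne hne z) hz
  exact im_eq_zero_of_ker hA hu hK

/-- lower bound for the compressed commutator away from the roots -/
lemma KD_lower {A : Matrix (Fin n) (Fin n) ℝ} (hT : IsTri A) (hA : Aᵀ = A)
    (hne : ∀ i j : Fin n, (i : ℕ) = (j : ℕ) + 1 → A i j ≠ 0) (s η : ℝ) (hη : 0 ≤ η)
    (hs : ∀ r : ℝ, Dd A (r : ℂ) = 0 → η ≤ |s - r|) (u : Pr n → ℂ) :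
    η ^ 2 * ∑ p, ‖u p‖ ^ 2 ≤ ∑ p, ‖(KD (Tz A (s : ℂ)) *ᵥ u) p‖ ^ 2 := by
  classical
  set w : Pr n → ℝ := fun p => Real.sqrt (dist' p) with hw
  have hd0 : ∀ p : Pr n, 0 < dist' p := fun p => lt_of_lt_of_le one_pos (one_le_dist' p)
  have hw1 : ∀ p, 1 ≤ w p := fun p => by
    rw [hw]
    exact Real.one_le_sqrt.mpr (one_le_dist' p)
  have hw0 : ∀ p, w p ≠ 0 := fun p => (lt_of_lt_of_le one_pos (hw1 p)).ne'
  have hww : ∀ p, w p * w p = dist' p := fun p => Real.mul_self_sqrt (hd0 p).le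
  set H : Matrix (Pr n) (Pr n) ℂ := fun p q => ((((w p)⁻¹ * KD A p q * (w q)⁻¹ : ℝ)) : ℂ) with hHdef
  have hH : H.IsHermitian := by
    ext p q
    have h0 := congrFun (congrFun (KD_symm hA) p) q
    simp only [Matrix.transpose_apply] at h0
    rw [Matrix.conjTranspose_apply]
    change star ((((w q)⁻¹ * KD A q p * (w p)⁻¹ : ℝ)) : ℂ) = ((((w p)⁻¹ * KD A p q * (w q)⁻¹ : ℝ)) : ℂ)
    rw [h0, ← starRingEnd_apply, Complex.conj_ofReal]
    congr 1
    ring
  -- relation
  have hrel : ∀ (t : ℂ) (v : Pr n → ℂ) (p : Pr n),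
      (KD (Tz A t) *ᵥ v) p = (w p : ℂ) * ((H *ᵥ (fun q => (w q : ℂ) * v q)) p
        - t * ((w p : ℂ) * v p)) := by
    intro t v p
    rw [KD_Tz, Matrix.sub_mulVec, Pi.sub_apply, mul_sub]
    congr 1
    · simp only [Matrix.mulVec, dotProduct, Matrix.map_apply, hHdef, Finset.mul_sum]
      apply Finset.sum_congr rfl
      intro q _
      have hq : (w q : ℂ) ≠ 0 := by exact_mod_cast hw0 q
      have hp : (w p : ℂ) ≠ 0 := by exact_mod_cast hw0 p
      push_cast
      field_simp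
    · rw [Matrix.smul_mulVec, Pi.smul_apply, Matrix.mulVec_diagonal, smul_eq_mul, ← hww p]
      push_cast
      ring
  have hev : ∀ i, η ≤ |s - hH.eigenvalues i| := by
    intro i
    apply hs
    set b : Pr n → ℂ := ⇑(hH.eigenvectorBasis i) with hb
    have hb0 : b ≠ 0 := by
      intro h
      have h1 : hH.eigenvectorBasis i = 0 := by
        ext j
        exact congrFun h j
      have h2 := hH.eigenvectorBasis.orthonormal.ne_zero i
      exact h2 h1
    have hHb : H *ᵥ b = (hH.eigenvalues i) • b := hH.mulVec_eigenvectorBasis i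
    apply det_eq_zero_of_ker (Tz_tri hT _) (Tz_symm hA _) (Tz_ne hne _)
      (fun p => ((w p : ℂ))⁻¹ * b p)
    · intro h
      apply hb0
      funext p
      have h1 := congrFun h p
      have hp : (w p : ℂ) ≠ 0 := by exact_mod_cast hw0 p
      simp only [Pi.zero_apply, mul_eq_zero, inv_eq_zero] at h1
      rcases h1 with h1 | h1
      · exact absurd h1 hp
      · exact h1
    · funext p
      rw [hrel]
      have e1 : (fun q => (w q : ℂ) * ((w q : ℂ)⁻¹ * b q)) = b := by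
        funext q
        have hq : (w q : ℂ) ≠ 0 := by exact_mod_cast hw0 q
        field_simp
      rw [e1, hHb]
      have hp : (w p : ℂ) ≠ 0 := by exact_mod_cast hw0 p
      have e2 : (w p : ℂ) * ((w p : ℂ)⁻¹ * b p) = b p := by field_simp
      rw [e2]
      simp
  have main := herm_lower hH s η hη hev (fun q => (w q : ℂ) * u q)
  calc η ^ 2 * ∑ p, ‖u p‖ ^ 2 ≤ η ^ 2 * ∑ p, ‖(w p : ℂ) * u p‖ ^ 2 := by
        apply mul_le_mul_of_nonneg_left _ (by positivity)
        apply Finset.sum_le_sum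
        intro p _
        rw [norm_mul, mul_pow, Complex.norm_real, Real.norm_eq_abs, sq_abs]
        have h1 : 1 ≤ w p ^ 2 := by
          have := hw1 p
          nlinarith
        nlinarith [sq_nonneg ‖u p‖]
    _ ≤ _ := main
    _ ≤ _ := by
        apply Finset.sum_le_sum
        intro p _
        rw [hrel, norm_mul, mul_pow, Complex.norm_real, Real.norm_eq_abs, sq_abs]
        have h1 : 1 ≤ w p ^ 2 := by
          have := hw1 p
          nlinarith
        nlinarith [sq_nonneg ‖(H *ᵥ fun q => (w q : ℂ) * u q) p - (s : ℂ) * ((w p : ℂ) * u p)‖]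

/-! ### the polynomial -/

/-- `A + X·diag(0,…,n-1)` over polynomials -/
noncomputable def Tp (A : Matrix (Fin n) (Fin n) ℝ) : Matrix (Fin n) (Fin n) ℂ[X] :=
  A.map (fun x => C (x : ℂ)) + (X : ℂ[X]) • diagonal (fun i : Fin n => (C ((i : ℕ) : ℂ)))

lemma Tp_eval (A : Matrix (Fin n) (Fin n) ℝ) (z : ℂ) :
    (Tp A).map (Polynomial.evalRingHom z) = Tz A z := by
  ext i j
  simp only [Tp, Tz, Matrix.map_apply, Matrix.add_apply, Matrix.smul_apply, smul_eq_mul]
  by_cases h : i = j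
  · subst h; simp
  · simp [Matrix.diagonal_apply_ne _ h]

/-- the polynomial whose value is `Dd` -/
noncomputable def Dp (A : Matrix (Fin n) (Fin n) ℝ) : ℂ[X] := (diagPow (Tp A)).det

lemma Dp_eval (A : Matrix (Fin n) (Fin n) ℝ) (z : ℂ) : (Dp A).eval z = Dd A z := by
  have h1 : (Dp A).eval z = Polynomial.evalRingHom z (Dp A) := rfl
  rw [h1, Dp, Dd, RingHom.map_det]
  congr 1
  ext k x
  simp only [RingHom.mapMatrix_apply, Matrix.map_apply, diagPow]
  have h2 : (Tz A z) ^ (k : ℕ) = ((Tp A) ^ (k : ℕ)).map (Polynomial.evalRingHom z) := by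
    rw [← Tp_eval, ← RingHom.mapMatrix_apply, ← RingHom.mapMatrix_apply, map_pow]
  rw [h2]
  rfl

lemma natDegree_Tp_pow (A : Matrix (Fin n) (Fin n) ℝ) (k : ℕ) :
    ∀ i j, ((Tp A ^ k) i j).natDegree ≤ k := by
  induction k with
  | zero =>
    intro i j
    simp only [pow_zero]
    by_cases h : i = j
    · subst h; simp
    · rw [Matrix.one_apply_ne h]; simp
  | succ k ih =>
    intro i j
    rw [pow_succ, Matrix.mul_apply]
    apply Polynomial.natDegree_sum_le_of_forall_le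
    intro l _
    refine (Polynomial.natDegree_mul_le).trans ?_
    apply add_le_add (ih i l)
    simp only [Tp, Matrix.map_apply, Matrix.add_apply, Matrix.smul_apply, smul_eq_mul]
    refine (Polynomial.natDegree_add_le _ _).trans ?_
    apply max_le
    · simp
    · refine (Polynomial.natDegree_mul_le).trans ?_
      have : (diagonal (fun i : Fin n => (C ((i : ℕ) : ℂ))) l j).natDegree ≤ 0 := by
        by_cases h : l = j
        · subst h; simp
        · rw [Matrix.diagonal_apply_ne _ h]; simp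
      have h2 : (X : ℂ[X]).natDegree ≤ 1 := Polynomial.natDegree_X_le
      omega

lemma natDegree_Dp (A : Matrix (Fin n) (Fin n) ℝ) : (Dp A).natDegree ≤ n * n := by
  rw [Dp, Matrix.det_apply]
  apply Polynomial.natDegree_sum_le_of_forall_le
  intro σ _
  have h1 : (∏ i, diagPow (Tp A) (σ i) i).natDegree ≤ n * n := by
    refine (Polynomial.natDegree_prod_le _ _).trans ?_
    calc ∑ i, (diagPow (Tp A) (σ i) i).natDegree ≤ ∑ _i : Fin n, n := by
          apply Finset.sum_le_sum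
          intro i _
          exact (natDegree_Tp_pow A _ i i).trans (σ i).isLt.le
      _ = n * n := by simp
  rcases Int.units_eq_one_or (Equiv.Perm.sign σ) with h | h
  · rw [h, one_smul]; exact h1
  · rw [h]; simpa using h1

/-- Summary of the properties of the real roots. -/
theorem roots_summary {A : Matrix (Fin n) (Fin n) ℝ} (hT : IsTri A) (hA : Aᵀ = A)
    (hne : ∀ i j : Fin n, (i : ℕ) = (j : ℕ) + 1 → A i j ≠ 0) :
    ∃ (R : Multiset ℝ) (c : ℝ), 0 < c ∧ R.card ≤ n * n ∧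
      (∀ s y : ℝ, Complex.normSq (Dd A (s + y * Complex.I))
        = c * (R.map (fun r => (s - r) ^ 2 + y ^ 2)).prod) ∧
      (∀ r : ℝ, Dd A (r : ℂ) = 0 → r ∈ R) := by
  have hD0 : Dp A ≠ 0 := by
    intro h
    have h1 : Dd A Complex.I = 0 := by rw [← Dp_eval, h]; simp
    have := Dd_im hT hA hne h1
    simp at this
  have hsplit : (Dp A) = C (Dp A).leadingCoeff * ((Dp A).roots.map (fun a => X - C a)).prod := by
    exact (IsAlgClosed.splits (Dp A)).eq_prod_roots
  have hreal : ∀ a ∈ (Dp A).roots, a = ((a.re : ℝ) : ℂ) := by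
    intro a ha
    have h1 : (Dp A).eval a = 0 := (Polynomial.mem_roots hD0).mp ha
    rw [Dp_eval] at h1
    have h2 := Dd_im hT hA hne h1
    apply Complex.ext
    · simp
    · simp [h2]
  refine ⟨(Dp A).roots.map Complex.re, Complex.normSq (Dp A).leadingCoeff, ?_, ?_, ?_, ?_⟩
  · rw [Complex.normSq_pos]
    exact Polynomial.leadingCoeff_ne_zero.mpr hD0
  · rw [Multiset.card_map]
    exact (Polynomial.card_roots' _).trans (natDegree_Dp A)
  · intro s y
    rw [← Dp_eval]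
    conv_lhs => rw [hsplit]
    rw [Polynomial.eval_mul, Polynomial.eval_C, map_mul, Polynomial.eval_multiset_prod,
      map_multiset_prod]
    congr 2
    rw [Multiset.map_map, Multiset.map_map, Multiset.map_map]
    apply Multiset.map_congr rfl
    intro a ha
    simp only [Function.comp_apply, Polynomial.eval_sub, Polynomial.eval_X, Polynomial.eval_C]
    rw [hreal a ha, Complex.normSq_apply]
    simp
    ring
  · intro r hr
    rw [Multiset.mem_map]
    refine ⟨(r : ℂ), ?_, by simp⟩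
    rw [Polynomial.mem_roots hD0, Polynomial.IsRoot, Dp_eval]
    exact hr

end Pool.Agent.Lib.MP_26b317_lc
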