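import Mathlib
import Pool.Agent.Lib.MP_26b317_lc.Roots

/-!
From the compressed commutator to spacings of eigenvalues of complex Hermitian tridiagonal matrices.
-/

open Matrix

namespace Pool.Agent.Lib.MP_26b317_lc

variable {n : ℕ}

lemma sum_Pr_le (f : Fin n → Fin n → ℝ) (hf : ∀ x y, 0 ≤ f x y) (hs : ∀ x y, f x y = f y x) :
    2 * ∑ q : Pr n, f q.1.1 q.1.2 ≤ ∑ x, ∑ y, f x y := by
  rw [sum_Pr, two_mul]
  have h1 : (∑ x : Fin n, ∑ y : Fin n, if x < y then f x y else 0)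
      = ∑ x : Fin n, ∑ y : Fin n, if y < x then f x y else 0 := by
    rw [Finset.sum_comm]
    apply Finset.sum_congr rfl
    intro x _
    apply Finset.sum_congr rfl
    intro y _
    split_ifs
    · exact hs _ _
    · rfl
  nth_rewrite 2 [h1]
  rw [← Finset.sum_add_distrib]
  apply Finset.sum_le_sum
  intro x _
  rw [← Finset.sum_add_distrib]
  apply Finset.sum_le_sum
  intro y _
  rcases lt_trichotomy x y with h | h | h
  · simp [h, not_lt.mpr h.le]
  · subst h; simp [hf]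
  · simp [h, not_lt.mpr h.le]

lemma sum_Pr_eq (f : Fin n → Fin n → ℝ) (hd : ∀ x, f x x = 0) (hs : ∀ x y, f x y = f y x) :
    2 * ∑ q : Pr n, f q.1.1 q.1.2 = ∑ x, ∑ y, f x y := by
  rw [sum_Pr, two_mul]
  have h1 : (∑ x : Fin n, ∑ y : Fin n, if x < y then f x y else 0)
      = ∑ x : Fin n, ∑ y : Fin n, if y < x then f x y else 0 := by
    rw [Finset.sum_comm]
    apply Finset.sum_congr rfl
    intro x _
    apply Finset.sum_congr rfl
    intro y _
    split_ifs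
    · exact hs _ _
    · rfl
  nth_rewrite 2 [h1]
  rw [← Finset.sum_add_distrib]
  apply Finset.sum_congr rfl
  intro x _
  rw [← Finset.sum_add_distrib]
  apply Finset.sum_congr rfl
  intro y _
  rcases lt_trichotomy x y with h | h | h
  · simp [h, not_lt.mpr h.le]
  · subst h; simp [hd]
  · simp [h, not_lt.mpr h.le]

lemma full_sum (ψ φ : Fin n → ℂ) (ε : ℝ) (hψ : ∑ x, ‖ψ x‖ ^ 2 = 1) (hφ : ∑ x, ‖φ x‖ ^ 2 = 1)
    (ho : ∑ x, star (ψ x) * φ x = 0) (hε : ε ^ 2 = 1) :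
    ∑ x, ∑ y, ‖ψ x * φ y + ε * (φ x * ψ y)‖ ^ 2 = 2 := by
  have h1 : ∀ x y, ‖ψ x * φ y + ε * (φ x * ψ y)‖ ^ 2
      = ‖ψ x‖ ^ 2 * ‖φ y‖ ^ 2 + ‖φ x‖ ^ 2 * ‖ψ y‖ ^ 2
        + 2 * ε * ((star (φ x) * ψ x) * (star (ψ y) * φ y)).re := by
    intro x y
    rw [← Complex.normSq_eq_norm_sq, ← Complex.normSq_eq_norm_sq, ← Complex.normSq_eq_norm_sq,
      ← Complex.normSq_eq_norm_sq, ← Complex.normSq_eq_norm_sq]
    simp only [Complex.normSq_apply, Complex.add_re, Complex.add_im, Complex.mul_re,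
      Complex.mul_im, Complex.ofReal_re, Complex.ofReal_im, Complex.star_def, Complex.conj_re,
      Complex.conj_im]
    linear_combination ((((φ x).re * (ψ y).re - (φ x).im * (ψ y).im)) ^ 2
      + (((φ x).re * (ψ y).im + (φ x).im * (ψ y).re)) ^ 2) * hε
  simp_rw [h1, Finset.sum_add_distrib]
  have h2 : ∑ x, ∑ y, ‖ψ x‖ ^ 2 * ‖φ y‖ ^ 2 = 1 := by
    simp_rw [← Finset.mul_sum, hφ, mul_one, hψ]
  have h3 : ∑ x, ∑ y, ‖φ x‖ ^ 2 * ‖ψ y‖ ^ 2 = 1 := by
    simp_rw [← Finset.mul_sum, hψ, mul_one, hφ]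
  have h4 : ∑ x, ∑ y, 2 * ε * ((star (φ x) * ψ x) * (star (ψ y) * φ y)).re = 0 := by
    simp_rw [← Finset.mul_sum, ← Complex.re_sum, ← Finset.mul_sum, ho]
    simp
  rw [h2, h3, h4]
  norm_num

/-- two orthonormal eigenvectors of a complex symmetric tridiagonal matrix give a short vector
for the compressed commutator -/
lemma exists_short {T : Matrix (Fin n) (Fin n) ℂ} (hT : IsTri T) (hs : Tᵀ = T)
    (ψ φ : Fin n → ℂ) (l m : ℂ) (hl : T *ᵥ ψ = l • ψ) (hm : T *ᵥ φ = m • φ)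
    (hψ : ∑ x, ‖ψ x‖ ^ 2 = 1) (hφ : ∑ x, ‖φ x‖ ^ 2 = 1) (ho : ∑ x, star (ψ x) * φ x = 0) :
    ∃ u : Pr n → ℂ, ∑ p, ‖u p‖ ^ 2 = 1 ∧ ∑ p, ‖(KD T *ᵥ u) p‖ ^ 2 ≤ ‖l - m‖ ^ 2 := by
  set M : Matrix (Fin n) (Fin n) ℂ := vecMulVec ψ φ - vecMulVec φ ψ with hM
  have hMd : ∀ x, M x x = 0 := by
    intro x
    simp [hM, vecMulVec_apply, mul_comm]
  have hvm : ∀ v : Fin n → ℂ, v ᵥ* T = T *ᵥ v := by
    intro v
    rw [← Matrix.mulVec_transpose, hs]
  have hcomm : T * M - M * T = (l - m) • (vecMulVec ψ φ + vecMulVec φ ψ) := by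
    rw [hM, Matrix.mul_sub, Matrix.sub_mul, Matrix.mul_vecMulVec, Matrix.mul_vecMulVec,
      Matrix.vecMulVec_mul, Matrix.vecMulVec_mul, hvm, hvm, hl, hm]
    ext x y
    simp only [Matrix.sub_apply, vecMulVec_apply, Pi.smul_apply, smul_eq_mul, Matrix.smul_apply,
      Matrix.add_apply]
    ring
  refine ⟨up M, ?_, ?_⟩
  · have h1 := sum_Pr_eq (fun x y => ‖M x y‖ ^ 2) (by intro x; simp [hMd])
      (by
        intro x y
        have : M x y = - M y x := by
          simp only [hM, Matrix.sub_apply, vecMulVec_apply]; ring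
        simp only [this, norm_neg])
    have h2 := full_sum ψ φ (-1) hψ hφ ho (by norm_num)
    have h3 : ∀ x y, ‖M x y‖ ^ 2 = ‖ψ x * φ y + ((-1 : ℝ) : ℂ) * (φ x * ψ y)‖ ^ 2 := by
      intro x y
      simp only [hM, Matrix.sub_apply, vecMulVec_apply]
      push_cast
      ring_nf
    simp_rw [h3] at h1
    rw [h2] at h1
    have h4 : ∑ p : Pr n, ‖up M p‖ ^ 2
        = ∑ q : Pr n, ‖ψ q.1.1 * φ q.1.2 + ((-1 : ℝ) : ℂ) * (φ q.1.1 * ψ q.1.2)‖ ^ 2 := by
      apply Finset.sum_congr rfl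
      intro p _
      rw [← h3]
      rfl
    rw [h4]
    linarith
  · rw [KD_mulVec_up hT hMd, hcomm]
    have h1 := sum_Pr_le (fun x y => ‖ψ x * φ y + ((1 : ℝ) : ℂ) * (φ x * ψ y)‖ ^ 2)
      (by intro x y; positivity)
      (by
        intro x y
        rw [show ψ x * φ y + ((1 : ℝ) : ℂ) * (φ x * ψ y) = ψ y * φ x + ((1 : ℝ) : ℂ) * (φ y * ψ x) by
          push_cast; ring])
    rw [full_sum ψ φ 1 hψ hφ ho (by norm_num)] at h1
    have h2 : ∑ p : Pr n, ‖up ((l - m) • (vecMulVec ψ φ + vecMulVec φ ψ)) p‖ ^ 2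
        = ‖l - m‖ ^ 2 * ∑ q : Pr n, ‖ψ q.1.1 * φ q.1.2 + ((1 : ℝ) : ℂ) * (φ q.1.1 * ψ q.1.2)‖ ^ 2 := by
      rw [Finset.mul_sum]
      apply Finset.sum_congr rfl
      intro p _
      simp only [up, Matrix.smul_apply, Matrix.add_apply, vecMulVec_apply, smul_eq_mul, norm_mul,
        mul_pow, Complex.ofReal_one, one_mul]
    rw [h2]
    have h3 : ∑ q : Pr n, ‖ψ q.1.1 * φ q.1.2 + ((1 : ℝ) : ℂ) * (φ q.1.1 * ψ q.1.2)‖ ^ 2 ≤ 1 := by
      linarith
    calc _ ≤ ‖l - m‖ ^ 2 * 1 := by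
          apply mul_le_mul_of_nonneg_left h3 (by positivity)
      _ = _ := mul_one _

/-- Schur test -/
lemma schur_test {ι : Type*} [Fintype ι] (K : Matrix ι ι ℂ) (ρ : ℝ)
    (hr : ∀ p, ∑ q, ‖K p q‖ ≤ ρ) (hc : ∀ q, ∑ p, ‖K p q‖ ≤ ρ) (v : ι → ℂ) :
    ∑ p, ‖(K *ᵥ v) p‖ ^ 2 ≤ ρ ^ 2 * ∑ p, ‖v p‖ ^ 2 := by
  rcases isEmpty_or_nonempty ι with hι | ⟨⟨p0⟩⟩
  · simp
  have hρ : 0 ≤ ρ := le_trans (Finset.sum_nonneg (fun _ _ => norm_nonneg _)) (hr p0)
  have h1 : ∀ p, ‖(K *ᵥ v) p‖ ^ 2 ≤ ρ * ∑ q, ‖K p q‖ * ‖v q‖ ^ 2 := by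
    intro p
    have h2 : ‖(K *ᵥ v) p‖ ≤ ∑ q, ‖K p q‖ * ‖v q‖ := by
      rw [Matrix.mulVec, dotProduct]
      refine (norm_sum_le _ _).trans (le_of_eq ?_)
      simp_rw [norm_mul]
    have h3 : (∑ q, ‖K p q‖ * ‖v q‖) ^ 2 ≤ (∑ q, ‖K p q‖) * ∑ q, ‖K p q‖ * ‖v q‖ ^ 2 := by
      apply Finset.sum_sq_le_sum_mul_sum_of_sq_le_mul
      · intro q _; positivity
      · intro q _; positivity
      · intro q _; exact le_of_eq (by ring)
    calc ‖(K *ᵥ v) p‖ ^ 2 ≤ (∑ q, ‖K p q‖ * ‖v q‖) ^ 2 := by gcongr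
      _ ≤ _ := h3
      _ ≤ _ := by
        apply mul_le_mul_of_nonneg_right (hr p)
        exact Finset.sum_nonneg (fun q _ => by positivity)
  calc ∑ p, ‖(K *ᵥ v) p‖ ^ 2 ≤ ∑ p, ρ * ∑ q, ‖K p q‖ * ‖v q‖ ^ 2 :=
        Finset.sum_le_sum (fun p _ => h1 p)
    _ = ρ * ∑ q, (∑ p, ‖K p q‖) * ‖v q‖ ^ 2 := by
        rw [← Finset.mul_sum, Finset.sum_comm]
        simp_rw [Finset.sum_mul]
    _ ≤ ρ * ∑ q, ρ * ‖v q‖ ^ 2 := by
        apply mul_le_mul_of_nonneg_left _ hρ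
        apply Finset.sum_le_sum
        intro q _
        apply mul_le_mul_of_nonneg_right (hc q) (by positivity)
    _ = ρ ^ 2 * ∑ p, ‖v p‖ ^ 2 := by
        rw [← Finset.mul_sum]; ring

lemma row_sum_le {R : Matrix (Fin n) (Fin n) ℂ} {τ : ℝ} (hτ : 0 ≤ τ)
    (h0 : ∀ x y : Fin n, ¬ ((x : ℕ) + 1 = (y : ℕ) ∨ (y : ℕ) + 1 = (x : ℕ)) → R x y = 0)
    (hb : ∀ x y, ‖R x y‖ ≤ τ) (x : Fin n) : ∑ y, ‖R x y‖ ≤ 2 * τ := by
  have h1 : ∀ y : Fin n, ‖R x y‖ ≤ (if (y : ℕ) = (x : ℕ) + 1 then τ else 0)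
      + (if (y : ℕ) = (x : ℕ) - 1 then τ else 0) := by
    intro y
    by_cases h : (x : ℕ) + 1 = (y : ℕ) ∨ (y : ℕ) + 1 = (x : ℕ)
    · rcases h with h | h
      · rw [if_pos h.symm]
        have := hb x y
        split_ifs <;> linarith
      · rw [if_pos (show (y : ℕ) = (x : ℕ) - 1 by omega)]
        have := hb x y
        split_ifs <;> linarith
    · rw [h0 x y h]
      simp only [norm_zero]
      split_ifs <;> linarith
  have h2 : ∀ k : ℕ, ∑ y : Fin n, (if (y : ℕ) = k then τ else 0) ≤ τ := by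
    intro k
    by_cases hk : k < n
    · rw [Finset.sum_eq_single (⟨k, hk⟩ : Fin n)]
      · simp
      · intro b _ hb'
        rw [if_neg (fun h => hb' (Fin.ext h))]
      · intro h; exact absurd (Finset.mem_univ _) h
    · rw [Finset.sum_eq_zero]
      · exact hτ
      · intro y _
        rw [if_neg (by have := y.isLt; omega)]
  calc ∑ y, ‖R x y‖ ≤ ∑ y : Fin n, ((if (y : ℕ) = (x : ℕ) + 1 then τ else 0)
      + (if (y : ℕ) = (x : ℕ) - 1 then τ else 0)) := Finset.sum_le_sum (fun y _ => h1 y)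
    _ ≤ 2 * τ := by
      rw [Finset.sum_add_distrib]
      linarith [h2 ((x : ℕ) + 1), h2 ((x : ℕ) - 1)]

lemma KD_row_sum {R : Matrix (Fin n) (Fin n) ℂ} {ρ : ℝ}
    (hr : ∀ x, ∑ y, ‖R x y‖ ≤ ρ) (hs : Rᵀ = R) (p : Pr n) : ∑ q, ‖KD R p q‖ ≤ 2 * ρ := by
  have hsym : ∀ x y, R x y = R y x := fun x y => by
    conv_lhs => rw [← hs]
    rfl
  have h1 : ∑ q : Pr n, ‖KD R p q‖ ≤ ∑ x : Fin n, ∑ y : Fin n,
      ((if p.1.2 = y then ‖R p.1.1 x‖ else 0) + (if p.1.1 = x then ‖R p.1.2 y‖ else 0)) := by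
    have h2 := sum_Pr (fun x y : Fin n => ‖(if p.1.2 = y then R p.1.1 x else 0)
        - (if p.1.1 = x then R y p.1.2 else 0)‖)
    have h3 : ∑ q : Pr n, ‖KD R p q‖ = ∑ q : Pr n, ‖(if p.1.2 = q.1.2 then R p.1.1 q.1.1 else 0)
        - (if p.1.1 = q.1.1 then R q.1.2 p.1.2 else 0)‖ := rfl
    rw [h3, h2]
    apply Finset.sum_le_sum
    intro x _
    apply Finset.sum_le_sum
    intro y _
    by_cases hxy : x < y
    · rw [if_pos hxy]
      refine (norm_sub_le _ _).trans ?_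
      rw [hsym y p.1.2]
      apply add_le_add
      · split_ifs <;> simp
      · split_ifs <;> simp
    · rw [if_neg hxy]
      positivity
  refine h1.trans ?_
  simp_rw [Finset.sum_add_distrib]
  have e1 : ∑ x : Fin n, ∑ y : Fin n, (if p.1.2 = y then ‖R p.1.1 x‖ else 0) = ∑ x, ‖R p.1.1 x‖ := by
    apply Finset.sum_congr rfl
    intro x _
    rw [Finset.sum_ite_eq]
    simp
  have e2 : ∑ x : Fin n, ∑ y : Fin n, (if p.1.1 = x then ‖R p.1.2 y‖ else 0) = ∑ y, ‖R p.1.2 y‖ := by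
    rw [Finset.sum_comm]
    apply Finset.sum_congr rfl
    intro y _
    rw [Finset.sum_ite_eq]
    simp
  rw [e1, e2]
  linarith [hr p.1.1, hr p.1.2]

lemma KD_transpose {R : Matrix (Fin n) (Fin n) ℂ} (hs : Rᵀ = R) (p q : Pr n) :
    KD R p q = KD R q p := by
  have hsym : ∀ x y, R x y = R y x := fun x y => by
    conv_lhs => rw [← hs]
    rfl
  simp only [KD]
  rw [hsym q.1.1 p.1.1, hsym p.1.2 q.1.2]
  congr 1
  · by_cases h : q.1.2 = p.1.2
    · rw [if_pos h, if_pos h.symm]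
    · rw [if_neg h, if_neg (fun h' => h h'.symm)]
  · by_cases h : q.1.1 = p.1.1
    · rw [if_pos h, if_pos h.symm]
    · rw [if_neg h, if_neg (fun h' => h h'.symm)]

lemma KD_sub (S R : Matrix (Fin n) (Fin n) ℂ) : KD (S - R) = KD S - KD R := by
  ext p q
  simp only [KD, Matrix.sub_apply]
  split_ifs <;> ring

/-- perturbation: entries off the diagonal changed by at most `τ` -/
lemma gap_perturb {T T' : Matrix (Fin n) (Fin n) ℂ} (hT : IsTri T) (hT' : IsTri T')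
    (hs : Tᵀ = T) (hs' : T'ᵀ = T') {τ η : ℝ} (hτ : 0 ≤ τ)
    (hd : ∀ x, T' x x = T x x) (hb : ∀ x y, ‖T' x y - T x y‖ ≤ τ)
    (hlow : ∀ u : Pr n → ℂ, η ^ 2 * ∑ p, ‖u p‖ ^ 2 ≤ ∑ p, ‖(KD T' *ᵥ u) p‖ ^ 2)
    (u : Pr n → ℂ) (hu : ∑ p, ‖u p‖ ^ 2 = 1) :
    η - 4 * τ ≤ Real.sqrt (∑ p, ‖(KD T *ᵥ u) p‖ ^ 2) := by
  set R := T' - T with hR
  have hRs : Rᵀ = R := by rw [hR, Matrix.transpose_sub, hs, hs']
  have hR0 : ∀ x y : Fin n, ¬ ((x : ℕ) + 1 = (y : ℕ) ∨ (y : ℕ) + 1 = (x : ℕ)) → R x y = 0 := by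
    intro x y hxy
    by_cases h : x = y
    · subst h; simp [hR, hd]
    · have h' : (x : ℕ) ≠ (y : ℕ) := fun h' => h (Fin.ext h')
      have h2 : (x : ℕ) + 1 < (y : ℕ) ∨ (y : ℕ) + 1 < (x : ℕ) := by omega
      simp [hR, hT x y h2, hT' x y h2]
  have hrow : ∀ x, ∑ y, ‖R x y‖ ≤ 2 * τ := row_sum_le hτ hR0 (fun x y => hb x y)
  have hK := schur_test (KD R) (2 * (2 * τ)) (KD_row_sum hrow hRs)
    (fun q => by
      have := KD_row_sum hrow hRs q
      simpa [KD_transpose hRs _ q] using this) u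
  rw [hu, mul_one] at hK
  have hlow' := hlow u
  rw [hu, mul_one] at hlow'
  set a : EuclideanSpace ℂ (Pr n) := WithLp.toLp 2 (KD T *ᵥ u) with ha
  set b : EuclideanSpace ℂ (Pr n) := WithLp.toLp 2 (KD R *ᵥ u) with hb'
  set c : EuclideanSpace ℂ (Pr n) := WithLp.toLp 2 (KD T' *ᵥ u) with hc
  have hcab : c = a + b := by
    rw [ha, hb', hc, hR, KD_sub, Matrix.sub_mulVec, ← WithLp.toLp_add]
    congr 1
    funext p
    simp
  have hna : Real.sqrt (∑ p, ‖(KD T *ᵥ u) p‖ ^ 2) = ‖a‖ := by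
    rw [EuclideanSpace.norm_eq]
  have hnb : ‖b‖ ≤ 4 * τ := by
    rw [EuclideanSpace.norm_eq]
    apply Real.sqrt_le_iff.mpr
    refine ⟨by linarith, ?_⟩
    calc _ ≤ _ := hK
      _ = _ := by ring
  have hnc : η ≤ ‖c‖ := by
    rw [EuclideanSpace.norm_eq]
    apply Real.le_sqrt_of_sq_le
    exact hlow'
  rw [hna]
  have := norm_add_le a b
  rw [← hcab] at this
  linarith

/-! ### gauge -/

/-- modulus matrix: real parts on the diagonal, absolute values off the diagonal -/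
noncomputable def absM (M : Matrix (Fin n) (Fin n) ℂ) : Matrix (Fin n) (Fin n) ℝ :=
  fun x y => if x = y then (M x x).re else ‖M x y‖

/-- phase of a complex number -/
noncomputable def ph (z : ℂ) : ℂ := if z = 0 then 1 else z / ‖z‖

lemma norm_ph (z : ℂ) : ‖ph z‖ = 1 := by
  unfold ph
  split_ifs with h
  · simp
  · rw [norm_div, Complex.norm_real, norm_norm, div_self (norm_ne_zero_iff.mpr h)]

lemma mul_conj_ph (z : ℂ) : z * star (ph z) = (‖z‖ : ℂ) := by
  unfold ph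
  split_ifs with h
  · subst h; simp
  · have hz : (‖z‖ : ℂ) ≠ 0 := by exact_mod_cast norm_ne_zero_iff.mpr h
    rw [Complex.star_def, map_div₀, Complex.conj_ofReal, ← mul_div_assoc, Complex.mul_conj']
    field_simp

lemma exists_gauge {M : Matrix (Fin n) (Fin n) ℂ} (hM : M.IsHermitian) (hT : IsTri M) :
    ∃ g : Fin n → ℂ, (∀ x, star (g x) * g x = 1) ∧
      ∀ x y, M x y * g y = g x * ((absM M x y : ℝ) : ℂ) := by
  classical
  let α : ℕ → ℂ := fun k => if h : k + 1 < n then M ⟨k, by omega⟩ ⟨k + 1, h⟩ else 0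
  let g : ℕ → ℂ := fun k => Nat.rec (motive := fun _ => ℂ) 1 (fun k gk => gk * star (ph (α k))) k
  have hg0 : g 0 = 1 := rfl
  have hg1 : ∀ k, g (k + 1) = g k * star (ph (α k)) := fun k => rfl
  have hgn : ∀ k, star (g k) * g k = 1 := by
    intro k
    induction k with
    | zero => rw [hg0]; simp
    | succ k ih =>
      rw [hg1]
      have h2 : ph (α k) * star (ph (α k)) = 1 := by
        rw [Complex.star_def, Complex.mul_conj', norm_ph]; simp
      rw [star_mul', star_star]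
      calc _ = (star (g k) * g k) * (ph (α k) * star (ph (α k))) := by ring
        _ = 1 := by rw [ih, h2, one_mul]
  have hstep : ∀ x y : Fin n, (x : ℕ) + 1 = (y : ℕ) → M x y * g y = g x * (‖M x y‖ : ℂ) := by
    intro x y hxy
    have h1 : α x = M x y := by
      have h : (x : ℕ) + 1 < n := by rw [hxy]; exact y.isLt
      simp only [α, dif_pos h]
      congr 1
      exact Fin.ext hxy
    rw [← hxy, hg1, h1]
    calc _ = g x * (M x y * star (ph (M x y))) := by ring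
      _ = _ := by rw [mul_conj_ph]
  refine ⟨fun x => g x, fun x => hgn x, ?_⟩
  intro x y
  have hher : ∀ a b, M a b = star (M b a) := by
    intro a b
    have := congrFun (congrFun hM.eq a) b
    rw [← this, Matrix.conjTranspose_apply]
  by_cases hxy : x = y
  · subst hxy
    simp only [absM, if_true]
    have h1 : ((M x x).re : ℂ) = M x x := by
      have h2 := hher x x
      rw [Complex.star_def] at h2
      exact Complex.conj_eq_iff_re.mp h2.symm
    rw [h1, mul_comm]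
  · simp only [absM, if_neg hxy]
    have hne : (x : ℕ) ≠ (y : ℕ) := fun h => hxy (Fin.ext h)
    rcases lt_or_gt_of_ne hne with h | h
    · by_cases h1 : (x : ℕ) + 1 = (y : ℕ)
      · exact hstep x y h1
      · rw [hT x y (Or.inl (by omega))]; simp
    · by_cases h1 : (y : ℕ) + 1 = (x : ℕ)
      · have h2 := hstep y x h1
        have h3 : star (M y x * g x) = star (g y * (‖M y x‖ : ℂ)) := by rw [h2]
        rw [star_mul', star_mul', ← hher x y] at h3
        have h4 : star ((‖M y x‖ : ℝ) : ℂ) = (‖M x y‖ : ℂ) := by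
          rw [hher x y, norm_star, Complex.star_def, Complex.conj_ofReal]
        rw [h4] at h3
        calc M x y * g y = M x y * g y * (star (g x) * g x) := by rw [hgn, mul_one]
          _ = (M x y * star (g x)) * g y * g x := by ring
          _ = (star (g y) * (‖M x y‖ : ℂ)) * g y * g x := by rw [h3]
          _ = (star (g y) * g y) * (g x * (‖M x y‖ : ℂ)) := by ring
          _ = _ := by rw [hgn, one_mul]
      · rw [hT x y (Or.inr (by omega))]; simp

lemma absM_tri {M : Matrix (Fin n) (Fin n) ℂ} (hT : IsTri M) : IsTri (absM M) := by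
  intro x y hxy
  have h : x ≠ y := by intro h; subst h; omega
  simp [absM, h, hT x y hxy]

lemma absM_symm {M : Matrix (Fin n) (Fin n) ℂ} (hM : M.IsHermitian) : (absM M)ᵀ = absM M := by
  ext x y
  simp only [Matrix.transpose_apply, absM]
  by_cases h : x = y
  · subst h; rfl
  · rw [if_neg h, if_neg (fun h' => h h'.symm)]
    have := congrFun (congrFun hM.eq x) y
    rw [← this, Matrix.conjTranspose_apply, norm_star]

/-- Eigenvalue spacing of a complex Hermitian tridiagonal matrix `M` from a lower bound for the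
compressed commutator of a nearby real symmetric tridiagonal matrix. -/
theorem spacing_of_lower {M : Matrix (Fin n) (Fin n) ℂ} (hM : M.IsHermitian) (hT : IsTri M)
    {T' : Matrix (Fin n) (Fin n) ℂ} (hT' : IsTri T') (hs' : T'ᵀ = T') {τ η : ℝ} (hτ : 0 ≤ τ)
    (hd : ∀ x, T' x x = M x x)
    (hb : ∀ x y, x ≠ y → ‖T' x y - (‖M x y‖ : ℂ)‖ ≤ τ)
    (hlow : ∀ u : Pr n → ℂ, η ^ 2 * ∑ p, ‖u p‖ ^ 2 ≤ ∑ p, ‖(KD T' *ᵥ u) p‖ ^ 2)
    (i j : Fin n) (hij : i ≠ j) :
    η - 4 * τ ≤ |hM.eigenvalues i - hM.eigenvalues j| := by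
  obtain ⟨g, hg1, hg2⟩ := exists_gauge hM hT
  set T : Matrix (Fin n) (Fin n) ℂ := (absM M).map (fun x => (x : ℂ)) with hTdef
  have hTt : IsTri T := by
    intro x y hxy
    simp [hTdef, absM_tri hT x y hxy]
  have hTs : Tᵀ = T := by
    rw [hTdef, ← Matrix.transpose_map, absM_symm hM]
  -- eigenvectors
  have hev : ∀ i, T *ᵥ (fun x => star (g x) * (hM.eigenvectorBasis i) x)
      = ((hM.eigenvalues i : ℝ) : ℂ) • (fun x => star (g x) * (hM.eigenvectorBasis i) x) := by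
    intro i
    have h1 := hM.mulVec_eigenvectorBasis i
    funext x
    have h2 := congrFun h1 x
    simp only [Matrix.mulVec, dotProduct, Pi.smul_apply] at h2
    simp only [Matrix.mulVec, dotProduct, Pi.smul_apply, smul_eq_mul]
    have h3 : ∀ y, T x y * (star (g y) * (hM.eigenvectorBasis i) y)
        = star (g x) * (M x y * (hM.eigenvectorBasis i) y) := by
      intro y
      have h4 : T x y = star (g x) * (M x y * g y) := by
        rw [hg2, ← mul_assoc, hg1, one_mul, hTdef, Matrix.map_apply]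
      rw [h4]
      calc _ = star (g x) * M x y * (star (g y) * g y) * (hM.eigenvectorBasis i) y := by ring
        _ = _ := by rw [hg1]; ring
    simp_rw [h3]
    rw [← Finset.mul_sum, h2]
    rw [Complex.real_smul]
    ring
  have hgn : ∀ x, ‖g x‖ = 1 := by
    intro x
    have h1 := hg1 x
    rw [Complex.star_def, Complex.conj_mul'] at h1
    have h2 : ‖g x‖ ^ 2 = 1 := by exact_mod_cast h1
    nlinarith [norm_nonneg (g x)]
  have hnorm : ∀ i, ∑ x, ‖star (g x) * (hM.eigenvectorBasis i) x‖ ^ 2 = 1 := by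
    intro i
    simp_rw [norm_mul, norm_star, hgn, one_mul]
    have h1 := EuclideanSpace.norm_sq_eq (hM.eigenvectorBasis i)
    rw [hM.eigenvectorBasis.orthonormal.1 i] at h1
    rw [← h1]; norm_num
  have horth : ∑ x, star (star (g x) * (hM.eigenvectorBasis i) x)
      * (star (g x) * (hM.eigenvectorBasis j) x) = 0 := by
    have h1 : inner ℂ (hM.eigenvectorBasis i) (hM.eigenvectorBasis j) = 0 :=
      hM.eigenvectorBasis.orthonormal.2 hij
    rw [EuclideanSpace.inner_eq_star_dotProduct] at h1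
    rw [← h1, dotProduct]
    apply Finset.sum_congr rfl
    intro x _
    rw [star_mul', star_star, Pi.star_apply]
    calc _ = (star (g x) * g x) * (star ((hM.eigenvectorBasis i) x) * (hM.eigenvectorBasis j) x) := by
          ring
      _ = _ := by rw [hg1, one_mul, mul_comm]
  obtain ⟨u, hu1, hu2⟩ := exists_short hTt hTs _ _ _ _ (hev i) (hev j) (hnorm i) (hnorm j) horth
  have hdT : ∀ x, T' x x = T x x := by
    intro x
    rw [hd x, hTdef, Matrix.map_apply, absM, if_pos rfl]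
    have := congrFun (congrFun hM.eq x) x
    rw [Matrix.conjTranspose_apply, Complex.star_def] at this
    exact (Complex.conj_eq_iff_re.mp this).symm
  have hbT : ∀ x y, ‖T' x y - T x y‖ ≤ τ := by
    intro x y
    by_cases h : x = y
    · subst h
      rw [hdT]; simpa using hτ
    · have := hb x y h
      rw [hTdef, Matrix.map_apply, absM, if_neg h]
      exact this
  have h5 := gap_perturb hTt hT' hTs hs' hτ hdT hbT hlow u hu1
  refine h5.trans ?_
  apply Real.sqrt_le_iff.mpr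
  refine ⟨abs_nonneg _, ?_⟩
  refine hu2.trans (le_of_eq ?_)
  rw [← Complex.ofReal_sub, Complex.norm_real, Real.norm_eq_abs]

end Pool.Agent.Lib.MP_26b317_lc
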