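import Mathlib
import Pool.Agent.Lib.MP_26b317_lc.Detsq
import Pool.Agent.Lib.MP_26b317_lc.Gap
import Pool.Agent.Lib.MP_26b317_lc.Descent

/-!
The complete program and its correctness.
-/

open Matrix

namespace Pool.Agent.Lib.MP_26b317_lc

/-! ### the program -/

/-- `X[j] := j` for `j ≤ n` -/
def P1 : Cmd := .loop 4 (.var 0) (.setC 3 (.add (.var 4) (.lit 1)) (.lit 0)
  (.add (.get 3 (.var 4) (.lit 0)) (.lit 1)))

/-- register 2 becomes `L` with `n ≤ 2 ^ L ≤ 2 n` -/
def P2 : Cmd := .seq (.setN 1 (.lit 1)) (.loop 4 (.var 0) (.ifN (.var 1) (.var 0)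
  (.seq (.setN 1 (.add (.var 1) (.var 1))) (.setN 2 (.add (.var 2) (.lit 1)))) .skip))

/-- `3 L` as an index expression -/
def e3 : NExp := .add (.add (.var 2) (.var 2)) (.var 2)

/-- register 3 becomes `12 L + 6` -/
def P3 : Cmd := .setN 3 (.add (.add (.add e3 e3) (.add e3 e3)) (.lit 6))

/-- `η := δ / n` -/
def P4 : Cmd := setS 21 (.div (sc 1) (.get 3 (.var 0) (.lit 0)))

/-- `τ := (η / 2 ^ K) / 8` -/
def P5 : Cmd := .seq (setS 24 (sc 21)) (.seq (.loop 4 (.var 3) (setS 24 (.div (sc 24) (.lit 2))))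
  (setS 24 (.div (sc 24) (.lit 8))))

/-- `β[i] := A[i][i+1] A[i+1][i] + τ²` -/
def P6 : Cmd := .loop 4 (.var 0) (.setC 4 (.var 4) (.lit 0)
  (.add (.mul (.get 0 (.var 4) (.add (.var 4) (.lit 1))) (.get 0 (.add (.var 4) (.lit 1)) (.var 4)))
    (.mul (sc 24) (sc 24))))

/-- `z := e`, then register `o` becomes the squared modulus of the determinant at `z` -/
def blk (o : ℕ) (e : CExp) : Cmd := .seq (setS 23 e) (detsq o)

/-- `s - h + i h` -/
def z1 : CExp := .add (.sub (sc 20) (sc 22)) (.mul .imag (sc 22))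
/-- `s - h + i (21/20) h` -/
def z2 : CExp := .add (.sub (sc 20) (sc 22)) (.mul .imag (.mul (.div (.lit 21) (.lit 20)) (sc 22)))
/-- `s + h + i h` -/
def z3 : CExp := .add (.add (sc 20) (sc 22)) (.mul .imag (sc 22))
/-- `s + h + i (21/20) h` -/
def z4 : CExp := .add (.add (sc 20) (sc 22)) (.mul .imag (.mul (.div (.lit 21) (.lit 20)) (sc 22)))

/-- choice of the new centre -/
def choose : Cmd := .ifC (.div (sc 14) (sc 13)) (.div (sc 16) (sc 15))
      (setS 20 (.sub (sc 20) (sc 22))) (setS 20 (.add (sc 20) (sc 22)))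

/-- one step of the descent -/
def body : Cmd := .seq (setS 22 (.div (sc 21) (.lit 2)))
  (.seq (blk 13 z1) (.seq (blk 14 z2) (.seq (blk 15 z3) (.seq (blk 16 z4)
    (.seq choose (setS 21 (sc 22)))))))

/-- the descent -/
def P7 : Cmd := .loop 7 (.var 3) body

/-- output `E[i] := s X[i] / δ` -/
def P8 : Cmd := .loop 4 (.var 0) (.setC 2 (.var 4) (.lit 0)
  (.div (.mul (sc 20) (.get 3 (.var 4) (.lit 0))) (sc 1)))

/-- The program. -/
def prog : Cmd :=
  .seq P1 (.seq P2 (.seq P3 (.seq P4 (.seq P5 (.seq P6 (.seq P7 P8))))))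

/-! ### the real symmetric comparison matrix -/

/-- real symmetric matrix with off-diagonal entries `√(|A i j|² + τ²)` -/
noncomputable def At {n : ℕ} (A : Matrix (Fin n) (Fin n) ℂ) (τ : ℝ) : Matrix (Fin n) (Fin n) ℝ :=
  fun i j => if i = j then (A i i).re else
    if (j : ℕ) = i + 1 ∨ (i : ℕ) = j + 1 then Real.sqrt (‖A i j‖ ^ 2 + τ ^ 2) else 0

variable {n : ℕ} {A : Matrix (Fin n) (Fin n) ℂ}

lemma herm_norm (hA : A.IsHermitian) (i j : Fin n) : ‖A i j‖ = ‖A j i‖ := by
  have := congrFun (congrFun hA.eq i) j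
  rw [← this, Matrix.conjTranspose_apply, norm_star]

lemma At_tri (τ : ℝ) : IsTri (At A τ) := by
  intro i j hij
  have h1 : i ≠ j := by intro h; subst h; omega
  have h2 : ¬ ((j : ℕ) = i + 1 ∨ (i : ℕ) = j + 1) := by omega
  simp [At, h1, h2]

lemma At_symm (hA : A.IsHermitian) (τ : ℝ) : (At A τ)ᵀ = At A τ := by
  ext i j
  simp only [Matrix.transpose_apply, At]
  by_cases h : i = j
  · subst h; rfl
  · rw [if_neg h, if_neg (fun h' => h h'.symm), herm_norm hA i j]
    by_cases h2 : (j : ℕ) = i + 1 ∨ (i : ℕ) = j + 1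
    · rw [if_pos h2, if_pos h2.symm]
    · rw [if_neg h2, if_neg (fun h' => h2 h'.symm)]

lemma At_ne {τ : ℝ} (hτ : 0 < τ) : ∀ i j : Fin n, (i : ℕ) = (j : ℕ) + 1 → At A τ i j ≠ 0 := by
  intro i j hij
  have h1 : i ≠ j := by intro h; subst h; omega
  have h2 : (j : ℕ) = i + 1 ∨ (i : ℕ) = j + 1 := Or.inr hij
  simp only [At, if_neg h1, if_pos h2]
  positivity

/-- diagonal similarity -/
lemma sim_pow {T : Matrix (Fin n) (Fin n) ℂ} {N : Matrix (Fin n) (Fin n) ℂ} {ℓ : Fin n → ℂ}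
    (h : ∀ i j, N i j * ℓ j = ℓ i * T i j) (k : ℕ) :
    ∀ i j, (N ^ k) i j * ℓ j = ℓ i * (T ^ k) i j := by
  induction k with
  | zero =>
    intro i j
    simp only [pow_zero]
    by_cases hij : i = j
    · subst hij; simp
    · simp [Matrix.one_apply_ne hij]
  | succ k ih =>
    intro i j
    rw [pow_succ, pow_succ, Matrix.mul_apply, Matrix.mul_apply, Finset.sum_mul, Finset.mul_sum]
    apply Finset.sum_congr rfl
    intro l _
    rw [mul_assoc, h l j, ← mul_assoc, ih i l]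
    ring

lemma diagPow_Nm (hA : A.IsHermitian) (τ : ℝ) (hτ : 0 < τ) (z : ℂ) (d β : ℕ → ℂ)
    (hd : ∀ i : Fin n, d i = A i i + z * ((i : ℕ) : ℂ))
    (hβ : ∀ i j : Fin n, (j : ℕ) = i + 1 → β i = A i j * A j i + (τ : ℂ) * τ) :
    diagPow (Nm n d β) = diagPow (Tz (At A τ) z) := by
  classical
  let b : ℕ → ℝ := fun k => if h : k + 1 < n then At A τ ⟨k, by omega⟩ ⟨k + 1, h⟩ else 1
  let ℓ : ℕ → ℂ := fun k => Nat.rec (motive := fun _ => ℂ) 1 (fun k x => x * (b k : ℂ)) k
  have hℓ1 : ∀ k, ℓ (k + 1) = ℓ k * (b k : ℂ) := fun k => rfl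
  have hb0 : ∀ k, b k ≠ 0 := by
    intro k
    simp only [b]
    split_ifs with h
    · have h1 : (⟨k, by omega⟩ : Fin n) ≠ ⟨k + 1, h⟩ := by
        intro h'; simpa using congrArg Fin.val h'
      simp only [At, if_neg h1, true_or, if_true]
      positivity
    · exact one_ne_zero
  have hℓ0 : ∀ k, ℓ k ≠ 0 := by
    intro k
    induction k with
    | zero => exact one_ne_zero
    | succ k ih =>
      rw [hℓ1]
      exact mul_ne_zero ih (by exact_mod_cast hb0 k)
  have hbA : ∀ i j : Fin n, (j : ℕ) = i + 1 → b i = At A τ i j := by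
    intro i j hij
    have h : (i : ℕ) + 1 < n := by rw [← hij]; exact j.isLt
    simp only [b, dif_pos h]
    congr 1
    exact Fin.ext hij.symm
  have hrel : ∀ i j : Fin n, Nm n d β i j * ℓ j = ℓ i * Tz (At A τ) z i j := by
    intro i j
    by_cases hij : i = j
    · subst hij
      have h1 : Tz (At A τ) z i i = d i := by
        rw [hd]
        simp only [Tz, Matrix.add_apply, Matrix.map_apply, Matrix.smul_apply, smul_eq_mul,
          Matrix.diagonal_apply_eq, At, if_true]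
        congr 1
        have := congrFun (congrFun hA.eq i) i
        rw [Matrix.conjTranspose_apply, Complex.star_def] at this
        exact Complex.conj_eq_iff_re.mp this
      rw [h1]
      simp only [Nm, if_true]
      ring
    · have hij' : (j : ℕ) ≠ i := fun h => hij (Fin.ext h.symm)
      have h1 : Tz (At A τ) z i j = ((At A τ i j : ℝ) : ℂ) := by
        simp [Tz, Matrix.diagonal_apply_ne _ hij]
      rw [h1]
      simp only [Nm, if_neg hij']
      by_cases h2 : (j : ℕ) = i + 1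
      · rw [if_pos h2, h2, hℓ1, ← hbA i j h2, one_mul]
      · rw [if_neg h2]
        by_cases h3 : (i : ℕ) = j + 1
        · rw [if_pos h3, h3, hℓ1, hβ j i h3]
          have h4 : At A τ i j = b j := by
            rw [hbA j i h3]
            have := congrFun (congrFun (At_symm hA τ) j) i
            rwa [Matrix.transpose_apply] at this
          rw [h4]
          have h5 : (b j : ℂ) * (b j : ℂ) = A j i * A i j + (τ : ℂ) * τ := by
            rw [hbA j i h3]
            have h6 : j ≠ i := fun h => hij h.symm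
            have h7 : (i : ℕ) = j + 1 ∨ (j : ℕ) = i + 1 := Or.inl h3
            simp only [At, if_neg h6, if_pos h7]
            rw [← Complex.ofReal_mul, Real.mul_self_sqrt (by positivity)]
            push_cast
            have h8 : A i j = star (A j i) := by
              have := congrFun (congrFun hA.eq i) j
              rw [← this, Matrix.conjTranspose_apply]
            rw [h8, Complex.star_def, Complex.mul_conj']
            ring
          rw [mul_assoc, h5]
          ring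
        · rw [if_neg h3]
          have h4 : At A τ i j = 0 := by
            have h5 : ¬ ((j : ℕ) = i + 1 ∨ (i : ℕ) = j + 1) := by omega
            simp [At, hij, h5]
          rw [h4]; simp
  ext k x
  have := sim_pow (ℓ := fun i : Fin n => ℓ i) hrel (k : ℕ) x x
  simp only [diagPow]
  have h0 := hℓ0 x
  exact mul_right_cancel₀ h0 (by rw [this]; ring)

/-! ### specifications -/

lemma P1_spec (σ : Mem) (hn : σ.nat 0 = n) (h0 : σ.num 3 0 0 = 0) :
    ∀ j ≤ n, (P1.run σ).num 3 j 0 = (j : ℂ) := by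
  have key := loop_inv (P := fun k τ => τ.nat = σ.nat ∧ ∀ j ≤ k, τ.num 3 j 0 = (j : ℂ))
    (v := 4) (b := .var 0) (p := .setC 3 (.add (.var 4) (.lit 1)) (.lit 0)
      (.add (.get 3 (.var 4) (.lit 0)) (.lit 1))) (σ := σ) (m := n) (by simp [NExp.eval, hn])
    ⟨rfl, by intro j hj; have : j = 0 := by omega
             subst this; simpa using h0⟩ (by
      intro k hk τ ⟨h1, h2⟩
      refine ⟨?_, ?_⟩
      · rw [pass_nat (Cmd.pure_nat (by simp [Cmd.pure])), h1]
      · intro j hj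
        simp only [pass, Cmd.run, setNat_num, Mem.setNum, NExp.eval, CExp.eval, setNat_nat,
          Function.update_self, true_and]
        by_cases hjk : j = k + 1
        · subst hjk
          simp only [and_self, if_true]
          rw [h2 k le_rfl]
          push_cast; ring
        · rw [if_neg (fun h => hjk h.1)]
          exact h2 j (by omega))
  exact key.2

lemma P2_spec (σ : Mem) (hn : σ.nat 0 = n) (hn1 : 1 ≤ n) (h2 : σ.nat 2 = 0) :
    (P2.run σ).nat 0 = n ∧ n ≤ 2 ^ ((P2.run σ).nat 2) ∧ 2 ^ ((P2.run σ).nat 2) ≤ 2 * n ∧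
      (P2.run σ).num = σ.num := by
  have key := loop_inv (P := fun k τ => τ.nat 0 = n ∧ τ.nat 1 = 2 ^ (τ.nat 2) ∧
      τ.nat 1 ≤ 2 * n ∧ (n ≤ τ.nat 1 ∨ k ≤ τ.nat 2))
    (v := 4) (b := .var 0) (p := (.ifN (.var 1) (.var 0)
      (.seq (.setN 1 (.add (.var 1) (.var 1))) (.setN 2 (.add (.var 2) (.lit 1)))) .skip))
    (σ := (Cmd.setN 1 (.lit 1)).run σ) (m := n) (by simp [Cmd.run, NExp.eval, hn])
    (by simp [Cmd.run, NExp.eval, hn, h2]; omega) (by
      intro k hk τ ⟨h1, h2, h3, h4⟩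
      by_cases hc : τ.nat 1 < n
      · have e : (pass 4 (Cmd.ifN (.var 1) (.var 0)
          (.seq (.setN 1 (.add (.var 1) (.var 1))) (.setN 2 (.add (.var 2) (.lit 1))))
          .skip).run k τ).nat = Function.update (Function.update τ.nat 1 (τ.nat 1 + τ.nat 1)) 2
            (τ.nat 2 + 1) := by
          simp only [pass, Cmd.run]
          rw [if_pos (show (NExp.var 1).eval (τ.setNat 4 k).nat
            < (NExp.var 0).eval (τ.setNat 4 k).nat by simpa [NExp.eval, h1] using hc)]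
          simp only [NExp.eval, setNat_nat]
          funext v
          by_cases v4 : v = 4
          · subst v4; simp
          · by_cases v2 : v = 2
            · subst v2; simp
            · by_cases v1 : v = 1
              · subst v1; simp
              · simp [v4, v2, v1]
        rw [e]
        refine ⟨by simp [h1], ?_, ?_, ?_⟩
        · simp only [Function.update_self, ne_eq, show (1 : ℕ) ≠ 2 by norm_num, not_false_eq_true,
            Function.update_of_ne]
          rw [h2, pow_succ]; ring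
        · simp only [ne_eq, show (1 : ℕ) ≠ 2 by norm_num, not_false_eq_true,
            Function.update_of_ne, Function.update_self]
          omega
        · right
          simp only [Function.update_self]
          rcases h4 with h4 | h4
          · omega
          · omega
      · have e : (pass 4 (Cmd.ifN (.var 1) (.var 0)
          (.seq (.setN 1 (.add (.var 1) (.var 1))) (.setN 2 (.add (.var 2) (.lit 1))))
          .skip).run k τ).nat = τ.nat := by
          simp only [pass, Cmd.run]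
          rw [if_neg (show ¬ (NExp.var 1).eval (τ.setNat 4 k).nat
            < (NExp.var 0).eval (τ.setNat 4 k).nat by simpa [NExp.eval, h1] using hc)]
          simp
        rw [e]
        exact ⟨h1, h2, h3, Or.inl (by omega)⟩)
  have hnum : (P2.run σ).num = σ.num := by
    funext a
    exact Cmd.frame (by simp [P2, Cmd.wr]) σ
  have hrun : P2.run σ = (Cmd.loop 4 (.var 0) (.ifN (.var 1) (.var 0)
      (.seq (.setN 1 (.add (.var 1) (.var 1))) (.setN 2 (.add (.var 2) (.lit 1)))) .skip)).run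
        ((Cmd.setN 1 (.lit 1)).run σ) := rfl
  rw [← hrun] at key
  obtain ⟨k1, k2, k3, k4⟩ := key
  refine ⟨k1, ?_, ?_, hnum⟩
  · rcases k4 with h | h
    · rw [← k2]; exact h
    · exact h.trans (Nat.lt_two_pow_self).le
  · rw [← k2]; exact k3

lemma P5_spec (σ : Mem) (K : ℕ) (hK : σ.nat 3 = K) (η : ℂ) (hη : σ.num 21 0 0 = η) :
    (P5.run σ).num 24 0 0 = η / 2 ^ K / 8 := by
  have h0 : ((setS 24 (sc 21)).run σ).num 24 0 0 = η := by
    simp [setS, sc, Cmd.run, Mem.setNum, CExp.eval, NExp.eval, hη]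
  have key := loop_inv (P := fun k τ => τ.nat = σ.nat ∧ τ.num 24 0 0 = η / 2 ^ k)
    (v := 4) (b := .var 3) (p := setS 24 (.div (sc 24) (.lit 2)))
    (σ := (setS 24 (sc 21)).run σ) (m := K)
    (by simp [setS, Cmd.run, NExp.eval, hK])
    ⟨by simp [setS, Cmd.run], by simpa using h0⟩ (by
      intro k hk τ ⟨h1, h2⟩
      refine ⟨?_, ?_⟩
      · rw [pass_nat (Cmd.pure_nat (by simp [Cmd.pure, setS])), h1]
      · simp only [pass, setS, sc, Cmd.run, setNat_num, Mem.setNum, NExp.eval, CExp.eval,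
          true_and, if_true, h2]
        rw [pow_succ]
        field_simp
        push_cast
        ring)
  have hrun : P5.run σ = (setS 24 (.div (sc 24) (.lit 8))).run ((Cmd.loop 4 (.var 3)
      (setS 24 (.div (sc 24) (.lit 2)))).run ((setS 24 (sc 21)).run σ)) := rfl
  rw [hrun]
  simp only [setS, sc] at key ⊢
  simp only [Cmd.run, Mem.setNum, CExp.eval, NExp.eval, true_and, if_true] at key ⊢
  rw [key.2]
  push_cast
  ring

lemma P6_spec (σ : Mem) (hn : σ.nat 0 = n) (x : ℕ) (hx : x < n) :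
    (P6.run σ).num 4 x 0 = σ.num 0 x (x + 1) * σ.num 0 (x + 1) x
      + σ.num 24 0 0 * σ.num 24 0 0 := by
  rw [P6, loop_col (m := n) (by simp [NExp.eval, hn]) 4 (fun _ => 0)
    (fun i => σ.num 0 i (i + 1) * σ.num 0 (i + 1) i + σ.num 24 0 0 * σ.num 24 0 0)]
  · simp [hx]
  · intro i hi τ h1 h2 h3
    simp [Cmd.run, CExp.eval, NExp.eval, h1, sc, h2]

lemma P8_spec (σ : Mem) (hn : σ.nat 0 = n) (x : ℕ) (hx : x < n) :
    (P8.run σ).num 2 x 0 = σ.num 20 0 0 * σ.num 3 x 0 / σ.num 1 0 0 := by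
  rw [P8, loop_col (m := n) (by simp [NExp.eval, hn]) 2 (fun _ => 0)
    (fun i => σ.num 20 0 0 * σ.num 3 i 0 / σ.num 1 0 0)]
  · simp [hx]
  · intro i hi τ h1 h2 h3
    simp [Cmd.run, CExp.eval, NExp.eval, h1, sc, h2]

lemma setS_num_ne (a a' : ℕ) (e : CExp) (σ : Mem) (h : a' ≠ a) :
    ((setS a e).run σ).num a' = σ.num a' := Cmd.frame (by simp [setS, Cmd.wr, h]) σ

lemma setS_num_same (a : ℕ) (e : CExp) (σ : Mem) :
    ((setS a e).run σ).num a 0 0 = e.eval σ := by
  simp [setS, Cmd.run, Mem.setNum, NExp.eval]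

lemma setS_nat (a : ℕ) (e : CExp) (σ : Mem) : ((setS a e).run σ).nat = σ.nat := rfl

lemma sc_eval (a : ℕ) (σ : Mem) : (sc a).eval σ = σ.num a 0 0 := rfl

lemma blk_pure (o : ℕ) (e : CExp) : (blk o e).pure := by
  simp [blk, Cmd.pure, detsq_pure, setS]

lemma blk_nat (o : ℕ) (e : CExp) (σ : Mem) : ((blk o e).run σ).nat = σ.nat :=
  Cmd.pure_nat (blk_pure o e) σ

lemma body_pure : body.pure := by
  simp [body, Cmd.pure, blk_pure, setS, choose]

lemma blk_frame (σ : Mem) (o a : ℕ) (e : CExp)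
    (ha : a ≠ 23 ∧ a ≠ o ∧ a ≠ 6 ∧ a ≠ 7 ∧ a ≠ 8 ∧ a ≠ 9 ∧ a ≠ 10 ∧ a ≠ 11 ∧ a ≠ 12) :
    ((blk o e).run σ).num a = σ.num a := by
  rw [blk, Cmd.run, detsq_frame _ _ _ ha.2, setS_num_ne _ _ _ _ ha.1]

lemma choose_frame (σ : Mem) (a : ℕ) (ha : a ≠ 20) : (choose.run σ).num a = σ.num a := by
  apply Cmd.frame
  simp [choose, Cmd.wr, setS, ha]

lemma body_run (σ : Mem) : body.run σ = (setS 21 (sc 22)).run (choose.run ((blk 16 z4).run
    ((blk 15 z3).run ((blk 14 z2).run ((blk 13 z1).run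
      ((setS 22 (.div (sc 21) (.lit 2))).run σ)))))) := rfl

lemma body_frame (σ : Mem) (a : ℕ) (ha : a = 0 ∨ a = 1 ∨ a = 3 ∨ a = 4) :
    (body.run σ).num a = σ.num a := by
  rw [body_run, setS_num_ne _ _ _ _ (by omega), choose_frame _ _ (by omega),
    blk_frame _ _ _ _ (by omega), blk_frame _ _ _ _ (by omega), blk_frame _ _ _ _ (by omega),
    blk_frame _ _ _ _ (by omega), setS_num_ne _ _ _ _ (by omega)]

lemma blk_spec (σ τ : Mem) (hn : σ.nat 0 = n) (q : ℝ → ℝ → ℝ)
    (hq : ∀ s y : ℝ, 0 < y → (diagPow (Nm n (fun j => σ.num 0 j j + ((s : ℂ) + Complex.I * y)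
      * σ.num 3 j 0) (fun j => σ.num 4 j 0))).det ≠ 0 ∧
      Complex.normSq (diagPow (Nm n (fun j => σ.num 0 j j + ((s : ℂ) + Complex.I * y)
      * σ.num 3 j 0) (fun j => σ.num 4 j 0))).det = q s y)
    (o : ℕ) (e : CExp) (s y : ℝ) (hy : 0 < y) (h1 : τ.nat = σ.nat)
    (h2 : ∀ a, (a = 0 ∨ a = 3 ∨ a = 4) → τ.num a = σ.num a)
    (h3 : e.eval τ = (s : ℂ) + Complex.I * y)
    (ho : o ≠ 0 ∧ o ≠ 3 ∧ o ≠ 4 ∧ o ≠ 6 ∧ o ≠ 7 ∧ o ≠ 8 ∧ o ≠ 9 ∧ o ≠ 10 ∧ o ≠ 11 ∧ o ≠ 12) :
    ((blk o e).run τ).num o 0 0 = (q s y : ℂ) := by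
  have hq' := hq s y hy
  rw [blk, Cmd.run]
  have e0 : ((setS 23 e).run τ).num 0 = σ.num 0 := by
    rw [setS_num_ne _ _ _ _ (by norm_num), h2 0 (by simp)]
  have e3 : ((setS 23 e).run τ).num 3 = σ.num 3 := by
    rw [setS_num_ne _ _ _ _ (by norm_num), h2 3 (by simp)]
  have e4 : ((setS 23 e).run τ).num 4 = σ.num 4 := by
    rw [setS_num_ne _ _ _ _ (by norm_num), h2 4 (by simp)]
  have ez : ((setS 23 e).run τ).num 23 0 0 = (s : ℂ) + Complex.I * y := by
    rw [setS_num_same, h3]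
  have en : ((setS 23 e).run τ).nat 0 = n := by
    rw [setS_nat, h1, hn]
  generalize (setS 23 e).run τ = τ' at e0 e3 e4 ez en ⊢
  rw [detsq_spec τ' o n ho en]
  · rw [e0, e3, e4, ez, hq'.2]
  · rw [e0, e3, e4, ez]; exact hq'.1

/-- one step of the program is one step of the descent -/
lemma body_spec (σ : Mem) (hn : σ.nat 0 = n) (q : ℝ → ℝ → ℝ)
    (hq : ∀ s y : ℝ, 0 < y → (diagPow (Nm n (fun j => σ.num 0 j j + ((s : ℂ) + Complex.I * y)
      * σ.num 3 j 0) (fun j => σ.num 4 j 0))).det ≠ 0 ∧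
      Complex.normSq (diagPow (Nm n (fun j => σ.num 0 j j + ((s : ℂ) + Complex.I * y)
      * σ.num 3 j 0) (fun j => σ.num 4 j 0))).det = q s y)
    (s η : ℝ) (hp : 0 < η) (hs : σ.num 20 0 0 = (s : ℂ)) (hη : σ.num 21 0 0 = (η : ℂ)) :
    (body.run σ).num 20 0 0 = ((dstep q (s, η)).1 : ℂ) ∧
      (body.run σ).num 21 0 0 = ((dstep q (s, η)).2 : ℂ) := by
  have hh : 0 < η / 2 := by positivity
  have hκ : 0 < 21 / 20 * (η / 2) := by positivity
  rw [body_run]
  -- state 1
  have a22 : ((setS 22 (.div (sc 21) (.lit 2))).run σ).num 22 0 0 = ((η / 2 : ℝ) : ℂ) := by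
    rw [setS_num_same]
    simp only [CExp.eval, sc_eval, hη]
    push_cast; ring
  have a20 : ((setS 22 (.div (sc 21) (.lit 2))).run σ).num 20 0 0 = (s : ℂ) := by
    rw [setS_num_ne _ _ _ _ (by norm_num), hs]
  have afr : ∀ a, (a = 0 ∨ a = 3 ∨ a = 4) →
      ((setS 22 (.div (sc 21) (.lit 2))).run σ).num a = σ.num a := by
    intro a ha
    rw [setS_num_ne _ _ _ _ (by omega)]
  have anat : ((setS 22 (.div (sc 21) (.lit 2))).run σ).nat = σ.nat := rfl
  generalize (setS 22 (.div (sc 21) (.lit 2))).run σ = σ1 at a22 a20 afr anat ⊢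
  -- state 2
  have b13 := blk_spec σ σ1 hn q hq 13 z1 (s - η / 2) (η / 2) hh anat afr
    (by simp only [z1, CExp.eval, sc_eval, a20, a22]; push_cast; ring) (by norm_num)
  have b22 : ((blk 13 z1).run σ1).num 22 0 0 = ((η / 2 : ℝ) : ℂ) := by
    rw [blk_frame _ _ _ _ (by norm_num), a22]
  have b20 : ((blk 13 z1).run σ1).num 20 0 0 = (s : ℂ) := by
    rw [blk_frame _ _ _ _ (by norm_num), a20]
  have bfr : ∀ a, (a = 0 ∨ a = 3 ∨ a = 4) → ((blk 13 z1).run σ1).num a = σ.num a := by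
    intro a ha
    rw [blk_frame _ _ _ _ (by omega), afr a ha]
  have bnat : ((blk 13 z1).run σ1).nat = σ.nat := by rw [blk_nat, anat]
  generalize (blk 13 z1).run σ1 = σ2 at b13 b22 b20 bfr bnat ⊢
  -- state 3
  have c14 := blk_spec σ σ2 hn q hq 14 z2 (s - η / 2) (21 / 20 * (η / 2)) hκ bnat bfr
    (by simp only [z2, CExp.eval, sc_eval, b20, b22]; push_cast; ring) (by norm_num)
  have c13 : ((blk 14 z2).run σ2).num 13 0 0 = _ :=
    (congrFun (congrFun (blk_frame _ _ _ _ (by norm_num)) 0) 0).trans b13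
  have c22 : ((blk 14 z2).run σ2).num 22 0 0 = ((η / 2 : ℝ) : ℂ) := by
    rw [blk_frame _ _ _ _ (by norm_num), b22]
  have c20 : ((blk 14 z2).run σ2).num 20 0 0 = (s : ℂ) := by
    rw [blk_frame _ _ _ _ (by norm_num), b20]
  have cfr : ∀ a, (a = 0 ∨ a = 3 ∨ a = 4) → ((blk 14 z2).run σ2).num a = σ.num a := by
    intro a ha
    rw [blk_frame _ _ _ _ (by omega), bfr a ha]
  have cnat : ((blk 14 z2).run σ2).nat = σ.nat := by rw [blk_nat, bnat]
  generalize (blk 14 z2).run σ2 = σ3 at c13 c14 c22 c20 cfr cnat ⊢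
  -- state 4
  have d15 := blk_spec σ σ3 hn q hq 15 z3 (s + η / 2) (η / 2) hh cnat cfr
    (by simp only [z3, CExp.eval, sc_eval, c20, c22]; push_cast; ring) (by norm_num)
  have d13 : ((blk 15 z3).run σ3).num 13 0 0 = _ :=
    (congrFun (congrFun (blk_frame _ _ _ _ (by norm_num)) 0) 0).trans c13
  have d14 : ((blk 15 z3).run σ3).num 14 0 0 = _ :=
    (congrFun (congrFun (blk_frame _ _ _ _ (by norm_num)) 0) 0).trans c14
  have d22 : ((blk 15 z3).run σ3).num 22 0 0 = ((η / 2 : ℝ) : ℂ) := by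
    rw [blk_frame _ _ _ _ (by norm_num), c22]
  have d20 : ((blk 15 z3).run σ3).num 20 0 0 = (s : ℂ) := by
    rw [blk_frame _ _ _ _ (by norm_num), c20]
  have dfr : ∀ a, (a = 0 ∨ a = 3 ∨ a = 4) → ((blk 15 z3).run σ3).num a = σ.num a := by
    intro a ha
    rw [blk_frame _ _ _ _ (by omega), cfr a ha]
  have dnat : ((blk 15 z3).run σ3).nat = σ.nat := by rw [blk_nat, cnat]
  generalize (blk 15 z3).run σ3 = σ4 at d13 d14 d15 d22 d20 dfr dnat ⊢
  -- state 5
  have f16 := blk_spec σ σ4 hn q hq 16 z4 (s + η / 2) (21 / 20 * (η / 2)) hκ dnat dfr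
    (by simp only [z4, CExp.eval, sc_eval, d20, d22]; push_cast; ring) (by norm_num)
  have f13 : ((blk 16 z4).run σ4).num 13 0 0 = _ :=
    (congrFun (congrFun (blk_frame _ _ _ _ (by norm_num)) 0) 0).trans d13
  have f14 : ((blk 16 z4).run σ4).num 14 0 0 = _ :=
    (congrFun (congrFun (blk_frame _ _ _ _ (by norm_num)) 0) 0).trans d14
  have f15 : ((blk 16 z4).run σ4).num 15 0 0 = _ :=
    (congrFun (congrFun (blk_frame _ _ _ _ (by norm_num)) 0) 0).trans d15
  have f22 : ((blk 16 z4).run σ4).num 22 0 0 = ((η / 2 : ℝ) : ℂ) := by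
    rw [blk_frame _ _ _ _ (by norm_num), d22]
  have f20 : ((blk 16 z4).run σ4).num 20 0 0 = (s : ℂ) := by
    rw [blk_frame _ _ _ _ (by norm_num), d20]
  generalize (blk 16 z4).run σ4 = σ5 at f13 f14 f15 f16 f22 f20 ⊢
  -- conclusion
  have g21 : ((setS 21 (sc 22)).run (choose.run σ5)).num 21 0 0 = ((η / 2 : ℝ) : ℂ) := by
    rw [setS_num_same, sc_eval, choose_frame _ _ (by norm_num), f22]
  have g20 : ((setS 21 (sc 22)).run (choose.run σ5)).num 20 0 0 = (choose.run σ5).num 20 0 0 := by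
    rw [setS_num_ne _ _ _ _ (by norm_num)]
  rw [g21, g20]
  have hcond : ((CExp.div (sc 14) (sc 13)).eval σ5).re < ((CExp.div (sc 16) (sc 15)).eval σ5).re ↔
      q (s - η / 2) (21 / 20 * (η / 2)) / q (s - η / 2) (η / 2)
      < q (s + η / 2) (21 / 20 * (η / 2)) / q (s + η / 2) (η / 2) := by
    simp only [CExp.eval, sc_eval, f13, f14, f15, f16]
    rw [← Complex.ofReal_div, ← Complex.ofReal_div, Complex.ofReal_re, Complex.ofReal_re]
  by_cases hc : q (s - η / 2) (21 / 20 * (η / 2)) / q (s - η / 2) (η / 2)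
      < q (s + η / 2) (21 / 20 * (η / 2)) / q (s + η / 2) (η / 2)
  · have e1 : choose.run σ5 = (setS 20 (.sub (sc 20) (sc 22))).run σ5 := by
      rw [choose, Cmd.run, if_pos (hcond.mpr hc)]
    have e2 : dstep q (s, η) = (s - η / 2, η / 2) := by
      simp only [dstep, if_pos hc]
    rw [e1, e2, setS_num_same]
    simp only [CExp.eval, sc_eval, f20, f22]
    constructor
    · push_cast; ring
    · trivial
  · have e1 : choose.run σ5 = (setS 20 (.add (sc 20) (sc 22))).run σ5 := by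
      rw [choose, Cmd.run, if_neg (fun h => hc (hcond.mp h))]
    have e2 : dstep q (s, η) = (s + η / 2, η / 2) := by
      simp only [dstep, if_neg hc]
    rw [e1, e2, setS_num_same]
    simp only [CExp.eval, sc_eval, f20, f22]
    constructor
    · push_cast; ring
    · trivial

end Pool.Agent.Lib.MP_26b317_lc
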