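import Mathlib
import Pool.Agent.Lib.MP_26b317_lc.Model
import Pool.Agent.Lib.MP_26b317_lc.Prog

/-!
A deterministic algorithm which, given a Hermitian tridiagonal matrix `A` and `δ > 0`, finds a
real diagonal `E` with entries in `[-1, 1]` such that the eigenvalues of `A + δ E` are separated
by at least `δ / (2 ^ 19 n ^ 13)`, in at most `10 ^ 5 n ^ 3 log n` steps, whatever the size of `A`.

Idea: `E` is a multiple of `X = diag (0, 1, …, n - 1)`.  For an antisymmetric matrix `U` the upper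
triangular part of `[A + s X, U]` is a symmetric pencil `B - s C`, `C ≥ 1`, applied to the upper
triangular part of `U`; with `U = ψ φᵀ - φ ψᵀ` this shows that all eigenvalue spacings of
`A + s X` are at least the distance of `s` to the (real) spectrum of the pencil, which is the set
of roots of the real-rooted polynomial `D s = det [((A + s X) ^ k)ₓₓ]`.  Values of `|D|` at
complex points allow a descent on scales which finds `s` far from all roots.
-/

open Matrix

namespace Pool.Agent.Lib.MP_26b317_lc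

/-! ### cost of the pieces -/

lemma P1_cost (σ : Mem) : P1.cost σ ≤ 2 + 12 * σ.nat 0 := by
  have h := Cmd.cost_le_ub (p := P1) (by simp [P1, Cmd.pure]) σ
  refine h.trans ?_
  simp [P1, Cmd.ub, NExp.eval, NExp.cost, CExp.cost]
  omega

lemma P2_cost (σ : Mem) : P2.cost σ ≤ 4 + 14 * σ.nat 0 := by
  have h := Cmd.cost_loop_le (v := 4) (b := .var 0) (p := (.ifN (.var 1) (.var 0)
    (.seq (.setN 1 (.add (.var 1) (.var 1))) (.setN 2 (.add (.var 2) (.lit 1)))) .skip)) (B := 11)
    (by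
      intro τ
      simp only [Cmd.cost, NExp.cost]
      split_ifs <;> omega) ((Cmd.setN 1 (.lit 1)).run σ)
  have h2 : P2.cost σ = 2 + (Cmd.loop 4 (.var 0) (.ifN (.var 1) (.var 0)
    (.seq (.setN 1 (.add (.var 1) (.var 1))) (.setN 2 (.add (.var 2) (.lit 1)))) .skip)).cost
      ((Cmd.setN 1 (.lit 1)).run σ) := rfl
  rw [h2]
  have h3 : (NExp.var 0).eval ((Cmd.setN 1 (.lit 1)).run σ).nat = σ.nat 0 := by
    simp [NExp.eval, Cmd.run]
  rw [h3] at h
  have h4 : (NExp.var 0).cost = 1 := rfl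
  rw [h4] at h
  omega

lemma P3_cost (σ : Mem) : P3.cost σ = 26 := rfl

lemma P4_cost (σ : Mem) : P4.cost σ = 10 := rfl

lemma P5_cost (σ : Mem) : P5.cost σ ≤ 20 + 9 * σ.nat 3 := by
  have h := Cmd.cost_le_ub (p := P5) (by simp [P5, Cmd.pure, setS]) σ
  refine h.trans ?_
  simp [P5, Cmd.ub, NExp.eval, NExp.cost, CExp.cost, setS, sc]
  omega

lemma P6_cost (σ : Mem) : P6.cost σ ≤ 2 + 26 * σ.nat 0 := by
  have h := Cmd.cost_le_ub (p := P6) (by simp [P6, Cmd.pure]) σ
  refine h.trans ?_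
  simp [P6, Cmd.ub, NExp.eval, NExp.cost, CExp.cost, sc]
  omega

lemma P8_cost (σ : Mem) : P8.cost σ ≤ 2 + 15 * σ.nat 0 := by
  have h := Cmd.cost_le_ub (p := P8) (by simp [P8, Cmd.pure]) σ
  refine h.trans ?_
  simp [P8, Cmd.ub, NExp.eval, NExp.cost, CExp.cost, sc]
  omega

lemma body_ub (ρ : ℕ → ℕ) (n : ℕ) (hn : ρ 0 = n) (hn1 : 1 ≤ n) : body.ub ρ ≤ 1100 * n ^ 3 := by
  have h : body.ub ρ ≤ 220 + 268 * n + 224 * n ^ 2 + 284 * n ^ 3 := by
    simp [body, blk, z1, z2, z3, z4, choose, detsq, D1, D2a, D2b, D3, D3body, D3a, D3b, D3c, D4,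
      D4a, D4b, D5, D5body, D5a, D5b, D5c, Cmd.ub, setS, sc, NExp.eval, NExp.cost, CExp.cost, hn]
    ring_nf
    omega
  have h1 : n ≤ n ^ 3 := by
    calc n = n ^ 1 := (pow_one n).symm
      _ ≤ n ^ 3 := Nat.pow_le_pow_right hn1 (by norm_num)
  have h2 : n ^ 2 ≤ n ^ 3 := Nat.pow_le_pow_right hn1 (by norm_num)
  have h3 : 1 ≤ n ^ 3 := Nat.one_le_pow _ _ hn1
  omega

lemma P7_cost (σ : Mem) (n : ℕ) (hn : σ.nat 0 = n) (hn1 : 1 ≤ n) :
    P7.cost σ ≤ 2 + σ.nat 3 * (1101 * n ^ 3) := by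
  have h := Cmd.cost_le_ub (p := P7) body_pure σ
  refine h.trans ?_
  simp only [P7, Cmd.ub, NExp.eval, NExp.cost]
  have h3 : 1 ≤ n ^ 3 := Nat.one_le_pow _ _ hn1
  have h4 : ∑ k ∈ Finset.range (σ.nat 3), (body.ub (Function.update σ.nat 7 k) + 1)
      ≤ ∑ _k ∈ Finset.range (σ.nat 3), (1101 * n ^ 3) := by
    apply Finset.sum_le_sum
    intro k _
    have := body_ub (Function.update σ.nat 7 k) n (by simp [hn]) hn1
    omega
  rw [Finset.sum_const, Finset.card_range, smul_eq_mul] at h4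
  omega

/-! ### the theorem -/

lemma main :
    ∃ P : Cmd, ∀ n : ℕ, 2 ≤ n → ∀ A : Matrix (Fin n) (Fin n) ℂ, A.IsHermitian → IsTri A →
      ∀ δ : ℝ, 0 < δ →
        (P.cost (input A δ) : ℝ) ≤ 10 ^ 5 * (n : ℝ) ^ 3 * Real.log n ∧
        ∃ e : Fin n → ℝ,
          (∀ i : Fin n, (P.run (input A δ)).num 2 i 0 = (e i : ℂ)) ∧
          (∀ i : Fin n, |e i| ≤ 1) ∧
          ∃ hM : (A + (δ : ℂ) • Matrix.diagonal (fun i => (e i : ℂ))).IsHermitian,
            ∀ i j : Fin n, i ≠ j →
              δ / (2 ^ 19 * (n : ℝ) ^ 13) ≤ |hM.eigenvalues i - hM.eigenvalues j| := by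
  refine ⟨prog, ?_⟩
  intro n hn2 A hA hT δ hδ
  have hn1 : 1 ≤ n := by omega
  have hn0 : (0 : ℝ) < n := by exact_mod_cast hn1
  -- the memories
  have hrun : prog.run (input A δ) = P8.run (P7.run (P6.run (P5.run (P4.run (P3.run (P2.run
    (P1.run (input A δ)))))))) := rfl
  have hcost : prog.cost (input A δ) = P1.cost (input A δ) + (P2.cost (P1.run (input A δ)) +
    (P3.cost (P2.run (P1.run (input A δ))) + (P4.cost (P3.run (P2.run (P1.run (input A δ)))) +
    (P5.cost (P4.run (P3.run (P2.run (P1.run (input A δ))))) +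
    (P6.cost (P5.run (P4.run (P3.run (P2.run (P1.run (input A δ)))))) +
    (P7.cost (P6.run (P5.run (P4.run (P3.run (P2.run (P1.run (input A δ))))))) +
    P8.cost (P7.run (P6.run (P5.run (P4.run (P3.run (P2.run (P1.run (input A δ)))))))))))))) := rfl
  have i0 : (input A δ).nat 0 = n := by simp [input]
  have i2 : (input A δ).nat 2 = 0 := by simp [input]
  have iA : ∀ i j : Fin n, (input A δ).num 0 i j = A i j := by
    intro i j
    simp [input]
  have i1 : (input A δ).num 1 0 0 = (δ : ℂ) := by simp [input]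
  have i3 : (input A δ).num 3 0 0 = 0 := by simp [input]
  have i20 : (input A δ).num 20 0 0 = 0 := by simp [input]
  have k0 := P1_cost (input A δ)
  rw [hrun, hcost]
  clear hrun hcost
  generalize input A δ = σ0 at i0 i2 iA i1 i3 i20 k0 ⊢
  -- after P1
  have X1 := P1_spec σ0 i0 i3
  have fr1 : ∀ a, a ≠ 3 → (P1.run σ0).num a = σ0.num a := fun a ha =>
    Cmd.frame (by simp [P1, Cmd.wr, ha]) σ0
  have nt1 : (P1.run σ0).nat = σ0.nat := Cmd.pure_nat (by simp [P1, Cmd.pure]) σ0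
  have k1 := P2_cost (P1.run σ0)
  generalize P1.run σ0 = σ1 at X1 fr1 nt1 k1 ⊢
  -- after P2
  obtain ⟨m0, mL1, mL2, mnum⟩ := P2_spec (n := n) σ1 (by rw [nt1]; exact i0) hn1
    (by rw [nt1]; exact i2)
  have k2 := P3_cost (P2.run σ1)
  generalize P2.run σ1 = σ2 at m0 mL1 mL2 mnum k2 ⊢
  obtain ⟨L, hL⟩ : ∃ L, σ2.nat 2 = L := ⟨_, rfl⟩
  rw [hL] at mL1 mL2
  -- after P3
  have q0 : (P3.run σ2).nat 0 = n := by simp [P3, Cmd.run, m0]
  have q3 : (P3.run σ2).nat 3 = 12 * L + 6 := by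
    simp [P3, e3, Cmd.run, NExp.eval, hL]; ring
  have qnum : (P3.run σ2).num = σ2.num := rfl
  have k3 := P4_cost (P3.run σ2)
  generalize P3.run σ2 = σ3 at q0 q3 qnum k3 ⊢
  -- after P4
  set η0 : ℝ := δ / n with hη0
  have hη0pos : 0 < η0 := by positivity
  have r21 : (P4.run σ3).num 21 0 0 = (η0 : ℂ) := by
    rw [P4, setS_num_same]
    simp only [CExp.eval, sc_eval, NExp.eval]
    rw [q0, qnum, mnum, X1 n le_rfl, fr1 1 (by norm_num), i1, hη0]
    push_cast; ring
  have rfr : ∀ a, a ≠ 21 → (P4.run σ3).num a = σ3.num a := fun a ha => by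
    rw [P4, setS_num_ne _ _ _ _ ha]
  have rnat : (P4.run σ3).nat = σ3.nat := rfl
  have k4 := P5_cost (P4.run σ3)
  generalize P4.run σ3 = σ4 at r21 rfr rnat k4 ⊢
  -- after P5
  have s24 := P5_spec σ4 (12 * L + 6) (by rw [rnat]; exact q3) _ r21
  have sfr : ∀ a, a ≠ 24 → (P5.run σ4).num a = σ4.num a := fun a ha =>
    Cmd.frame (by simp [P5, Cmd.wr, setS, ha]) σ4
  have snat : (P5.run σ4).nat = σ4.nat := Cmd.pure_nat (by simp [P5, Cmd.pure, setS]) σ4
  have k5 := P6_cost (P5.run σ4)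
  generalize P5.run σ4 = σ5 at s24 sfr snat k5 ⊢
  set τ : ℝ := η0 / 2 ^ (12 * L + 6) / 8 with hτ
  have hτpos : 0 < τ := by positivity
  have s24' : σ5.num 24 0 0 = (τ : ℂ) := by rw [s24, hτ]; push_cast; ring
  -- after P6
  have t4 := P6_spec (n := n) σ5 (by rw [snat, rnat]; exact q0)
  have tfr : ∀ a, a ≠ 4 → (P6.run σ5).num a = σ5.num a := fun a ha =>
    Cmd.frame (by simp [P6, Cmd.wr, ha]) σ5
  have tnat : (P6.run σ5).nat = σ5.nat := Cmd.pure_nat (by simp [P6, Cmd.pure]) σ5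
  have u0 : σ5.nat 0 = n := by rw [snat, rnat]; exact q0
  have u3 : σ5.nat 3 = 12 * L + 6 := by rw [snat, rnat]; exact q3
  have v0 : ∀ a, a ≠ 3 ∧ a ≠ 21 ∧ a ≠ 24 → σ5.num a = σ0.num a := by
    intro a ha
    rw [sfr a ha.2.2, rfr a ha.2.1, qnum, mnum, fr1 a ha.1]
  have w3 : ∀ j ≤ n, σ5.num 3 j 0 = (j : ℂ) := by
    intro j hj
    rw [sfr 3 (by norm_num), rfr 3 (by norm_num), qnum, mnum, X1 j hj]
  have w21 : σ5.num 21 0 0 = (η0 : ℂ) := by rw [sfr 21 (by norm_num), r21]
  have k6 := P7_cost (P6.run σ5) n (by rw [tnat]; exact u0) hn1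
  have y0 : (P6.run σ5).num 0 = σ0.num 0 := by rw [tfr 0 (by norm_num), v0 0 (by norm_num)]
  have y1 : (P6.run σ5).num 1 0 0 = (δ : ℂ) := by
    rw [tfr 1 (by norm_num), v0 1 (by norm_num), i1]
  have y3 : ∀ j ≤ n, (P6.run σ5).num 3 j 0 = (j : ℂ) := by
    intro j hj; rw [tfr 3 (by norm_num), w3 j hj]
  have y4 : ∀ i j : Fin n, (j : ℕ) = i + 1 → (P6.run σ5).num 4 i 0
      = A i j * A j i + (τ : ℂ) * τ := by
    intro i j hij
    rw [t4 i i.isLt, s24', v0 0 (by norm_num), ← iA i j, ← iA j i, hij]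
  have y20 : (P6.run σ5).num 20 0 0 = ((0 : ℝ) : ℂ) := by
    rw [tfr 20 (by norm_num), v0 20 (by norm_num), i20]; simp
  have y21 : (P6.run σ5).num 21 0 0 = (η0 : ℂ) := by rw [tfr 21 (by norm_num), w21]
  have yn0 : (P6.run σ5).nat 0 = n := by rw [tnat]; exact u0
  have yn3 : (P6.run σ5).nat 3 = 12 * L + 6 := by rw [tnat]; exact u3
  generalize P6.run σ5 = σ6 at y0 y1 y3 y4 y20 y21 yn0 yn3 k6 ⊢
  -- the real-rooted polynomial
  obtain ⟨R, c, hc, hcard, hval, hroot⟩ := roots_summary (At_tri (A := A) τ) (At_symm hA τ)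
    (At_ne hτpos)
  set q : ℝ → ℝ → ℝ := fun s y => Complex.normSq (Dd (At A τ) ((s : ℂ) + y * Complex.I)) with hq
  have hq' : ∀ s y : ℝ, q s y = c * (R.map (fun r => (s - r) ^ 2 + y ^ 2)).prod := hval
  have hqpos : ∀ s y : ℝ, 0 < y → q s y ≠ 0 := by
    intro s y hy
    rw [hq']
    apply mul_ne_zero hc.ne'
    apply Multiset.prod_ne_zero
    intro h0
    obtain ⟨r, _, hr⟩ := Multiset.mem_map.mp h0
    have : 0 < (s - r) ^ 2 + y ^ 2 := by positivity
    exact this.ne' hr
  have hNm : ∀ (σ : Mem), σ.num 0 = σ0.num 0 → (∀ j ≤ n, σ.num 3 j 0 = (j : ℂ)) →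
      (∀ i j : Fin n, (j : ℕ) = i + 1 → σ.num 4 i 0 = A i j * A j i + (τ : ℂ) * τ) →
      ∀ s y : ℝ, 0 < y → (diagPow (Nm n (fun j => σ.num 0 j j + ((s : ℂ) + Complex.I * y)
      * σ.num 3 j 0) (fun j => σ.num 4 j 0))).det ≠ 0 ∧
      Complex.normSq (diagPow (Nm n (fun j => σ.num 0 j j + ((s : ℂ) + Complex.I * y)
      * σ.num 3 j 0) (fun j => σ.num 4 j 0))).det = q s y := by
    intro σ h0 h3 h4 s y hy
    have e : (diagPow (Nm n (fun j => σ.num 0 j j + ((s : ℂ) + Complex.I * y)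
      * σ.num 3 j 0) (fun j => σ.num 4 j 0))) = diagPow (Tz (At A τ) ((s : ℂ) + y * Complex.I)) := by
      apply diagPow_Nm hA τ hτpos
      · intro i
        rw [h0, iA, h3 i i.isLt.le]
        ring
      · intro i j hij
        exact h4 i j hij
    rw [e]
    have e2 : (diagPow (Tz (At A τ) ((s : ℂ) + y * Complex.I))).det
        = Dd (At A τ) ((s : ℂ) + y * Complex.I) := rfl
    rw [e2]
    refine ⟨?_, rfl⟩
    intro h
    apply hqpos s y hy
    rw [hq]
    simp only [h, map_zero]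
  -- the descent
  have key := loop_inv (P := fun k υ => υ.nat = σ6.nat ∧
      (∀ a, (a = 0 ∨ a = 1 ∨ a = 3 ∨ a = 4) → υ.num a = σ6.num a) ∧
      υ.num 20 0 0 = ((((dstep q)^[k] (0, η0)).1 : ℝ) : ℂ) ∧
      υ.num 21 0 0 = ((((dstep q)^[k] (0, η0)).2 : ℝ) : ℂ))
    (v := 7) (b := .var 3) (p := body) (σ := σ6) (m := 12 * L + 6) (by simp [NExp.eval, yn3])
    ⟨rfl, fun a _ => rfl, by simpa using y20, by simpa using y21⟩ (by
      intro k hk υ ⟨h1, h2, h3, h4⟩
      have hfr : ∀ a, (a = 0 ∨ a = 1 ∨ a = 3 ∨ a = 4) →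
          (pass 7 body.run k υ).num a = υ.num a := by
        intro a ha
        change (body.run (υ.setNat 7 k)).num a = υ.num a
        rw [body_frame _ _ ha, setNat_num]
      have hpos : 0 < ((dstep q)^[k] (0, η0)).2 := by
        rw [(dstep_iter hc hq' η0 hη0pos k).1]; positivity
      have hb := body_spec (n := n) (υ.setNat 7 k) (by simp [h1, yn0]) q
        (hNm _ (by rw [setNat_num, h2 0 (by simp), y0])
          (by intro j hj; rw [setNat_num, h2 3 (by simp)]; exact y3 j hj)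
          (by intro i j hij; rw [setNat_num, h2 4 (by simp)]; exact y4 i j hij))
        ((dstep q)^[k] (0, η0)).1 ((dstep q)^[k] (0, η0)).2 hpos
        (by rw [setNat_num]; exact h3) (by rw [setNat_num]; exact h4)
      refine ⟨?_, ?_, ?_, ?_⟩
      · rw [pass_nat (Cmd.pure_nat body_pure), h1]
      · intro a ha
        rw [hfr a ha, h2 a ha]
      · rw [Function.iterate_succ_apply']
        exact hb.1
      · rw [Function.iterate_succ_apply']
        exact hb.2)
  have hP7 : P7.run σ6 = (Cmd.loop 7 (.var 3) body).run σ6 := rfl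
  rw [← hP7] at key
  have k7 := P8_cost (P7.run σ6)
  have z2 := P8_spec (n := n) (P7.run σ6) (by rw [key.1]; exact yn0)
  obtain ⟨g1, g2, g3, g4⟩ := key
  rw [g1, yn0] at k7
  obtain ⟨d1, d2, d3⟩ := descent hc hq' η0 hη0pos n L (by omega) hcard mL1
  set s : ℝ := ((dstep q)^[12 * L + 6] (0, η0)).1 with hs
  set ηK : ℝ := η0 / 2 ^ (12 * L + 6) with hηK
  have hηKpos : 0 < ηK := by positivity
  constructor
  · -- cost
    have hc1 : (P1.cost σ0 + (P2.cost σ1 + (P3.cost σ2 + (P4.cost σ3 + (P5.cost σ4 +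
        (P6.cost σ5 + (P7.cost σ6 + P8.cost (P7.run σ6)))))))) ≤ 70 + 67 * n
          + 9 * (12 * L + 6) + (12 * L + 6) * (1101 * n ^ 3) := by
      rw [i0] at k0
      rw [nt1, i0] at k1
      rw [rnat, q3] at k4
      rw [u0] at k5
      rw [yn3] at k6
      omega
    have hc2 : ((P1.cost σ0 + (P2.cost σ1 + (P3.cost σ2 + (P4.cost σ3 + (P5.cost σ4 +
        (P6.cost σ5 + (P7.cost σ6 + P8.cost (P7.run σ6)))))))) : ℕ) ≤
          (12 * L + 6) * (1140 * n ^ 3) := by
      refine hc1.trans ?_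
      have h1 : n ≤ n ^ 3 := by
        calc n = n ^ 1 := (pow_one n).symm
          _ ≤ n ^ 3 := Nat.pow_le_pow_right hn1 (by norm_num)
      have h3 : 1 ≤ n ^ 3 := Nat.one_le_pow _ _ hn1
      have h4 : 70 + 67 * n + 9 * (12 * L + 6) ≤ (12 * L + 6) * (39 * n ^ 3) := by
        nlinarith
      calc _ ≤ (12 * L + 6) * (39 * n ^ 3) + (12 * L + 6) * (1101 * n ^ 3) := by omega
        _ = _ := by ring
    have hlog2 : (0.69 : ℝ) < Real.log 2 := by
      have := Real.log_two_gt_d9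
      linarith
    have hlogn : Real.log 2 ≤ Real.log n := by
      apply Real.log_le_log (by norm_num)
      exact_mod_cast hn2
    have hLlog : (L : ℝ) * Real.log 2 ≤ Real.log 2 + Real.log n := by
      have h1 : ((2 : ℝ) ^ L) ≤ 2 * n := by exact_mod_cast mL2
      have h2 := Real.log_le_log (by positivity) h1
      rw [Real.log_pow, Real.log_mul (by norm_num) hn0.ne'] at h2
      exact h2
    have hL3 : (L : ℝ) ≤ 3 * Real.log n := by
      have hL0 : (0 : ℝ) ≤ L := Nat.cast_nonneg L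
      nlinarith
    have hK : (12 * (L : ℝ) + 6) ≤ 50 * Real.log n := by nlinarith
    have hn3 : (0 : ℝ) < (n : ℝ) ^ 3 := by positivity
    have hln : 0 < Real.log n := by linarith
    calc _ ≤ ((((12 * L + 6) * (1140 * n ^ 3) : ℕ)) : ℝ) := by exact_mod_cast hc2
      _ = (12 * (L : ℝ) + 6) * (1140 * (n : ℝ) ^ 3) := by push_cast; ring
      _ ≤ (50 * Real.log n) * (1140 * (n : ℝ) ^ 3) := by
          apply mul_le_mul_of_nonneg_right hK (by positivity)
      _ ≤ 10 ^ 5 * (n : ℝ) ^ 3 * Real.log n := by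
          have : 0 < (n : ℝ) ^ 3 * Real.log n := by positivity
          nlinarith
  · -- correctness
    have hout : ∀ i : Fin n, (P8.run (P7.run σ6)).num 2 i 0 = ((s * (i : ℕ) / δ : ℝ) : ℂ) := by
      intro i
      rw [z2 i i.isLt, g3, g2 3 (by simp), g2 1 (by simp), y1, y3 i i.isLt.le]
      push_cast; ring
    refine ⟨fun i => s * (i : ℕ) / δ, hout, ?_, ?_⟩
    · intro i
      have hi0 : (0 : ℝ) ≤ ((i : ℕ) : ℝ) := Nat.cast_nonneg _
      rw [abs_div, abs_mul, abs_of_pos hδ, div_le_one hδ, abs_of_nonneg hi0]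
      have hi : ((i : ℕ) : ℝ) ≤ n := by exact_mod_cast i.isLt.le
      calc |s| * ((i : ℕ) : ℝ) ≤ η0 * n := by
            apply mul_le_mul d2 hi (Nat.cast_nonneg _) hη0pos.le
        _ = δ := by rw [hη0]; field_simp
    · have hMe : A + (δ : ℂ) • Matrix.diagonal (fun i : Fin n => ((s * (i : ℕ) / δ : ℝ) : ℂ))
          = A + (s : ℂ) • Matrix.diagonal (fun i : Fin n => ((i : ℕ) : ℂ)) := by
        congr 1
        ext i j
        by_cases hij : i = j
        · subst hij
          simp only [Matrix.smul_apply, Matrix.diagonal_apply_eq, smul_eq_mul]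
          have : (δ : ℂ) ≠ 0 := by exact_mod_cast hδ.ne'
          push_cast
          field_simp
        · simp [Matrix.diagonal_apply_ne _ hij]
      have hM : (A + (δ : ℂ) • Matrix.diagonal
          (fun i : Fin n => ((s * (i : ℕ) / δ : ℝ) : ℂ))).IsHermitian := by
        apply hA.add
        ext i j
        rw [Matrix.conjTranspose_apply, Matrix.smul_apply, Matrix.smul_apply, smul_eq_mul,
          smul_eq_mul]
        by_cases hij : i = j
        · subst hij
          rw [Matrix.diagonal_apply_eq]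
          simp only [Complex.star_def, map_mul, Complex.conj_ofReal]
        · rw [Matrix.diagonal_apply_ne _ hij, Matrix.diagonal_apply_ne _ (fun h => hij h.symm)]
          simp
      refine ⟨hM, ?_⟩
      intro i j hij
      have hTM : IsTri (A + (δ : ℂ) • Matrix.diagonal
          (fun i : Fin n => ((s * (i : ℕ) / δ : ℝ) : ℂ))) := by
        intro a b hab
        have hne : a ≠ b := by intro h; subst h; omega
        simp [hT a b hab, Matrix.diagonal_apply_ne _ hne]
      have hlow : ∀ u : Pr n → ℂ, ηK ^ 2 * ∑ p, ‖u p‖ ^ 2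
          ≤ ∑ p, ‖(KD (Tz (At A τ) (s : ℂ)) *ᵥ u) p‖ ^ 2 := by
        intro u
        apply KD_lower (At_tri τ) (At_symm hA τ) (At_ne hτpos) s ηK hηKpos.le
        intro r hr
        exact d3 r (hroot r hr)
      have hsp := spacing_of_lower hM hTM (Tz_tri (At_tri (A := A) τ) (s : ℂ))
        (Tz_symm (At_symm hA τ) (s : ℂ)) hτpos.le
        (by
          intro x
          rw [hMe]
          simp only [Tz, Matrix.add_apply, Matrix.map_apply, Matrix.smul_apply, smul_eq_mul,
            Matrix.diagonal_apply_eq, At, if_true]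
          congr 1
          have := congrFun (congrFun hA.eq x) x
          rw [Matrix.conjTranspose_apply, Complex.star_def] at this
          exact Complex.conj_eq_iff_re.mp this)
        (by
          intro x y hxy
          have e1 : (A + (δ : ℂ) • Matrix.diagonal
              (fun i : Fin n => ((s * (i : ℕ) / δ : ℝ) : ℂ))) x y = A x y := by
            simp [Matrix.diagonal_apply_ne _ hxy]
          have e2 : Tz (At A τ) (s : ℂ) x y = ((At A τ x y : ℝ) : ℂ) := by
            simp [Tz, Matrix.diagonal_apply_ne _ hxy]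
          rw [e1, e2, ← Complex.ofReal_sub, Complex.norm_real, Real.norm_eq_abs]
          simp only [At, if_neg hxy]
          by_cases hadj : (y : ℕ) = x + 1 ∨ (x : ℕ) = y + 1
          · rw [if_pos hadj]
            have h1 : ‖A x y‖ ≤ Real.sqrt (‖A x y‖ ^ 2 + τ ^ 2) := by
              apply Real.le_sqrt_of_sq_le
              nlinarith [sq_nonneg τ]
            have h2 : Real.sqrt (‖A x y‖ ^ 2 + τ ^ 2) ≤ ‖A x y‖ + τ := by
              apply Real.sqrt_le_iff.mpr
              have := norm_nonneg (A x y)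
              refine ⟨by positivity, ?_⟩
              nlinarith
            rw [abs_of_nonneg (by linarith)]
            linarith
          · rw [if_neg hadj]
            have h3 : (x : ℕ) ≠ y := fun h => hxy (Fin.ext h)
            have h4 : A x y = 0 := hT x y (by omega)
            rw [h4]
            simpa using hτpos.le)
        hlow i j hij
      refine le_trans ?_ hsp
      -- numerical bound
      have e1 : ηK - 4 * τ = ηK / 2 := by rw [hτ]; ring
      rw [e1, hηK, hη0]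
      have h1 : (2 : ℝ) ^ L ≤ 2 * n := by exact_mod_cast mL2
      have h2 : (2 : ℝ) ^ (12 * L + 6) ≤ 2 ^ 18 * (n : ℝ) ^ 12 := by
        calc (2 : ℝ) ^ (12 * L + 6) = (2 ^ L) ^ 12 * 2 ^ 6 := by
              rw [pow_add, mul_comm 12 L, pow_mul]
          _ ≤ (2 * n) ^ 12 * 2 ^ 6 := by gcongr
          _ = 2 ^ 18 * (n : ℝ) ^ 12 := by ring
      rw [div_div, div_div]
      apply div_le_div_of_nonneg_left hδ.le (by positivity)
      calc (n : ℝ) * (2 ^ (12 * L + 6) * 2) ≤ n * ((2 ^ 18 * (n : ℝ) ^ 12) * 2) := by gcongr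
        _ = 2 ^ 19 * (n : ℝ) ^ 13 := by ring

end Pool.Agent.Lib.MP_26b317_lc
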